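import Pool.Agent.H2R.Defs

/-!
# Representations of rank two and hyperelliptic vanishing cycles: the statement

`c 0, ..., c (n - 1)` is a chain of loops; `twist i c` is the image of the chain under the Dehn
twist along `c i`.
-/

set_option autoImplicit false

namespace Pool.Agent.H2R

open Matrix

variable {G : Type*} [Group G] {n : ℕ}

/-- The image of the chain `c` under the Dehn twist along `c i`: the predecessor `c (i - 1)` becomes
`c (i - 1) * c i`, the successor `c (i + 1)` becomes `(c i)⁻¹ * c (i + 1)`. -/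
def twist (i : Fin n) (c : Fin n → G) : Fin n → G := fun j =>
  if (j : ℕ) + 1 = i then c j * c i else if (j : ℕ) = i + 1 then (c i)⁻¹ * c j else c j

/-- The chains which are obtained from `c` by twists and their inverses. -/
inductive Twisted (c : Fin n → G) : (Fin n → G) → Prop
  | refl : Twisted c c
  | twist {c' : Fin n → G} (i : Fin n) : Twisted c c' → Twisted c (twist i c')
  | untwist {c' : Fin n → G} (i : Fin n) : Twisted c (H2R.twist i c') → Twisted c c'

/-- The vanishing cycles: the members of these chains. -/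
def IsVanishing (c : Fin n → G) (x : G) : Prop := ∃ c' : Fin n → G, Twisted c c' ∧ ∃ i, c' i = x

/-- all eigenvalues are roots of unity -/
def Quasi (A : Matrix (Fin 2) (Fin 2) ℂ) : Prop :=
  ∀ z : ℂ, A.charpoly.IsRoot z → ∃ k : ℕ, 0 < k ∧ z ^ k = 1

/-- completely reducible: every stable subspace has a stable complement -/
def CRed (ρ : G →* GL (Fin 2) ℂ) : Prop :=
  ∀ W : Submodule ℂ (Fin 2 → ℂ),
    (∀ x, ∀ v ∈ W, (ρ x : Matrix (Fin 2) (Fin 2) ℂ).mulVec v ∈ W) →
    ∃ W' : Submodule ℂ (Fin 2 → ℂ),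
      (∀ x, ∀ v ∈ W', (ρ x : Matrix (Fin 2) (Fin 2) ℂ).mulVec v ∈ W') ∧ IsCompl W W'

/-- The main theorem. -/
def St_Main : Prop :=
  ∀ (G : Type) [Group G] (n : ℕ) (c : Fin n → G) (ρ : G →* GL (Fin 2) ℂ), 4 ≤ n →
    Subgroup.closure (Set.range c) = ⊤ →
    (∀ x, IsVanishing c x → Quasi (ρ x : Matrix (Fin 2) (Fin 2) ℂ)) →
    (∀ x, Quasi (ρ x : Matrix (Fin 2) (Fin 2) ℂ)) ∧
    {χ : G → ℂ | ∃ φ : G ≃* G,
      χ = fun x => (ρ (φ x) : Matrix (Fin 2) (Fin 2) ℂ).trace}.Finite ∧
    (CRed ρ → Finite ρ.range)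

end Pool.Agent.H2R
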