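import Pool.Agent.H2R.Lists

/-!
# The future cone of a space of signature (n, 1)
-/

set_option autoImplicit false
set_option linter.unusedSimpArgs false

namespace Pool.Agent.H2R

variable {V : Type*} [AddCommGroup V] [Module ℝ V]

/-- the future cone, without the origin -/
def Fut (B : V →ₗ[ℝ] V →ₗ[ℝ] ℝ) (e x : V) : Prop := B x x ≤ 0 ∧ B e x < 0

/-- the form is Lorentzian -/
structure Lor (B : V →ₗ[ℝ] V →ₗ[ℝ] ℝ) (e : V) : Prop where
  symm : ∀ x y, B x y = B y x
  neg : B e e < 0
  pos : ∀ x, B e x = 0 → x ≠ 0 → 0 < B x x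

variable {B : V →ₗ[ℝ] V →ₗ[ℝ] ℝ} {e : V}

theorem Lor.nonneg (h : Lor B e) {x : V} (hx : B e x = 0) : 0 ≤ B x x := by
  rcases eq_or_ne x 0 with rfl | h0
  · simp
  · exact (h.pos x hx h0).le

theorem Lor.cs (h : Lor B e) {x y : V} (hx : B e x = 0) (hy : B e y = 0) :
    B x y ^ 2 ≤ B x x * B y y := by
  rcases eq_or_ne y 0 with rfl | h0
  · simp
  · have h1 := h.pos y hy h0
    have h2 : 0 ≤ B (B y y • x - B x y • y) (B y y • x - B x y • y) := by
      refine h.nonneg ?_
      rw [map_sub, map_smul, map_smul, hx, hy]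
      simp
    simp only [map_sub, map_smul, LinearMap.sub_apply, LinearMap.smul_apply, smul_eq_mul] at h2
    rw [h.symm y x] at h2
    have h3 : 0 ≤ B y y * (B x x * B y y - B x y ^ 2) := by nlinarith
    have h4 := nonneg_of_mul_nonneg_right h3 h1
    linarith

theorem Lor.pair (h : Lor B e) {x y : V} (hx : Fut B e x) (hy : Fut B e y) : B x y ≤ 0 := by
  obtain ⟨hx1, hx2⟩ := hx
  obtain ⟨hy1, hy2⟩ := hy
  have hne : B e e ≠ 0 := h.neg.ne
  set k : ℝ := B e e with hk
  have hk0 : k < 0 := h.neg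
  set α : ℝ := B e x / k with hα
  set β : ℝ := B e y / k with hβ
  have hα0 : 0 < α := div_pos_of_neg_of_neg hx2 hk0
  have hβ0 : 0 < β := div_pos_of_neg_of_neg hy2 hk0
  have eα : B e x = α * k := by rw [hα, div_mul_cancel₀ _ hne]
  have eβ : B e y = β * k := by rw [hβ, div_mul_cancel₀ _ hne]
  have ox : B e (x - α • e) = 0 := by rw [map_sub, map_smul, eα, smul_eq_mul]; ring
  have oy : B e (y - β • e) = 0 := by rw [map_sub, map_smul, eβ, smul_eq_mul]; ring
  have cs := h.cs ox oy
  have nx := h.nonneg ox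
  have ny := h.nonneg oy
  have e1 : B (x - α • e) (x - α • e) = B x x - α ^ 2 * k := by
    simp only [map_sub, map_smul, LinearMap.sub_apply, LinearMap.smul_apply, smul_eq_mul]
    rw [h.symm x e, eα]
    ring
  have e2 : B (y - β • e) (y - β • e) = B y y - β ^ 2 * k := by
    simp only [map_sub, map_smul, LinearMap.sub_apply, LinearMap.smul_apply, smul_eq_mul]
    rw [h.symm y e, eβ]
    ring
  have e3 : B (x - α • e) (y - β • e) = B x y - α * β * k := by
    simp only [map_sub, map_smul, LinearMap.sub_apply, LinearMap.smul_apply, smul_eq_mul]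
    rw [h.symm x e, eα, eβ]
    ring
  rw [e1, e2, e3] at cs
  rw [e1] at nx
  rw [e2] at ny
  have hab : 0 < α * β := mul_pos hα0 hβ0
  have f1 : (B x x - α ^ 2 * k) * (B y y - β ^ 2 * k) ≤ (-(α ^ 2 * k)) * (-(β ^ 2 * k)) := by
    refine mul_le_mul (by linarith) (by linarith) ny ?_
    nlinarith [sq_nonneg α]
  have f2 : (B x y - α * β * k) ^ 2 ≤ (-(α * β * k)) ^ 2 := by
    calc (B x y - α * β * k) ^ 2 ≤ _ := cs
      _ ≤ _ := f1
      _ = _ := by ring
  have f3 : 0 ≤ -(α * β * k) := by nlinarith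
  have f4 := abs_le_of_sq_le_sq f2 f3
  have f5 := (abs_le.1 f4).2
  linarith

theorem Fut.add (h : Lor B e) {x y : V} (hx : Fut B e x) (hy : Fut B e y) : Fut B e (x + y) := by
  have h1 := h.pair hx hy
  have h2 := h.symm x y
  refine ⟨?_, ?_⟩
  · simp only [map_add, LinearMap.add_apply]
    linarith [hx.1, hy.1]
  · rw [map_add]
    linarith [hx.2, hy.2]

theorem Fut.ne_zero {x : V} (hx : Fut B e x) : x ≠ 0 := by
  rintro rfl
  have := hx.2
  simp at this

theorem Lor.fut_or (h : Lor B e) {x : V} (hx : B x x ≤ 0) (h0 : x ≠ 0) :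
    Fut B e x ∨ Fut B e (-x) := by
  rcases lt_trichotomy (B e x) 0 with h1 | h1 | h1
  · exact Or.inl ⟨hx, h1⟩
  · exact absurd (h.pos x h1 h0) (not_lt.2 hx)
  · refine Or.inr ⟨?_, ?_⟩
    · simpa using hx
    · simpa using h1

/-- Reflections preserve the future cone. -/
theorem Fut.refl_ (h : Lor B e) {a x : V} (ha : B a a = 2) (hx : Fut B e x) :
    Fut B e (-(s B a x)) := by
  have h1 : B (-(s B a x)) (-(s B a x)) ≤ 0 := by
    simp only [map_neg, LinearMap.neg_apply, neg_neg]
    rw [B_s_s h.symm ha]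
    exact hx.1
  have h0 : -(s B a x) ≠ 0 := by
    intro h2
    have h3 : s B a x = 0 := neg_eq_zero.1 h2
    have h4 := s_invol (B := B) ha x
    rw [h3] at h4
    have : x = 0 := by rw [← h4, s_def]; simp
    exact hx.ne_zero this
  rcases h.fut_or h1 h0 with h2 | h2
  · exact h2
  · rw [neg_neg] at h2
    have h3 := h.pair hx h2
    rw [s_def, map_sub, map_smul, smul_eq_mul, h.symm x a] at h3
    have h4 : B a x = 0 := by nlinarith [hx.1, sq_nonneg (B a x)]
    rw [s_def, h4, zero_smul, zero_sub, neg_neg]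
    exact hx

end Pool.Agent.H2R
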