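import Pool.Agent.H2R.Cone

/-!
# Isometries of a Lorentz space of dimension four without fixed vectors
-/

set_option autoImplicit false
set_option linter.unusedSimpArgs false

namespace Pool.Agent.H2R

variable {V : Type*} [AddCommGroup V] [Module ℝ V] {B : V →ₗ[ℝ] V →ₗ[ℝ] ℝ}

/-- no vector is orthogonal to all four -/
def Good (B : V →ₗ[ℝ] V →ₗ[ℝ] ℝ) (a b c d : V) : Prop :=
  ∀ x, B a x = 0 → B b x = 0 → B c x = 0 → B d x = 0 → x = 0

/-- independence of four vectors -/
def I4 (p q r u : V) : Prop :=
  ∀ α β γ δ : ℝ, α • p + β • q + γ • r + δ • u = 0 → α = 0 ∧ β = 0 ∧ γ = 0 ∧ δ = 0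

theorem I4.span [FiniteDimensional ℝ V] {p q r u : V} (h : I4 p q r u)
    (hd : Module.finrank ℝ V = 4) (x : V) :
    ∃ α β γ δ : ℝ, x = α • p + β • q + γ • r + δ • u := by
  let Ψ : (Fin 4 → ℝ) →ₗ[ℝ] V :=
    { toFun := fun z => z 0 • p + z 1 • q + z 2 • r + z 3 • u
      map_add' := by
        intro z z'
        simp only [Pi.add_apply, add_smul]
        abel
      map_smul' := by
        intro k z
        simp only [Pi.smul_apply, smul_eq_mul, mul_smul, smul_add, RingHom.id_apply] }
  have hinj : Function.Injective Ψ := by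
    rw [injective_iff_map_eq_zero]
    intro z hz
    obtain ⟨h0, h1, h2, h3⟩ := h _ _ _ _ hz
    funext i
    fin_cases i
    · exact h0
    · exact h1
    · exact h2
    · exact h3
  have hsurj : Function.Surjective Ψ :=
    (LinearMap.injective_iff_surjective_of_finrank_eq_finrank (by simp [hd])).1 hinj
  obtain ⟨z, hz⟩ := hsurj x
  exact ⟨z 0, z 1, z 2, z 3, hz.symm⟩

theorem Good.dual [FiniteDimensional ℝ V] {a b c d : V} (h : Good B a b c d)
    (hd : Module.finrank ℝ V = 4) (p q r u : ℝ) :
    ∃ x, B a x = p ∧ B b x = q ∧ B c x = r ∧ B d x = u := by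
  let Φ : V →ₗ[ℝ] (Fin 4 → ℝ) := LinearMap.pi ![B a, B b, B c, B d]
  have hinj : Function.Injective Φ := by
    rw [injective_iff_map_eq_zero]
    intro x hx
    exact h x (congrFun hx 0) (congrFun hx 1) (congrFun hx 2) (congrFun hx 3)
  have hsurj : Function.Surjective Φ :=
    (LinearMap.injective_iff_surjective_of_finrank_eq_finrank (by simp [hd])).1 hinj
  obtain ⟨x, hx⟩ := hsurj ![p, q, r, u]
  exact ⟨x, congrFun hx 0, congrFun hx 1, congrFun hx 2, congrFun hx 3⟩

theorem Good.i4 [FiniteDimensional ℝ V] {a b c d : V} (h : Good B a b c d)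
    (hd : Module.finrank ℝ V = 4) : I4 a b c d := by
  intro α β γ δ h0
  have key : ∀ x, α * B a x + β * B b x + γ * B c x + δ * B d x = 0 := by
    intro x
    have h1 : B (α • a + β • b + γ • c + δ • d) x = 0 := by rw [h0]; simp
    simpa only [map_add, map_smul, LinearMap.add_apply, LinearMap.smul_apply,
      smul_eq_mul] using h1
  refine ⟨?_, ?_, ?_, ?_⟩
  · obtain ⟨x, h1, h2, h3, h4⟩ := h.dual hd 1 0 0 0
    have := key x
    rw [h1, h2, h3, h4] at this
    linarith
  · obtain ⟨x, h1, h2, h3, h4⟩ := h.dual hd 0 1 0 0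
    have := key x
    rw [h1, h2, h3, h4] at this
    linarith
  · obtain ⟨x, h1, h2, h3, h4⟩ := h.dual hd 0 0 1 0
    have := key x
    rw [h1, h2, h3, h4] at this
    linarith
  · obtain ⟨x, h1, h2, h3, h4⟩ := h.dual hd 0 0 0 1
    have := key x
    rw [h1, h2, h3, h4] at this
    linarith

/-- `s B a` as a linear map -/
noncomputable def sL (B : V →ₗ[ℝ] V →ₗ[ℝ] ℝ) (a : V) : V →ₗ[ℝ] V where
  toFun := s B a
  map_add' := s_add a
  map_smul' := fun r x => s_smul a r x

theorem s_neg (a x : V) : s B a (-x) = -(s B a x) := (sL B a).map_neg x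

theorem s_sub (a x y : V) : s B a (x - y) = s B a x - s B a y := (sL B a).map_sub x y

/-- `w4` as a linear map -/
noncomputable def W (B : V →ₗ[ℝ] V →ₗ[ℝ] ℝ) (a b c d : V) : V →ₗ[ℝ] V :=
  (sL B a).comp ((sL B b).comp ((sL B c).comp (sL B d)))

theorem W_apply (a b c d x : V) : W B a b c d x = s B a (s B b (s B c (s B d x))) := rfl

theorem W_w4 (a b c d x : V) : W B a b c d x = w4 B a b c d x := rfl

/-- Carter's lemma: the product of four independent reflections has no fixed vector. -/
theorem carter [FiniteDimensional ℝ V] {a b c d : V} (h : Good B a b c d)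
    (hd : Module.finrank ℝ V = 4) (ha : B a a = 2) (hb : B b b = 2) {x : V}
    (hx : W B a b c d x = x) : x = 0 := by
  have h1 : s B c (s B d x) = s B b (s B a x) := by
    have e1 : s B a (W B a b c d x) = s B b (s B c (s B d x)) := s_invol ha _
    rw [hx] at e1
    rw [e1, s_invol hb]
  have h4 : B a x • a + (-(B b (s B a x))) • b + B c (s B d x) • c + (-(B d x)) • d = 0 := by
    have h2 : s B c (s B d x) = B c (s B d x) • c - (B d x • d - x) := rfl
    have h3 : s B b (s B a x) = B b (s B a x) • b - (B a x • a - x) := rfl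
    have h5 : (B c (s B d x) • c - (B d x • d - x)) - (B b (s B a x) • b - (B a x • a - x)) = 0 := by
      rw [← h2, ← h3, h1, sub_self]
    rw [← h5]
    module
  obtain ⟨k1, k2, k3, k4⟩ := h.i4 hd _ _ _ _ h4
  have k4' : B d x = 0 := neg_eq_zero.1 k4
  have k2' : B b (s B a x) = 0 := neg_eq_zero.1 k2
  have e2 : s B a x = -x := by rw [s_def, k1, zero_smul, zero_sub]
  have e3 : s B d x = -x := by rw [s_def, k4', zero_smul, zero_sub]
  rw [e2, map_neg, neg_eq_zero] at k2'
  rw [e3, map_neg, neg_eq_zero] at k3
  exact h x k1 k2' k3 k4'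

theorem Fut.w {e₀ : V} (h : Lor B e₀) {a b c d x : V} (ha : B a a = 2) (hb : B b b = 2)
    (hc : B c c = 2) (hd : B d d = 2) (hx : Fut B e₀ x) : Fut B e₀ (W B a b c d x) := by
  have h1 := hx.refl_ h hd
  have h2 := h1.refl_ h hc
  rw [s_neg, neg_neg] at h2
  have h3 := h2.refl_ h hb
  have h4 := h3.refl_ h ha
  rw [s_neg, neg_neg] at h4
  exact h4

/-- An isometry which preserves the future cone and fixes none of its vectors has no causal
periodic vector. -/
theorem no_causal {e₀ : V} (hL : Lor B e₀) (g : V →ₗ[ℝ] V)
    (hg : ∀ x, Fut B e₀ x → Fut B e₀ (g x)) (hfix : ∀ x, Fut B e₀ x → g x ≠ x) {M : ℕ}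
    (hM : 0 < M) {x : V} (hx : (g ^ M) x = x) (hc : B x x ≤ 0) : x = 0 := by
  by_contra h0
  have key : ∀ z, Fut B e₀ z → (g ^ M) z = z → False := by
    intro z hz hzM
    have h1 : ∀ i, Fut B e₀ ((g ^ i) z) := by
      intro i
      induction i with
      | zero => simpa using hz
      | succ i ih =>
        rw [pow_succ', Module.End.mul_apply]
        exact hg _ ih
    have h2 : ∀ m, Fut B e₀ (∑ i ∈ Finset.range (m + 1), (g ^ i) z) := by
      intro m
      induction m with
      | zero => simpa using hz
      | succ m ih =>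
        rw [Finset.sum_range_succ]
        exact ih.add hL (h1 _)
    obtain ⟨m, rfl⟩ : ∃ m, M = m + 1 := ⟨M - 1, by omega⟩
    refine hfix _ (h2 m) ?_
    rw [map_sum]
    have h3 : ∀ i, g ((g ^ i) z) = (g ^ (i + 1)) z := fun i => by
      rw [pow_succ', Module.End.mul_apply]
    simp only [h3]
    have h4 := Finset.sum_range_succ (fun i => (g ^ i) z) (m + 1)
    have h5 := Finset.sum_range_succ' (fun i => (g ^ i) z) (m + 1)
    rw [h4] at h5
    rw [hzM, pow_zero, Module.End.one_apply] at h5
    exact (add_right_cancel h5).symm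
  rcases hL.fut_or hc h0 with h1 | h1
  · exact key x h1 hx
  · exact key (-x) h1 (by rw [map_neg, hx])

theorem Lor.nondeg {e₀ : V} (hL : Lor B e₀) {x : V} (h : ∀ y, B y x = 0) : x = 0 := by
  by_contra h0
  have := hL.pos x (h e₀) h0
  rw [h x] at this
  exact lt_irrefl _ this

theorem pow_comm_apply (g : V →ₗ[ℝ] V) (M : ℕ) (x : V) : (g ^ M) (g x) = g ((g ^ M) x) := by
  rw [← Module.End.mul_apply, ← pow_succ, pow_succ', Module.End.mul_apply]

/-- The quadratic relation. -/
theorem star [FiniteDimensional ℝ V] {e₀ : V} (hL : Lor B e₀) (hdim : Module.finrank ℝ V = 4)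
    (g : V →ₗ[ℝ] V) (hg : ∀ x, Fut B e₀ x → Fut B e₀ (g x))
    (hiso : ∀ x y, B (g x) (g y) = B x y) (hfix : ∀ x, g x = x → x = 0) {M : ℕ} (hM : 0 < M)
    {e : V} (he : B e e = 2) (heM : (g ^ M) e = e) :
    g (g e) = B (g e) e • g e - e := by
  have hfix' : ∀ x, Fut B e₀ x → g x ≠ x := fun x hx h => hx.ne_zero (hfix x h)
  have hpos : ∀ x, (g ^ M) x = x → B x x ≤ 0 → x = 0 := fun x hx hc =>
    no_causal hL g hg hfix' hM hx hc
  have hinj : ∀ x, g x = 0 → x = 0 := by
    intro x hx
    refine hL.nondeg fun y => ?_
    rw [← hiso y x, hx, map_zero]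
  have he0 : e ≠ 0 := by
    rintro rfl
    simp at he
  have hgM : ∀ x, (g ^ M) x = x → (g ^ M) (g x) = g x := fun x hx => by
    rw [pow_comm_apply, hx]
  have m0 := heM
  have m1 := hgM _ m0
  have m2 := hgM _ m1
  have m3 := hgM _ m2
  by_cases hdep : ∀ α β γ : ℝ, α • e + β • g e + γ • g (g e) = 0 → α = 0 ∧ β = 0 ∧ γ = 0
  · exfalso
    have hdep' : ∀ α β γ : ℝ, α • g e + β • g (g e) + γ • g (g (g e)) = 0 →
        α = 0 ∧ β = 0 ∧ γ = 0 := by
      intro α β γ h0
      refine hdep α β γ (hinj _ ?_)
      rw [map_add, map_add, map_smul, map_smul, map_smul]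
      exact h0
    by_cases hgood : Good B e (g e) (g (g e)) (g (g (g e)))
    · obtain ⟨α, β, γ, δ, h1⟩ := (hgood.i4 hdim).span hdim e₀
      have h2 : (g ^ M) e₀ = e₀ := by
        rw [h1]
        simp only [map_add, map_smul, m0, m1, m2, m3]
      have h3 := hpos e₀ h2 hL.neg.le
      have h4 := hL.neg
      rw [h3] at h4
      simp at h4
    · unfold Good at hgood
      push Not at hgood
      obtain ⟨f, f0, f1, f2, f3, hf⟩ := hgood
      -- elements of the span of the last three
      have hk : ∀ α β γ : ℝ, ∀ k, k = α • g e + β • g (g e) + γ • g (g (g e)) →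
          (g ^ M) k = k ∧ B k f = 0 := by
        rintro α β γ k rfl
        refine ⟨?_, ?_⟩
        · simp only [map_add, map_smul, m0, m1, m2, m3]
        · simp only [map_add, map_smul, LinearMap.add_apply, LinearMap.smul_apply, f1, f2, f3,
            smul_eq_mul, mul_zero, add_zero]
      have hi4 : I4 (g e) (g (g e)) (g (g (g e))) f := by
        intro α β γ δ h0
        obtain ⟨k1, k2⟩ := hk α β γ _ rfl
        have h1 : α • g e + β • g (g e) + γ • g (g (g e)) = -(δ • f) := eq_neg_of_add_eq_zero_left h0
        have h2 : B (α • g e + β • g (g e) + γ • g (g (g e)))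
            (α • g e + β • g (g e) + γ • g (g (g e))) ≤ 0 := by
          conv_lhs =>
            enter [2]
            rw [h1]
          rw [map_neg, map_smul, k2, smul_zero, neg_zero]
        have h3 := hpos _ k1 h2
        obtain ⟨q1, q2, q3⟩ := hdep' α β γ h3
        rw [h3, zero_add] at h0
        exact ⟨q1, q2, q3, (smul_eq_zero.1 h0).resolve_right hf⟩
      have hff : B f f < 0 := by
        obtain ⟨α, β, γ, δ, h1⟩ := hi4.span hdim e₀
        obtain ⟨k1, k2⟩ := hk α β γ _ rfl
        set k := α • g e + β • g (g e) + γ • g (g (g e)) with hkdef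
        by_contra hff
        push Not at hff
        have h2 : 0 ≤ B k k := by
          by_contra h3
          push Not at h3
          have h4 := hpos _ k1 h3.le
          rw [h4] at h3
          simp at h3
        have h3 := hL.neg
        rw [h1] at h3
        simp only [map_add, map_smul, LinearMap.add_apply, LinearMap.smul_apply,
            smul_eq_mul] at h3
        rw [hL.symm f k, k2] at h3
        nlinarith [mul_self_nonneg δ, mul_nonneg (mul_self_nonneg δ) hff]
      obtain ⟨α, β, γ, δ, h1⟩ := hi4.span hdim (g f)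
      obtain ⟨k1, k2⟩ := hk α β γ _ rfl
      set k := α • g e + β • g (g e) + γ • g (g (g e)) with hkdef
      have h2 : k = g f - δ • f := by rw [h1]; abel
      have h3 : B k k ≤ 0 := by
        have e1 : B (g e) (g f) = 0 := by rw [hiso]; exact f0
        have e2 : B (g (g e)) (g f) = 0 := by rw [hiso]; exact f1
        have e3 : B (g (g (g e))) (g f) = 0 := by rw [hiso]; exact f2
        have e4 : B k (g f) = 0 := by
          rw [hkdef]
          simp only [map_add, map_smul, LinearMap.add_apply, LinearMap.smul_apply,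
            smul_eq_mul, e1, e2, e3, mul_zero, add_zero]
        have e5 : B k k = B k (g f - δ • f) := by rw [← h2]
        rw [e5, map_sub, map_smul, e4, k2, smul_zero, sub_zero]
      have h4 : k = 0 := hpos _ k1 h3
      rw [h4, zero_add] at h1
      have h5 : B f f = δ * (δ * B f f) := by
        have := hiso f f
        rw [h1] at this
        simp only [map_smul, LinearMap.smul_apply, smul_eq_mul] at this
        exact this.symm
      have h6 : δ * δ = 1 := by
        have : (δ * δ - 1) * B f f = 0 := by linarith
        rcases mul_eq_zero.1 this with h | h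
        · linarith
        · exact absurd h hff.ne
      rcases mul_self_eq_one_iff.1 h6 with rfl | rfl
      · rw [one_smul] at h1
        exact hf (hfix _ h1)
      · rw [neg_smul, one_smul] at h1
        refine hf (no_causal hL g hg hfix' (M := 2) (by norm_num) ?_ hff.le)
        rw [pow_two, Module.End.mul_apply, h1, map_neg, h1, neg_neg]
  · push Not at hdep
    obtain ⟨α, β, γ, h0, hne⟩ := hdep
    have hpos' : ∀ x, (g ^ M) x = x → B x x = 0 → x = 0 := fun x hx h => hpos x hx h.le
    have e00 : B (g e) (g e) = 2 := by rw [hiso, he]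
    have e12 : B (g (g e)) (g e) = B (g e) e := by rw [hiso]
    have e22 : B (g (g e)) (g (g e)) = 2 := by rw [hiso, e00]
    -- the case `g e = -e`
    have hminus : g e = -e → g (g e) = B (g e) e • g e - e := by
      intro h
      rw [h, map_neg, h, neg_neg, map_neg, LinearMap.neg_apply, he]
      module
    have t2 : B (g e) e = -2 → g (g e) = B (g e) e • g e - e := by
      intro ht
      refine hminus ?_
      have h1 : g e + e = 0 := by
        refine hpos' _ (by rw [map_add, m0, m1]) ?_
        simp only [map_add, LinearMap.add_apply]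
        rw [hL.symm e (g e), ht, he, e00]
        norm_num
      exact eq_neg_of_add_eq_zero_left h1
    have t2' : B (g e) e ≠ 2 := by
      intro ht
      have h1 : g e - e = 0 := by
        refine hpos' _ (by rw [map_sub, m0, m1]) ?_
        simp only [map_sub, LinearMap.sub_apply]
        rw [hL.symm e (g e), ht, he, e00]
        norm_num
      exact he0 (hfix _ (sub_eq_zero.1 h1))
    by_cases hγ : γ = 0
    · rw [hγ, zero_smul, add_zero] at h0
      by_cases hβ : β = 0
      · rw [hβ, zero_smul, add_zero] at h0
        have hα : α = 0 := (smul_eq_zero.1 h0).resolve_right he0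
        exact absurd hγ (hne hα hβ)
      · have h1 : α * 2 + β * B (g e) e = 0 := by
          have : B (α • e + β • g e) e = 0 := by rw [h0]; simp
          simpa only [map_add, map_smul, LinearMap.add_apply, LinearMap.smul_apply, smul_eq_mul,
            he] using this
        have h2 : α * B (g e) e + β * 2 = 0 := by
          have : B (α • e + β • g e) (g e) = 0 := by rw [h0]; simp
          simp only [map_add, map_smul, LinearMap.add_apply, LinearMap.smul_apply, smul_eq_mul,
            e00] at this
          rw [hL.symm e (g e)] at this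
          exact this
        have h3 : (B (g e) e - 2) * (B (g e) e + 2) = 0 := by
          have h4 : β * ((B (g e) e - 2) * (B (g e) e + 2)) = 0 := by
            linear_combination (B (g e) e) * h1 - 2 * h2
          exact (mul_eq_zero.1 h4).resolve_left hβ
        rcases mul_eq_zero.1 h3 with h | h
        · exact absurd (sub_eq_zero.1 h) t2'
        · exact t2 (by linarith)
    · -- `g (g e) = l • e + m • g e`
      obtain ⟨l, m, h1⟩ : ∃ l m : ℝ, g (g e) = l • e + m • g e := by
        refine ⟨-(α / γ), -(β / γ), ?_⟩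
        have h2 : γ • g (g e) = -(α • e + β • g e) := eq_neg_of_add_eq_zero_right h0
        have h3 : g (g e) = γ⁻¹ • (γ • g (g e)) := by rw [smul_smul, inv_mul_cancel₀ hγ, one_smul]
        rw [h3, h2, div_eq_inv_mul, div_eq_inv_mul]
        module
      set x := B (g e) e with hx
      have k1 : x = l * x + m * 2 := by
        have := e12
        rw [h1] at this
        simp only [map_add, map_smul, LinearMap.add_apply, LinearMap.smul_apply, smul_eq_mul,
            e00] at this
        rw [hL.symm e (g e), ← hx] at this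
        exact this.symm
      have k2 : 2 = l * (l * 2 + m * x) + m * (l * x + m * 2) := by
        have := e22
        rw [h1] at this
        simp only [map_add, map_smul, LinearMap.add_apply, LinearMap.smul_apply, smul_eq_mul,
            e00, he] at this
        rw [hL.symm e (g e), ← hx] at this
        linarith
      have k3 : (1 - l ^ 2) * (4 - x ^ 2) = 0 := by
        have k1' : m = (x - l * x) / 2 := by linarith
        rw [k1'] at k2
        linear_combination 2 * k2
      rcases mul_eq_zero.1 k3 with h | h
      · have h2 : (1 - l) * (1 + l) = 0 := by linear_combination h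
        rcases mul_eq_zero.1 h2 with h3 | h3
        · have hl : l = 1 := by linarith
          have hm : m = 0 := by rw [hl] at k1; linarith
          rw [hl, hm, zero_smul, add_zero, one_smul] at h1
          refine hminus ?_
          have h4 : g (e + g e) = e + g e := by rw [map_add, h1, add_comm]
          have h5 := hfix _ h4
          exact eq_neg_of_add_eq_zero_right h5
        · have hl : l = -1 := by linarith
          have hm : m = x := by rw [hl] at k1; linarith
          rw [h1, hl, hm]
          module
      · have h2 : (x - 2) * (x + 2) = 0 := by linear_combination -h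
        rcases mul_eq_zero.1 h2 with h | h
        · exact absurd (sub_eq_zero.1 h) t2'
        · exact t2 (by linarith)

/-- The product of `g` with the reflection in `e` has no causal vector of period two. -/
theorem no_causal_C {e₀ : V} (hL : Lor B e₀)
    (g : V →ₗ[ℝ] V) (hg : ∀ x, Fut B e₀ x → Fut B e₀ (g x))
    (hfix : ∀ x, g x = x → x = 0) {M : ℕ} (hM : 0 < M)
    {e : V} (he : B e e = 2) (heM : (g ^ M) e = e) {x : V}
    (hx : g (s B e (g (s B e x))) = x) (hc : B x x ≤ 0) : x = 0 := by
  have hfix' : ∀ x, Fut B e₀ x → g x ≠ x := fun x hx h => hx.ne_zero (hfix x h)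
  let C : V →ₗ[ℝ] V := -(g.comp (sL B e))
  have hC : ∀ y, C y = -(g (s B e y)) := fun y => rfl
  refine no_causal hL C ?_ ?_ (M := 2) (by norm_num) ?_ hc
  · intro y hy
    rw [hC, ← map_neg]
    exact hg _ (hy.refl_ hL he)
  · intro y hy h
    rw [hC, s_def, map_sub, map_smul, neg_sub] at h
    -- `g y - B e y • g e = y`
    have h1 : (g ^ M) (B e y • g e) = B e y • g e := by
      rw [map_smul, pow_comm_apply, heM]
    have h2 : g y - y = B e y • g e := by
      have h3 : g y = y + B e y • g e := by
        rw [← sub_eq_iff_eq_add]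
        exact h
      rw [h3]
      abel
    have h4 : g ((g ^ M) y - y) = (g ^ M) y - y := by
      have h5 : g ((g ^ M) y - y) - ((g ^ M) y - y) = (g ^ M) (g y - y) - (g y - y) := by
        rw [map_sub, map_sub, pow_comm_apply]
        abel
      rw [h2, h1, sub_self] at h5
      exact sub_eq_zero.1 h5
    have h6 : (g ^ M) y = y := sub_eq_zero.1 (hfix _ h4)
    exact hy.ne_zero (no_causal hL g hg hfix' hM h6 hy.1)
  · rw [pow_two, Module.End.mul_apply, hC, hC, s_neg, map_neg, neg_neg]
    exact hx

end Pool.Agent.H2R
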