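import Mathlib

/-!
# Tuples of reflections and Hurwitz moves

`s B a x = B a x • a - x` is the negative of the reflection in `a` (if `B a a = 2`). The Hurwitz
moves replace two neighbours `a, b` of a list by `s a b, a` or by `b, s b a`.
-/

set_option autoImplicit false

namespace Pool.Agent.H2R

variable {K V : Type*} [Field K] [AddCommGroup V] [Module K V]

/-- the negative of the reflection in `a` -/
def s (B : V →ₗ[K] V →ₗ[K] K) (a x : V) : V := B a x • a - x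

/-- the Hurwitz moves -/
inductive Mv (B : V →ₗ[K] V →ₗ[K] K) : List V → List V → Prop
  | fwd (l m : List V) (a b : V) : Mv B (l ++ a :: b :: m) (l ++ s B a b :: a :: m)
  | bwd (l m : List V) (a b : V) : Mv B (l ++ a :: b :: m) (l ++ b :: s B b a :: m)

/-- reachable by Hurwitz moves -/
def Reach (B : V →ₗ[K] V →ₗ[K] K) : List V → List V → Prop := Relation.ReflTransGen (Mv B)

/-- THEOREM R (real): bounded pairings on the Hurwitz orbit of a spanning tuple of at least five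
vectors of norm two in a nondegenerate space of dimension at most four force positivity. -/
def St_R : Prop :=
  ∀ (V : Type) [AddCommGroup V] [Module ℝ V] [FiniteDimensional ℝ V]
    (B : V →ₗ[ℝ] V →ₗ[ℝ] ℝ) (t : List V) (F : Set ℝ),
    Module.finrank ℝ V ≤ 4 → (∀ x y, B x y = B y x) → (∀ x, (∀ y, B x y = 0) → x = 0) →
    5 ≤ t.length → Submodule.span ℝ {a | a ∈ t} = ⊤ → (∀ a ∈ t, B a a = 2) →
    F.Finite → (∀ f ∈ F, |f| ≤ 2) →
    (∀ t', Reach B t t' → ∀ a b, List.Sublist [a, b] t' → B a b ∈ F) →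
    ∀ x, x ≠ 0 → 0 < B x x

/-- THEOREM F (complex): the vectors of the tuple lie in a finite set which is stable under the
reflections. -/
def St_F : Prop :=
  ∀ (V : Type) [AddCommGroup V] [Module ℂ V] [FiniteDimensional ℂ V]
    (B : V →ₗ[ℂ] V →ₗ[ℂ] ℂ) (t : List V) (M : ℕ),
    Module.finrank ℂ V ≤ 4 → (∀ x y, B x y = B y x) →
    (∀ x ∈ Submodule.span ℂ {a | a ∈ t},
      (∀ y ∈ Submodule.span ℂ {a | a ∈ t}, B x y = 0) → x = 0) →
    5 ≤ t.length → (∀ a ∈ t, B a a = 2) → 0 < M →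
    (∀ t', Reach B t t' → ∀ a b, List.Sublist [a, b] t' →
      ∃ ζ : ℂ, ζ ^ M = 1 ∧ B a b = ζ + ζ⁻¹) →
    ∃ P : Set V, P.Finite ∧ (∀ a ∈ t, a ∈ P) ∧ ∀ a ∈ t, ∀ x ∈ P, s B a x ∈ P

/-- Linear algebra, 1: nonnegative principal minors. -/
def St_Pos : Prop :=
  ∀ (V : Type) [AddCommGroup V] [Module ℝ V] [FiniteDimensional ℝ V]
    (B : V →ₗ[ℝ] V →ₗ[ℝ] ℝ) (N : ℕ) (v : Fin N → V),
    Module.finrank ℝ V ≤ 4 → (∀ x y, B x y = B y x) → (∀ x, (∀ y, B x y = 0) → x = 0) →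
    Submodule.span ℝ (Set.range v) = ⊤ →
    (∀ (k : ℕ) (f : Fin k → Fin N), k ≤ 4 → StrictMono f →
      0 ≤ (Matrix.of fun i j => B (v (f i)) (v (f j))).det) →
    ∀ x, x ≠ 0 → 0 < B x x

/-- Linear algebra, 2: signature (3, 1) from the minors. -/
def St_Lor : Prop :=
  ∀ (V : Type) [AddCommGroup V] [Module ℝ V] [FiniteDimensional ℝ V]
    (B : V →ₗ[ℝ] V →ₗ[ℝ] ℝ) (a b c d : V),
    Module.finrank ℝ V = 4 → (∀ x y, B x y = B y x) → LinearIndependent ℝ ![a, b, c, d] →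
    B a a = 2 → B b b = 2 → B c c = 2 → B d d = 2 →
    (∀ x ∈ ({a, b, c, d} : Set V), ∀ y ∈ ({a, b, c, d} : Set V), |B x y| ≤ 2) →
    (∀ x ∈ ({a, b, c, d} : Set V), ∀ y ∈ ({a, b, c, d} : Set V), ∀ z ∈ ({a, b, c, d} : Set V),
      B x y ^ 2 + B y z ^ 2 + B x z ^ 2 - B x y * B y z * B x z ≤ 4) →
    (Matrix.of fun i j => B (![a, b, c, d] i) (![a, b, c, d] j)).det < 0 →
    ∃ e, B e e < 0 ∧ ∀ x, B e x = 0 → x ≠ 0 → 0 < B x x

end Pool.Agent.H2R
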