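import Pool.Agent.H2R.FField

/-!
# From real spaces to complex spaces
-/

set_option autoImplicit false

namespace Pool.Agent.H2R

section transport

variable {K K' V V' : Type*} [Field K] [AddCommGroup V] [Module K V] [Field K'] [AddCommGroup V']
  [Module K' V'] {B : V →ₗ[K] V →ₗ[K] K} {B' : V' →ₗ[K'] V' →ₗ[K'] K'} {σ : K →+* K'}
  {Ψ : V →ₛₗ[σ] V'}

theorem F_s (h : ∀ x y, B' (Ψ x) (Ψ y) = σ (B x y)) (a x : V) :
    Ψ (s B a x) = s B' (Ψ a) (Ψ x) := by
  unfold s
  rw [map_sub, map_smulₛₗ, h]

theorem F_mv (h : ∀ x y, B' (Ψ x) (Ψ y) = σ (B x y)) {l l' : List V} (hl : Mv B l l') :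
    Mv B' (l.map Ψ) (l'.map Ψ) := by
  cases hl with
  | fwd l m a b =>
    rw [List.map_append, List.map_append, List.map_cons, List.map_cons, List.map_cons,
      List.map_cons, F_s h]
    exact Mv.fwd _ _ _ _
  | bwd l m a b =>
    rw [List.map_append, List.map_append, List.map_cons, List.map_cons, List.map_cons,
      List.map_cons, F_s h]
    exact Mv.bwd _ _ _ _

theorem F_reach (h : ∀ x y, B' (Ψ x) (Ψ y) = σ (B x y)) {l l' : List V} (hl : Reach B l l') :
    Reach B' (l.map Ψ) (l'.map Ψ) := by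
  induction hl with
  | refl => exact Relation.ReflTransGen.refl
  | tail _ h2 ih => exact ih.tail (F_mv h h2)

theorem F_mv_lift (h : ∀ x y, B' (Ψ x) (Ψ y) = σ (B x y)) {l : List V} {m : List V'}
    (hl : Mv B' (l.map Ψ) m) : ∃ l', m = l'.map Ψ ∧ Mv B l l' := by
  generalize hL : l.map Ψ = L at hl
  cases hl with
  | fwd p q a b =>
    obtain ⟨l₁, l₂, rfl, h1, h2⟩ := List.map_eq_append_iff.1 hL
    obtain ⟨a', l₃, rfl, h3, h4⟩ := List.map_eq_cons_iff.1 h2
    obtain ⟨b', l₄, rfl, h5, h6⟩ := List.map_eq_cons_iff.1 h4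
    refine ⟨l₁ ++ s B a' b' :: a' :: l₄, ?_, Mv.fwd _ _ _ _⟩
    rw [List.map_append, List.map_cons, List.map_cons, F_s h, h1, h3, h5, h6]
  | bwd p q a b =>
    obtain ⟨l₁, l₂, rfl, h1, h2⟩ := List.map_eq_append_iff.1 hL
    obtain ⟨a', l₃, rfl, h3, h4⟩ := List.map_eq_cons_iff.1 h2
    obtain ⟨b', l₄, rfl, h5, h6⟩ := List.map_eq_cons_iff.1 h4
    refine ⟨l₁ ++ b' :: s B b' a' :: l₄, ?_, Mv.bwd _ _ _ _⟩
    rw [List.map_append, List.map_cons, List.map_cons, F_s h, h1, h3, h5, h6]

theorem F_reach_lift (h : ∀ x y, B' (Ψ x) (Ψ y) = σ (B x y)) {l : List V} {m : List V'}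
    (hl : Reach B' (l.map Ψ) m) : ∃ l', m = l'.map Ψ ∧ Reach B l l' := by
  induction hl with
  | refl => exact ⟨l, rfl, Relation.ReflTransGen.refl⟩
  | tail _ h2 ih =>
    obtain ⟨l', rfl, h3⟩ := ih
    obtain ⟨l'', h4, h5⟩ := F_mv_lift h h2
    exact ⟨l'', h4, h3.tail h5⟩

end transport

/-- one of two different elements comes first -/
theorem F_pair {α : Type*} {l : List α} {a b : α} (ha : a ∈ l) (hb : b ∈ l) (hab : a ≠ b) :
    List.Sublist [a, b] l ∨ List.Sublist [b, a] l := by
  obtain ⟨l₁, l₂, rfl⟩ := List.append_of_mem ha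
  rcases List.mem_append.1 hb with h | h
  · right
    exact (List.singleton_sublist.2 h).append (List.singleton_sublist.2 List.mem_cons_self)
  · left
    rcases List.mem_cons.1 h with h | h
    · exact absurd h.symm hab
    · exact ((List.singleton_sublist.2 h).cons_cons a).trans (List.sublist_append_right _ _)

section forms

variable {k : Type} [Field k] {d : ℕ}

/-- the form with a given matrix -/
noncomputable def F_B (g : Matrix (Fin d) (Fin d) k) : (Fin d → k) →ₗ[k] (Fin d → k) →ₗ[k] k :=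
  Matrix.toLinearMap₂' k g

theorem F_B_apply (g : Matrix (Fin d) (Fin d) k) (x y : Fin d → k) :
    F_B g x y = ∑ i, ∑ j, x i * g i j * y j := by
  unfold F_B
  rw [Matrix.toLinearMap₂'_apply]
  refine Finset.sum_congr rfl fun i _ => Finset.sum_congr rfl fun j _ => ?_
  simp only [smul_eq_mul]
  ring

theorem F_B_single (g : Matrix (Fin d) (Fin d) k) (x : Fin d → k) (j : Fin d) :
    F_B g x (Pi.single j 1) = (Matrix.vecMul x g) j := by
  rw [F_B_apply, Matrix.vecMul, dotProduct]
  refine Finset.sum_congr rfl fun i _ => ?_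
  rw [Finset.sum_eq_single j]
  · rw [Pi.single_eq_same, mul_one]
  · intro b _ hb
    rw [Pi.single_eq_of_ne hb, mul_zero]
  · intro h
    exact absurd (Finset.mem_univ j) h

/-- the coordinatewise map -/
def F_co {k' : Type} [Field k'] (σ : k →+* k') : (Fin d → k) →ₛₗ[σ] (Fin d → k') where
  toFun x := fun i => σ (x i)
  map_add' x y := by
    funext i
    exact map_add σ _ _
  map_smul' c x := by
    funext i
    exact map_mul σ _ _

theorem F_co_B {k' : Type} [Field k'] (σ : k →+* k') (g : Matrix (Fin d) (Fin d) k)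
    (x y : Fin d → k) : F_B (g.map σ) (F_co σ x) (F_co σ y) = σ (F_B g x y) := by
  rw [F_B_apply, F_B_apply, map_sum]
  refine Finset.sum_congr rfl fun i _ => ?_
  rw [map_sum]
  refine Finset.sum_congr rfl fun j _ => ?_
  rw [map_mul, map_mul]
  rfl

/-- the linear combinations of vectors -/
noncomputable def F_lc {V : Type} [AddCommGroup V] [Module ℂ V] (ι : k →+* ℂ) (e : Fin d → V) :
    (Fin d → k) →ₛₗ[ι] V where
  toFun x := ∑ i, ι (x i) • e i
  map_add' x y := by
    rw [← Finset.sum_add_distrib]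
    refine Finset.sum_congr rfl fun i _ => ?_
    rw [Pi.add_apply, map_add, add_smul]
  map_smul' c x := by
    rw [Finset.smul_sum]
    refine Finset.sum_congr rfl fun i _ => ?_
    rw [Pi.smul_apply, smul_eq_mul, map_mul, mul_smul]

theorem F_lc_apply {V : Type} [AddCommGroup V] [Module ℂ V] (ι : k →+* ℂ) (e : Fin d → V)
    (x : Fin d → k) : F_lc ι e x = ∑ i, ι (x i) • e i := rfl

theorem F_lc_single {V : Type} [AddCommGroup V] [Module ℂ V] (ι : k →+* ℂ) (e : Fin d → V)
    (i : Fin d) : F_lc ι e (Pi.single i 1) = e i := by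
  rw [F_lc_apply, Finset.sum_eq_single i]
  · rw [Pi.single_eq_same, map_one, one_smul]
  · intro j _ hj
    rw [Pi.single_eq_of_ne hj, map_zero, zero_smul]
  · intro h
    exact absurd (Finset.mem_univ i) h

theorem F_lc_B {V : Type} [AddCommGroup V] [Module ℂ V] (ι : k →+* ℂ) (e : Fin d → V)
    (B : V →ₗ[ℂ] V →ₗ[ℂ] ℂ) (g : Matrix (Fin d) (Fin d) k) (hg : ∀ i j, ι (g i j) = B (e i) (e j))
    (x y : Fin d → k) : B (F_lc ι e x) (F_lc ι e y) = ι (F_B g x y) := by
  rw [F_B_apply, F_lc_apply, F_lc_apply, map_sum B, LinearMap.sum_apply, map_sum ι]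
  refine Finset.sum_congr rfl fun i _ => ?_
  rw [map_smul B, LinearMap.smul_apply, map_sum (B (e i)), map_sum ι, Finset.smul_sum]
  refine Finset.sum_congr rfl fun j _ => ?_
  rw [map_smul, map_mul, map_mul, hg]
  simp only [smul_eq_mul]
  ring

end forms

theorem F_s_norm {k V : Type*} [Field k] [AddCommGroup V] [Module k V] (B : V →ₗ[k] V →ₗ[k] k)
    (hB : ∀ x y, B x y = B y x) {a x : V} (ha : B a a = 2) : B (s B a x) (s B a x) = B x x := by
  unfold s
  simp only [map_sub, map_smul, LinearMap.sub_apply, LinearMap.smul_apply, smul_eq_mul, ha,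
    hB x a]
  ring_nf

/-- the orbit of the vectors -/
inductive F_orb {k V : Type*} [Field k] [AddCommGroup V] [Module k V] (B : V →ₗ[k] V →ₗ[k] k)
    (t : List V) : V → Prop
  | base (a : V) : a ∈ t → F_orb B t a
  | step (a x : V) : a ∈ t → F_orb B t x → F_orb B t (s B a x)

/-- Cauchy-Schwarz -/
theorem F_cs {V : Type*} [AddCommGroup V] [Module ℝ V] (B : V →ₗ[ℝ] V →ₗ[ℝ] ℝ)
    (hB : ∀ x y, B x y = B y x) (hpos : ∀ x, x ≠ 0 → 0 < B x x) {x y : V} (hx : B x x = 2)
    (hy : B y y = 2) : |B x y| ≤ 2 := by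
  have h0 : ∀ x, 0 ≤ B x x := by
    intro x
    by_cases h : x = 0
    · rw [h, map_zero]
    · exact (hpos x h).le
  have h1 := h0 (x - y)
  have h2 := h0 (x + y)
  simp only [map_sub, map_add, LinearMap.sub_apply, LinearMap.add_apply, hx, hy, hB y x] at h1 h2
  rw [abs_le]
  constructor <;> linarith

open Module in
theorem thm_F (hR : St_R) : St_F := by
  classical
  intro V _ _ _ B t M hV hB hnd hlen h2 hM hpair
  obtain ⟨k, _, ι, E, σ, hk, hkfin⟩ := F_field M hM
  -- pairings of elements of `t`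
  have hpt : ∀ a ∈ t, ∀ b ∈ t, ∃ ζ : ℂ, ζ ^ M = 1 ∧ B a b = ζ + ζ⁻¹ := by
    intro a ha b hb
    by_cases hab : a = b
    · subst hab
      exact ⟨1, one_pow M, by rw [h2 a ha, inv_one]; norm_num⟩
    · rcases F_pair ha hb hab with h | h
      · exact hpair t Relation.ReflTransGen.refl a b h
      · rw [hB a b]
        exact hpair t Relation.ReflTransGen.refl b a h
  have hptk : ∀ a ∈ t, ∀ b ∈ t, ∃ r : k, ι r = B a b ∧ IsIntegral ℤ r := by
    intro a ha b hb
    obtain ⟨ζ, h3, h4⟩ := hpt a ha b hb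
    obtain ⟨r, h5, h6, -⟩ := hk ζ h3
    exact ⟨r, by rw [h5, h4], h6⟩
  -- a basis of the span
  let W : Submodule ℂ V := Submodule.span ℂ {a | a ∈ t}
  obtain ⟨S, hSt, hSspan, hSli⟩ := exists_linearIndependent ℂ {a : V | a ∈ t}
  have hSfin : S.Finite := (List.finite_toSet t).subset hSt
  have : Fintype S := hSfin.fintype
  let d := Fintype.card S
  let eq : Fin d ≃ S := (Fintype.equivFin S).symm
  let e : Fin d → V := fun i => (eq i : V)
  have het : ∀ i, e i ∈ t := fun i => hSt (eq i).2
  have heli : LinearIndependent ℂ e := hSli.comp eq eq.injective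
  have hespan : Submodule.span ℂ (Set.range e) = W := by
    have h3 : Set.range e = S := by
      ext x
      constructor
      · rintro ⟨i, rfl⟩
        exact (eq i).2
      · intro hx
        exact ⟨eq.symm ⟨x, hx⟩, by simp [e]⟩
    rw [h3, hSspan]
  have hd : d ≤ 4 := by
    have := heli.fintype_card_le_finrank
    rw [Fintype.card_fin] at this
    exact this.trans hV
  choose gg hgg hggi using fun i j : Fin d => hptk (e i) (het i) (e j) (het j)
  let g : Matrix (Fin d) (Fin d) k := Matrix.of gg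
  have hg : ∀ i j, ι (g i j) = B (e i) (e j) := hgg
  have hgs : ∀ i j, g i j = g j i := by
    intro i j
    apply ι.injective
    rw [hg, hg, hB]
  have hBs : ∀ x y : Fin d → k, F_B g x y = F_B g y x := by
    intro x y
    rw [F_B_apply, F_B_apply, Finset.sum_comm]
    refine Finset.sum_congr rfl fun i _ => Finset.sum_congr rfl fun j _ => ?_
    rw [hgs]
    ring
  have hgdet : g.det ≠ 0 := by
    intro h0
    have h3 : (g.map ι).det = 0 := by
      have := (RingHom.map_det ι g).symm
      rw [h0, map_zero] at this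
      exact this
    obtain ⟨v, hv0, hv⟩ := Matrix.exists_vecMul_eq_zero_iff.2 h3
    apply hv0
    have h4 : ∑ i, v i • e i = 0 := by
      apply hnd
      · exact Submodule.sum_mem _ fun i _ => Submodule.smul_mem _ _ (Submodule.subset_span (het i))
      · intro y hy
        change y ∈ W at hy
        rw [← hespan] at hy
        induction hy using Submodule.span_induction with
        | mem y hy =>
          obtain ⟨j, rfl⟩ := hy
          have h5 := congrFun hv j
          rw [Matrix.vecMul, dotProduct] at h5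
          rw [map_sum B, LinearMap.sum_apply]
          refine Eq.trans ?_ h5
          refine Finset.sum_congr rfl fun i _ => ?_
          rw [map_smul B, LinearMap.smul_apply, smul_eq_mul, Matrix.map_apply, hg]
        | zero => rw [map_zero]
        | add a b _ _ ha hb => rw [map_add, ha, hb, add_zero]
        | smul c a _ ha => rw [map_smul, ha, smul_zero]
    funext i
    exact Fintype.linearIndependent_iff.1 heli v h4 i
  have hgu : IsUnit g.det := IsUnit.mk0 _ hgdet
  -- coordinates
  have hΨB := F_lc_B ι e B g hg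
  have hcoord : ∀ a ∈ t, ∃ x : Fin d → k, F_lc ι e x = a := by
    intro a ha
    choose b hb _ using fun j : Fin d => hptk a ha (e j) (het j)
    refine ⟨Matrix.vecMul b g⁻¹, ?_⟩
    have h3 : ∀ j, B (F_lc ι e (Matrix.vecMul b g⁻¹)) (e j) = B a (e j) := by
      intro j
      rw [← F_lc_single ι e j, hΨB, F_B_single, Matrix.vecMul_vecMul, Matrix.nonsing_inv_mul _ hgu,
        Matrix.vecMul_one, F_lc_single, hb]
    have h4 : F_lc ι e (Matrix.vecMul b g⁻¹) - a = 0 := by
      apply hnd
      · refine Submodule.sub_mem _ ?_ (Submodule.subset_span ha)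
        rw [F_lc_apply]
        exact Submodule.sum_mem _ fun i _ => Submodule.smul_mem _ _ (Submodule.subset_span (het i))
      · intro y hy
        change y ∈ W at hy
        rw [← hespan] at hy
        induction hy using Submodule.span_induction with
        | mem y hy =>
          obtain ⟨j, rfl⟩ := hy
          rw [map_sub B, LinearMap.sub_apply, h3, sub_self]
        | zero => rw [map_zero]
        | add a b _ _ ha hb => rw [map_add, ha, hb, add_zero]
        | smul c a _ ha => rw [map_smul, ha, smul_zero]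
    exact sub_eq_zero.1 h4
  choose! co hco using hcoord
  let tK : List (Fin d → k) := t.map co
  have htK : tK.map (F_lc ι e) = t := by
    show (t.map co).map (F_lc ι e) = t
    rw [List.map_map]
    conv_rhs => rw [← List.map_id t]
    exact List.map_congr_left fun a ha => hco a ha
  have hinj : Function.Injective (F_lc ι e : (Fin d → k) → V) := by
    intro x y hxy
    funext i
    apply ι.injective
    have h3 : ∑ i, (ι (x i) - ι (y i)) • e i = 0 := by
      rw [F_lc_apply, F_lc_apply] at hxy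
      simp only [sub_smul, Finset.sum_sub_distrib, hxy, sub_self]
    exact sub_eq_zero.1 (Fintype.linearIndependent_iff.1 heli _ h3 i)
  have hcoe : ∀ i, co (e i) = Pi.single i 1 := by
    intro i
    apply hinj
    rw [hco _ (het i), F_lc_single]
  have hstd : ∀ i, (Pi.single i 1 : Fin d → k) ∈ tK := fun i =>
    List.mem_map.2 ⟨e i, het i, hcoe i⟩
  have htK2 : ∀ a ∈ tK, F_B g a a = 2 := by
    intro a ha
    obtain ⟨b, hb, rfl⟩ := List.mem_map.1 ha
    apply ι.injective
    rw [← hΨB, hco b hb, h2 b hb, map_ofNat]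
  -- positivity at all places
  have hpos : ∀ φ : E, ∀ x : Fin d → ℝ, x ≠ 0 → 0 < F_B (g.map (σ φ)) x x := by
    intro φ
    have hco' := F_co_B (σ φ) g
    refine hR (Fin d → ℝ) (F_B (g.map (σ φ))) (tK.map (F_co (σ φ)))
      {f | ∃ ζ : ℂ, ζ ^ M = 1 ∧ (f : ℂ) = ζ + ζ⁻¹} ?_ ?_ ?_ ?_ ?_ ?_ ?_ ?_ ?_
    · rw [Module.finrank_fin_fun]
      exact hd
    · intro x y
      rw [F_B_apply, F_B_apply, Finset.sum_comm]
      refine Finset.sum_congr rfl fun i _ => Finset.sum_congr rfl fun j _ => ?_
      rw [Matrix.map_apply, Matrix.map_apply, hgs]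
      ring
    · intro x hx
      by_contra hx0
      have h3 : (g.map (σ φ)).det = 0 := by
        refine Matrix.exists_vecMul_eq_zero_iff.1 ⟨x, hx0, ?_⟩
        funext j
        rw [← F_B_single]
        exact hx _
      have h4 := RingHom.map_det (σ φ) g
      have h5 : (σ φ) g.det = 0 := h4.trans h3
      exact hgdet ((map_eq_zero _).1 h5)
    · rw [List.length_map, List.length_map]
      exact hlen
    · rw [eq_top_iff, ← (Pi.basisFun ℝ (Fin d)).span_eq, Submodule.span_le]
      rintro _ ⟨i, rfl⟩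
      apply Submodule.subset_span
      refine List.mem_map.2 ⟨Pi.single i 1, hstd i, ?_⟩
      rw [Pi.basisFun_apply]
      funext j
      show σ φ ((Pi.single i 1 : Fin d → k) j) = _
      by_cases hij : j = i
      · subst hij
        rw [Pi.single_eq_same, Pi.single_eq_same, map_one]
      · rw [Pi.single_eq_of_ne hij, Pi.single_eq_of_ne hij, map_zero]
    · intro a ha
      obtain ⟨b, hb, rfl⟩ := List.mem_map.1 ha
      rw [hco', htK2 b hb, map_ofNat]
    · have h3 : ({z : ℂ | z ^ M = 1} : Set ℂ).Finite := by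
        refine ((Polynomial.nthRoots M (1 : ℂ)).toFinset.finite_toSet).subset ?_
        intro z hz
        rw [Finset.mem_coe, Multiset.mem_toFinset, Polynomial.mem_nthRoots hM]
        exact hz
      refine Set.Finite.of_finite_image (f := fun x : ℝ => (x : ℂ))
        ((h3.image fun z => z + z⁻¹).subset ?_) (fun x _ y _ h => Complex.ofReal_injective h)
      rintro _ ⟨f, ⟨ζ, hζ, hf⟩, rfl⟩
      exact ⟨ζ, hζ, hf.symm⟩
    · rintro f ⟨ζ, hζ, hf⟩
      have h3 := F_le hM hζ
      rw [← hf, Complex.norm_real] at h3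
      exact h3
    · intro t' ht' a b hab
      obtain ⟨l', rfl, hl'⟩ := F_reach_lift hco' ht'
      obtain ⟨m, hm, hm2⟩ := List.sublist_map_iff.1 hab
      obtain ⟨x, m', rfl, hx, hm3⟩ := List.map_eq_cons_iff.1 hm2.symm
      obtain ⟨y, m'', rfl, hy, hm4⟩ := List.map_eq_cons_iff.1 hm3
      obtain rfl := List.map_eq_nil_iff.1 hm4
      have h3 : Reach B t (l'.map (F_lc ι e)) := by
        have := F_reach hΨB hl'
        rwa [htK] at this
      obtain ⟨ζ, hζ, h4⟩ := hpair _ h3 (F_lc ι e x) (F_lc ι e y) (hm.map (F_lc ι e))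
      obtain ⟨r, h5, -, h6⟩ := hk ζ hζ
      have h7 : F_B g x y = r := by
        apply ι.injective
        rw [← hΨB, h4, h5]
      obtain ⟨ξ, hξ, h8⟩ := h6 φ
      refine ⟨ξ, hξ, ?_⟩
      rw [← hx, ← hy, hco', h7]
      exact h8
  -- finiteness
  have horb2 : ∀ x, F_orb (F_B g) tK x → F_B g x x = 2 := by
    intro x hx
    induction hx with
    | base a ha => exact htK2 a ha
    | step a x ha _ ih => rw [F_s_norm _ hBs (htK2 a ha), ih]
  have htKi : ∀ a ∈ tK, ∀ b ∈ tK, IsIntegral ℤ (F_B g a b) := by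
    intro a ha b hb
    obtain ⟨a', ha', rfl⟩ := List.mem_map.1 ha
    obtain ⟨b', hb', rfl⟩ := List.mem_map.1 hb
    obtain ⟨r, h3, h4⟩ := hptk a' ha' b' hb'
    have h5 : F_B g (co a') (co b') = r := by
      apply ι.injective
      rw [← hΨB, hco a' ha', hco b' hb', h3]
    rw [h5]
    exact h4
  have horbi : ∀ x, F_orb (F_B g) tK x → ∀ b ∈ tK, IsIntegral ℤ (F_B g x b) := by
    intro x hx
    induction hx with
    | base a ha => exact htKi a ha
    | step a x ha _ ih =>
      intro b hb
      unfold s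
      rw [map_sub, map_smul, LinearMap.sub_apply, LinearMap.smul_apply, smul_eq_mul, hBs a x]
      exact ((ih a ha).mul (htKi a ha b hb)).sub (ih b hb)
  have hval : ∀ x, F_orb (F_B g) tK x → ∀ b ∈ tK,
      F_B g x b ∈ {z : k | IsIntegral ℤ z ∧ ∀ e, |σ e z| ≤ 2} := by
    intro x hx b hb
    refine ⟨horbi x hx b hb, fun φ => ?_⟩
    rw [← F_co_B]
    refine F_cs _ ?_ (hpos φ) ?_ ?_
    · intro x y
      rw [F_B_apply, F_B_apply, Finset.sum_comm]
      refine Finset.sum_congr rfl fun i _ => Finset.sum_congr rfl fun j _ => ?_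
      rw [Matrix.map_apply, Matrix.map_apply, hgs]
      ring
    · rw [F_co_B, horb2 x hx, map_ofNat]
    · rw [F_co_B, htK2 b hb, map_ofNat]
  have hPK : {x | F_orb (F_B g) tK x}.Finite := by
    refine Set.Finite.of_finite_image (f := fun (x : Fin d → k) (i : Fin d) =>
      F_B g x (Pi.single i 1)) ((Set.Finite.pi' fun _ : Fin d => hkfin 2).subset ?_) ?_
    · rintro _ ⟨x, hx, rfl⟩ i
      exact hval x hx _ (hstd i)
    · intro x _ y _ hxy
      have h3 : Matrix.vecMul x g = Matrix.vecMul y g := by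
        funext j
        have := congrFun hxy j
        simp only at this
        rwa [F_B_single, F_B_single] at this
      have h4 := congrArg (fun v => Matrix.vecMul v g⁻¹) h3
      simp only [Matrix.vecMul_vecMul, Matrix.mul_nonsing_inv _ hgu, Matrix.vecMul_one] at h4
      exact h4
  refine ⟨F_lc ι e '' {x | F_orb (F_B g) tK x}, hPK.image _, ?_, ?_⟩
  · intro a ha
    exact ⟨co a, F_orb.base _ (List.mem_map_of_mem ha), hco a ha⟩
  · rintro a ha _ ⟨x, hx, rfl⟩
    refine ⟨s (F_B g) (co a) x, F_orb.step _ _ (List.mem_map_of_mem ha) hx, ?_⟩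
    rw [F_s hΨB, hco a ha]

end Pool.Agent.H2R
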