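import Pool.Agent.H2R.Defs

/-!
# The real subfield of a cyclotomic field
-/

set_option autoImplicit false

namespace Pool.Agent.H2R

open Complex ComplexConjugate

theorem F_conj {M : ℕ} (hM : 0 < M) {ζ : ℂ} (h : ζ ^ M = 1) : conj (ζ + ζ⁻¹) = ζ + ζ⁻¹ := by
  have h1 : ‖ζ‖ = 1 := Complex.norm_eq_one_of_pow_eq_one h hM.ne'
  have h2 : ζ⁻¹ = conj ζ := Complex.inv_eq_conj h1
  rw [h2, map_add, Complex.conj_conj, add_comm]

theorem F_le {M : ℕ} (hM : 0 < M) {ζ : ℂ} (h : ζ ^ M = 1) : ‖ζ + ζ⁻¹‖ ≤ 2 := by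
  have h1 : ‖ζ‖ = 1 := Complex.norm_eq_one_of_pow_eq_one h hM.ne'
  refine (norm_add_le _ _).trans ?_
  rw [norm_inv, h1]
  norm_num

/-- the elements all of whose conjugates are real -/
def F_KR (K : Type) [Field K] : Subfield K where
  carrier := {k | ∀ φ : K →+* ℂ, conj (φ k) = φ k}
  mul_mem' := fun {a b} ha hb φ => by rw [map_mul, map_mul, ha φ, hb φ]
  one_mem' := fun φ => by rw [map_one, map_one]
  add_mem' := fun {a b} ha hb φ => by rw [map_add, map_add, ha φ, hb φ]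
  zero_mem' := fun φ => by rw [map_zero, map_zero]
  neg_mem' := fun {a} ha φ => by rw [map_neg, map_neg, ha φ]
  inv_mem' := fun a ha φ => by rw [map_inv₀, map_inv₀, ha φ]

theorem F_re {K : Type} [Field K] (φ : K →+* ℂ) (k : F_KR K) : ((φ k).re : ℂ) = φ k :=
  Complex.conj_eq_iff_re.1 (k.2 φ)

/-- the real embedding given by an embedding -/
def F_emb {K : Type} [Field K] (φ : K →+* ℂ) : F_KR K →+* ℝ where
  toFun k := (φ k).re
  map_one' := by
    simp
  map_mul' a b := by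
    apply Complex.ofReal_injective
    rw [Complex.ofReal_mul, F_re, F_re, F_re]
    simp
  map_zero' := by
    simp
  map_add' a b := by
    simp

theorem F_emb_coe {K : Type} [Field K] (φ : K →+* ℂ) (k : F_KR K) : ((F_emb φ k : ℝ) : ℂ) = φ k :=
  F_re φ k

/-- The field of the pairings. -/
theorem F_field (M : ℕ) (hM : 0 < M) : ∃ (k : Type) (_ : Field k) (ι : k →+* ℂ) (E : Type)
    (σ : E → k →+* ℝ),
    (∀ ζ : ℂ, ζ ^ M = 1 → ∃ r : k, ι r = ζ + ζ⁻¹ ∧ IsIntegral ℤ r ∧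
      ∀ e, ∃ ξ : ℂ, ξ ^ M = 1 ∧ ((σ e r : ℝ) : ℂ) = ξ + ξ⁻¹) ∧
    ∀ C : ℝ, {x : k | IsIntegral ℤ x ∧ ∀ e, |σ e x| ≤ C}.Finite := by
  have hfin : ({z : ℂ | z ^ M = 1} : Set ℂ).Finite := by
    classical
    refine ((Polynomial.nthRoots M (1 : ℂ)).toFinset.finite_toSet).subset ?_
    intro z hz
    rw [Finset.mem_coe, Multiset.mem_toFinset, Polynomial.mem_nthRoots hM]
    exact hz
  have : Finite ({z : ℂ | z ^ M = 1} : Set ℂ) := hfin
  let K : IntermediateField ℚ ℂ := IntermediateField.adjoin ℚ {z : ℂ | z ^ M = 1}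
  have hfd : FiniteDimensional ℚ K := IntermediateField.finiteDimensional_adjoin fun x hx =>
    IsIntegral.of_pow hM (by rw [show x ^ M = 1 from hx]; exact isIntegral_one)
  have hnf : NumberField K := ⟨⟩
  have hK : ∀ ζ : ℂ, ζ ^ M = 1 → ζ ∈ K := fun ζ hζ => IntermediateField.subset_adjoin ℚ _ hζ
  refine ⟨F_KR K, inferInstance, (algebraMap K ℂ).comp (F_KR K).subtype, K →+* ℂ,
    fun φ => F_emb φ, ?_, ?_⟩
  · intro ζ hζ
    let z : K := ⟨ζ, hK ζ hζ⟩
    have hz : z ^ M = 1 := Subtype.ext hζ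
    have hmem : z + z⁻¹ ∈ F_KR K := by
      intro φ
      rw [map_add, map_inv₀]
      exact F_conj hM (by rw [← map_pow, hz, map_one])
    refine ⟨⟨z + z⁻¹, hmem⟩, ?_, ?_, ?_⟩
    · show algebraMap K ℂ (z + z⁻¹) = ζ + ζ⁻¹
      rw [map_add, map_inv₀]
      rfl
    · have h1 : IsIntegral ℤ (z + z⁻¹) := by
        refine IsIntegral.add ?_ ?_
        · exact IsIntegral.of_pow hM (by rw [hz]; exact isIntegral_one)
        · exact IsIntegral.of_pow hM (by rw [inv_pow, hz, inv_one]; exact isIntegral_one)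
      obtain ⟨p, hp, hp'⟩ := h1
      refine ⟨p, hp, ?_⟩
      apply Subtype.val_injective
      have e : Polynomial.eval₂ (algebraMap ℤ K) (z + z⁻¹) p =
          (F_KR K).subtype (Polynomial.eval₂ (algebraMap ℤ (F_KR K)) ⟨z + z⁻¹, hmem⟩ p) := by
        rw [Polynomial.hom_eval₂]
        congr 1
      rw [hp'] at e
      exact e.symm
    · intro φ
      refine ⟨φ z, by rw [← map_pow, hz, map_one], ?_⟩
      rw [F_emb_coe]
      show φ (z + z⁻¹) = _
      rw [map_add, map_inv₀]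
  · intro C
    have h1 := NumberField.Embeddings.finite_of_norm_le K ℂ C
    refine Set.Finite.of_finite_image (f := fun x : F_KR K => (x : K)) (h1.subset ?_)
      (fun x _ y _ h => Subtype.val_injective h)
    rintro _ ⟨x, ⟨hx1, hx2⟩, rfl⟩
    refine ⟨?_, ?_⟩
    · exact hx1.map (F_KR K).subtype.toIntAlgHom
    · intro φ
      rw [← F_emb_coe φ x, Complex.norm_real, Real.norm_eq_abs]
      exact hx2 φ

end Pool.Agent.H2R
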