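import Pool.Agent.H2R.Defs

/-!
# H2R, module Lor: signature (3, 1) from the minors
-/

set_option autoImplicit false

open Module

namespace Pool.Agent.H2R

/-- a ternary form with diagonal `2` and nonnegative minors is positive semidefinite -/
theorem ternary_nonneg (p q r x y z : ℝ) (hp : |p| ≤ 2) (hr : |r| ≤ 2)
    (h : p ^ 2 + q ^ 2 + r ^ 2 - p * q * r ≤ 4) :
    0 ≤ 2 * x ^ 2 + 2 * y ^ 2 + 2 * z ^ 2 + 2 * p * (x * y) + 2 * q * (y * z) +
      2 * r * (x * z) := by
  have hA : 0 ≤ 4 - p ^ 2 := by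
    have := sq_le_sq' (by linarith [(abs_le.1 hp).1]) (abs_le.1 hp).2
    linarith
  have hC : 0 ≤ 4 - r ^ 2 := by
    have := sq_le_sq' (by linarith [(abs_le.1 hr).1]) (abs_le.1 hr).2
    linarith
  have hD : 0 ≤ (4 - p ^ 2) * (4 - r ^ 2) - (2 * q - p * r) ^ 2 := by nlinarith
  have key : 0 ≤ (4 - p ^ 2) * y ^ 2 + 2 * (2 * q - p * r) * (y * z) + (4 - r ^ 2) * z ^ 2 := by
    rcases hA.eq_or_lt with h0 | h0
    · rw [← h0, zero_mul, zero_sub] at hD
      have h1 : 2 * q - p * r = 0 := by
        have h2 : (2 * q - p * r) ^ 2 = 0 := le_antisymm (by linarith) (sq_nonneg _)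
        exact pow_eq_zero_iff (by norm_num) |>.1 h2
      rw [← h0, h1]
      have := mul_nonneg hC (sq_nonneg z)
      linarith
    · have h1 : 0 ≤ (4 - p ^ 2) * ((4 - p ^ 2) * y ^ 2 + 2 * (2 * q - p * r) * (y * z) +
          (4 - r ^ 2) * z ^ 2) := by
        have h2 : (4 - p ^ 2) * ((4 - p ^ 2) * y ^ 2 + 2 * (2 * q - p * r) * (y * z) +
          (4 - r ^ 2) * z ^ 2) = ((4 - p ^ 2) * y + (2 * q - p * r) * z) ^ 2 +
          ((4 - p ^ 2) * (4 - r ^ 2) - (2 * q - p * r) ^ 2) * z ^ 2 := by ring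
        rw [h2]
        exact add_nonneg (sq_nonneg _) (mul_nonneg hD (sq_nonneg _))
      exact nonneg_of_mul_nonneg_right h1 h0
  have h2 : 2 * (2 * x ^ 2 + 2 * y ^ 2 + 2 * z ^ 2 + 2 * p * (x * y) + 2 * q * (y * z) +
      2 * r * (x * z)) = (2 * x + p * y + r * z) ^ 2 +
      ((4 - p ^ 2) * y ^ 2 + 2 * (2 * q - p * r) * (y * z) + (4 - r ^ 2) * z ^ 2) := by ring
  have h3 := sq_nonneg (2 * x + p * y + r * z)
  linarith

/-- three vectors of norm two -/
theorem three_nonneg {V : Type} [AddCommGroup V] [Module ℝ V] (B : V →ₗ[ℝ] V →ₗ[ℝ] ℝ)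
    (hsym : ∀ x y, B x y = B y x) (u v w : V) (hu : B u u = 2) (hv : B v v = 2)
    (hw : B w w = 2) (huv : |B u v| ≤ 2) (huw : |B u w| ≤ 2)
    (h : B u v ^ 2 + B v w ^ 2 + B u w ^ 2 - B u v * B v w * B u w ≤ 4) (x y z : ℝ) :
    0 ≤ B (x • u + y • v + z • w) (x • u + y • v + z • w) := by
  have h1 := ternary_nonneg (B u v) (B v w) (B u w) x y z huv huw h
  have h2 : B (x • u + y • v + z • w) (x • u + y • v + z • w) =
      2 * x ^ 2 + 2 * y ^ 2 + 2 * z ^ 2 + 2 * B u v * (x * y) + 2 * B v w * (y * z) +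
      2 * B u w * (x * z) := by
    simp only [map_add, map_smul, LinearMap.add_apply, LinearMap.smul_apply, smul_eq_mul]
    rw [hsym v u, hsym w u, hsym w v, hu, hv, hw]
    ring
  rw [h2]
  exact h1

theorem lor : St_Lor := by
  intro V _ _ _ B a b c d hfin hsym hli ha hb hc hd habs h3 hdet
  set v : Fin 4 → V := ![a, b, c, d] with hv
  have hcard : Fintype.card (Fin 4) = finrank ℝ V := by rw [hfin, Fintype.card_fin]
  set bs := basisOfLinearIndependentOfCardEqFinrank hli hcard with hbs
  have hbv : ∀ i, bs i = v i := fun i =>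
    congrFun (coe_basisOfLinearIndependentOfCardEqFinrank hli hcard) i
  have hma : a ∈ ({a, b, c, d} : Set V) := by simp
  have hmb : b ∈ ({a, b, c, d} : Set V) := by simp
  have hmc : c ∈ ({a, b, c, d} : Set V) := by simp
  have hmd : d ∈ ({a, b, c, d} : Set V) := by simp
  have hex : ∀ x : V, x = (bs.repr x 0) • a + (bs.repr x 1) • b + (bs.repr x 2) • c +
      (bs.repr x 3) • d := by
    intro x
    conv_lhs => rw [← bs.sum_repr x]
    rw [Fin.sum_univ_four, hbv, hbv, hbv, hbv]
    rfl
  -- a negative vector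
  have hneg : ∃ e, B e e < 0 := by
    by_contra hno
    push Not at hno
    have hM : (Matrix.of fun i j => B (v i) (v j)).PosSemidef := by
      rw [Matrix.posSemidef_iff_dotProduct_mulVec]
      refine ⟨?_, fun x => ?_⟩
      · ext i j
        rw [Matrix.conjTranspose_apply, Matrix.of_apply, Matrix.of_apply, star_trivial]
        exact hsym _ _
      · have h1 := hno (∑ i, x i • v i)
        have h2 : B (∑ i, x i • v i) (∑ i, x i • v i) =
            star x ⬝ᵥ (Matrix.of fun i j => B (v i) (v j)).mulVec x := by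
          have hleft : ∀ y, B (∑ j, x j • v j) y = ∑ j, x j * B (v j) y := by
            intro y
            rw [map_sum, LinearMap.sum_apply]
            refine Finset.sum_congr rfl fun i _ => ?_
            rw [map_smul, LinearMap.smul_apply, smul_eq_mul]
          rw [star_trivial, hleft]
          unfold dotProduct
          refine Finset.sum_congr rfl fun i _ => ?_
          rw [map_sum]
          congr 1
          show _ = ∑ j, B (v i) (v j) * x j
          exact Finset.sum_congr rfl fun j _ => by rw [map_smul, smul_eq_mul, mul_comm]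
        rwa [h2] at h1
    have := hM.det_nonneg
    linarith
  obtain ⟨e, he⟩ := hneg
  refine ⟨e, he, fun x hex0 hx => ?_⟩
  by_contra hxx
  rw [not_lt] at hxx
  -- the value at `e - t x`
  have hval : ∀ t : ℝ, B (e - t • x) (e - t • x) < 0 := by
    intro t
    have h1 : B (e - t • x) (e - t • x) = B e e + t ^ 2 * B x x := by
      simp only [map_sub, map_smul, LinearMap.sub_apply, LinearMap.smul_apply, smul_eq_mul]
      rw [hsym x e, hex0]
      ring
    rw [h1]
    have := mul_nonneg (sq_nonneg t) (neg_nonneg.2 hxx)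
    linarith
  have hrepr : ∀ t : ℝ, ∀ i, bs.repr (e - t • x) i = bs.repr e i - t * bs.repr x i := by
    intro t i
    rw [map_sub, map_smul]
    rfl
  have hi : ∃ i, bs.repr x i ≠ 0 := by
    by_contra h
    push Not at h
    apply hx
    rw [hex x, h, h, h, h]
    simp
  obtain ⟨i, hi⟩ := hi
  set t := bs.repr e i / bs.repr x i with ht
  have h0 : bs.repr (e - t • x) i = 0 := by
    rw [hrepr, ht, div_mul_cancel₀ _ hi, sub_self]
  have h1 := hval t
  have hw := hex (e - t • x)
  set w := e - t • x with hwdef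
  apply absurd h1
  rw [not_lt]
  fin_cases i
  · have h0' : bs.repr w 0 = 0 := h0
    rw [hw, h0', zero_smul, zero_add]
    exact three_nonneg B hsym b c d hb hc hd (habs b hmb c hmc) (habs b hmb d hmd)
      (h3 b hmb c hmc d hmd) _ _ _
  · have h0' : bs.repr w 1 = 0 := h0
    rw [hw, h0', zero_smul, add_zero]
    exact three_nonneg B hsym a c d ha hc hd (habs a hma c hmc) (habs a hma d hmd)
      (h3 a hma c hmc d hmd) _ _ _
  · have h0' : bs.repr w 2 = 0 := h0
    rw [hw, h0', zero_smul, add_zero]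
    exact three_nonneg B hsym a b d ha hb hd (habs a hma b hmb) (habs a hma d hmd)
      (h3 a hma b hmb d hmd) _ _ _
  · have h0' : bs.repr w 3 = 0 := h0
    rw [hw, h0', zero_smul, add_zero]
    exact three_nonneg B hsym a b c ha hb hc (habs a hma b hmb) (habs a hma c hmc)
      (h3 a hma b hmb c hmc) _ _ _

end Pool.Agent.H2R
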