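import Pool.Agent.H2R.ME

/-!
# Rank two: the main theorem from the theorem on reflections
-/

set_option autoImplicit false

namespace Pool.Agent.H2R

open Matrix

variable {G : Type*} [Group G] {n : ℕ}

theorem root_eq {A : M2} {z : ℂ} (h : A.charpoly.IsRoot z) :
    z ^ 2 - A.trace * z + A.det = 0 := by
  rw [Polynomial.IsRoot, Matrix.eval_charpoly, Matrix.det_fin_two] at h
  rw [Matrix.det_fin_two, Matrix.trace_fin_two]
  simp only [Matrix.sub_apply, Matrix.scalar_apply, Matrix.diagonal_apply_eq, ne_eq, zero_ne_one,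
    one_ne_zero, not_false_eq_true, Matrix.diagonal_apply_ne] at h
  linear_combination h

/-- all eigenvalues are roots of unity if the determinant and one eigenvalue are -/
theorem quasi_of {A : M2} {l : ℂ} (hl : A.charpoly.IsRoot l) (hlu : RU l) (hd : RU A.det) :
    Quasi A := by
  intro z hz
  by_cases h : z = l
  · rw [h]
    exact hlu
  · have h1 := root_eq hz
    have h2 := root_eq hl
    have h3 : (z - l) * (z + l - A.trace) = 0 := by linear_combination h1 - h2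
    have h4 := (mul_eq_zero.1 h3).resolve_left (sub_ne_zero.2 h)
    have h5 : z = A.det * l⁻¹ := by
      rw [eq_mul_inv_iff_mul_eq₀ hlu.ne_zero]
      linear_combination l * h4 - h2
    rw [h5]
    exact hd.mul hlu.inv

/-- the eigenvalues on a common eigenvector are roots of unity -/
theorem eig_RU (c : Fin n → G) (ρ : G →* GL (Fin 2) ℂ) (hc : Subgroup.closure (Set.range c) = ⊤)
    (hq : ∀ i, Quasi (ρ (c i) : M2)) {v : Fin 2 → ℂ} (hv : v ≠ 0)
    (h : ∀ x, EigV v (ρ x : M2)) (x : G) : ∃ l, RU l ∧ (ρ x : M2) *ᵥ v = l • v := by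
  have hx : x ∈ Subgroup.closure (Set.range c) := by rw [hc]; exact Subgroup.mem_top x
  induction hx using Subgroup.closure_induction with
  | mem y hy =>
    obtain ⟨i, rfl⟩ := hy
    obtain ⟨l, hl⟩ := h (c i)
    exact ⟨l, hq i l (isRoot_of_eigV hv hl), hl⟩
  | one => exact ⟨1, RU.one, by rw [map_one, Units.val_one, Matrix.one_mulVec, one_smul]⟩
  | mul y z _ _ hy hz =>
    obtain ⟨l, hl, hly⟩ := hy
    obtain ⟨m, hm, hmz⟩ := hz
    refine ⟨m * l, hm.mul hl, ?_⟩
    rw [map_mul, Units.val_mul, ← Matrix.mulVec_mulVec, hmz, Matrix.mulVec_smul, hly, smul_smul]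
  | inv y _ hy =>
    obtain ⟨l, hl, hly⟩ := hy
    refine ⟨l⁻¹, hl.inv, ?_⟩
    rw [eq_inv_smul_iff₀ hl.ne_zero, ← Matrix.mulVec_smul, ← hly, Matrix.mulVec_mulVec,
      ← Units.val_mul, ← map_mul, inv_mul_cancel, map_one, Units.val_one, Matrix.one_mulVec]

theorem pow_mulVec {A : M2} {v : Fin 2 → ℂ} {l : ℂ} (h : A *ᵥ v = l • v) (k : ℕ) :
    (A ^ k) *ᵥ v = l ^ k • v := by
  induction k with
  | zero => rw [pow_zero, pow_zero, Matrix.one_mulVec, one_smul]
  | succ k ih => rw [pow_succ, ← Matrix.mulVec_mulVec, h, Matrix.mulVec_smul, ih, smul_smul, pow_succ,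
      mul_comm l]

/-- the completely reducible case with a common eigenvector -/
theorem finOrder_of_cred (ρ : G →* GL (Fin 2) ℂ) {v : Fin 2 → ℂ} (hv : v ≠ 0)
    (h : ∀ x, EigV v (ρ x : M2)) (hq : ∀ x, Quasi (ρ x : M2)) (hcr : CRed ρ) (x : G) :
    IsOfFinOrder (ρ x) := by
  obtain ⟨W, hW, hcompl⟩ := hcr (Submodule.span ℂ {v}) (by
    intro x w hw
    obtain ⟨a, rfl⟩ := Submodule.mem_span_singleton.1 hw
    obtain ⟨l, hl⟩ := h x
    rw [Matrix.mulVec_smul, hl]
    exact Submodule.smul_mem _ _ (Submodule.smul_mem _ _ (Submodule.mem_span_singleton_self v)))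
  have hW1 : Module.finrank ℂ W = 1 := by
    have h1 := Submodule.finrank_add_eq_of_isCompl hcompl
    rw [finrank_span_singleton hv, Module.finrank_fin_fun] at h1
    omega
  obtain ⟨w, hw0, hw⟩ := finrank_eq_one_iff'.1 hW1
  have hw0' : (w : Fin 2 → ℂ) ≠ 0 := fun h0 => hw0 (Subtype.ext h0)
  obtain ⟨l, hl⟩ := h x
  obtain ⟨m, hm⟩ := hw ⟨(ρ x : M2) *ᵥ w, hW x w w.2⟩
  have hm' : (ρ x : M2) *ᵥ (w : Fin 2 → ℂ) = m • (w : Fin 2 → ℂ) :=
    (congrArg Subtype.val hm).symm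
  obtain ⟨k, hk, hlk⟩ := hq x l (isRoot_of_eigV hv hl)
  obtain ⟨j, hj, hmj⟩ := hq x m (isRoot_of_eigV hw0' hm')
  refine isOfFinOrder_iff_pow_eq_one.2 ⟨k * j, Nat.mul_pos hk hj, ?_⟩
  apply Units.ext
  rw [Units.val_pow_eq_pow_val, Units.val_one]
  have h1 : ((ρ x : M2) ^ (k * j)) *ᵥ v = v := by
    rw [pow_mulVec hl, pow_mul, hlk, one_pow, one_smul]
  have h2 : ((ρ x : M2) ^ (k * j)) *ᵥ (w : Fin 2 → ℂ) = w := by
    rw [pow_mulVec hm', mul_comm k j, pow_mul, hmj, one_pow, one_smul]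
  apply Matrix.ext_of_mulVec_single
  intro i
  rw [Matrix.one_mulVec]
  have h3 : Pi.single i (1 : ℂ) ∈ Submodule.span ℂ {v} ⊔ W := by
    rw [hcompl.sup_eq_top]
    exact Submodule.mem_top
  obtain ⟨y, hy, z, hz, hyz⟩ := Submodule.mem_sup.1 h3
  obtain ⟨a, rfl⟩ := Submodule.mem_span_singleton.1 hy
  obtain ⟨b, hb⟩ := hw ⟨z, hz⟩
  have hb' : z = b • (w : Fin 2 → ℂ) := (congrArg Subtype.val hb).symm
  rw [← hyz, hb', Matrix.mulVec_add, Matrix.mulVec_smul, Matrix.mulVec_smul, h1, h2]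

/-- all traces of all twists by automorphisms are in a finite set -/
theorem finite_orbit_of_quasi (c : Fin n → G) (ρ : G →* GL (Fin 2) ℂ)
    (hc : Subgroup.closure (Set.range c) = ⊤) (hq : ∀ x, Quasi (ρ x : M2)) :
    {χ : G → ℂ | ∃ φ : G ≃* G, χ = fun x => (ρ (φ x) : M2).trace}.Finite := by
  obtain ⟨N, hN, h⟩ := PWT.exists_order c hc ρ
  have hroot : {z : ℂ | z ^ N = 1}.Finite := PWT.finite_roots hN
  let θ : (G ≃* G) → G →* GL (Fin 2) ℂ := fun φ => ρ.comp φ.toMonoidHom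
  have hT : ∀ x : G, (Set.range (PWT.Tr θ x)).Finite := by
    intro x
    refine (hroot.image2 (· + ·) hroot).subset ?_
    rintro _ ⟨φ, rfl⟩
    obtain ⟨z, w, hz, hw, ht, -⟩ := PWT.exists_eigenvalues (ρ (φ x) : M2)
    exact ⟨z, h _ z hz (hq _ z hz), w, h _ w hw (hq _ w hw), ht.symm⟩
  exact PWT.finite_char θ c hc hT

/-- **The main theorem** from the theorem on reflections. -/
theorem thm_Main (hF : St_F) : St_Main := by
  intro G _ n c ρ hn hc hv
  have hq0 : ∀ i, Quasi (ρ (c i) : M2) := fun i => hv _ ⟨c, Twisted.refl, i, rfl⟩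
  have hfg : (MonoidHom.range ρ).FG := by
    rw [Subgroup.fg_iff]
    refine ⟨ρ '' Set.range c, ?_, (Set.finite_range c).image _⟩
    rw [← MonoidHom.map_closure, hc, MonoidHom.range_eq_map]
  have hfin : (∀ x, IsOfFinOrder (ρ x)) → Finite ρ.range := by
    intro h
    refine Helper12.Sc.fg_torsion_finite 2 ρ.range hfg ?_
    rintro _ ⟨x, rfl⟩
    exact h x
  have key : (∀ x, Quasi (ρ x : M2)) ∧ (CRed ρ → Finite ρ.range) := by
    by_cases h : ∃ v : Fin 2 → ℂ, v ≠ 0 ∧ ∀ x, EigV v (ρ x : M2)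
    · obtain ⟨v, hv0, hve⟩ := h
      have hq : ∀ x, Quasi (ρ x : M2) := by
        intro x
        obtain ⟨l, hl, hlx⟩ := eig_RU c ρ hc hq0 hv0 hve x
        exact quasi_of (isRoot_of_eigV hv0 hlx) hl (det_RU c ρ hc hq0 x)
      exact ⟨hq, fun hcr => hfin fun x => finOrder_of_cred ρ hv0 hve hq hcr x⟩
    · have h1 := irreducible_case hF c ρ hn hc hv h
      refine ⟨fun x z hz => ?_, fun _ => hfin h1⟩
      obtain ⟨k, hk, hkx⟩ := isOfFinOrder_iff_pow_eq_one.1 (h1 x)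
      have h2 := Helper12.Sc.isRoot_pow hz k
      rw [← Units.val_pow_eq_pow_val, hkx, Units.val_one] at h2
      refine ⟨k, hk, ?_⟩
      have h3 := root_eq h2
      rw [Matrix.trace_one, Matrix.det_one, Fintype.card_fin] at h3
      have h4 : (z ^ k - 1) ^ 2 = 0 := by
        push_cast at h3
        linear_combination h3
      exact sub_eq_zero.1 (pow_eq_zero_iff two_ne_zero |>.1 h4)
  exact ⟨key.1, finite_orbit_of_quasi c ρ hc key.1, key.2⟩

end Pool.Agent.H2R
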