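import Pool.Agent.H2R.Defs

/-!
# H2R, module Pos: a nondegenerate form with nonnegative principal minors is positive
-/

set_option autoImplicit false

open Module

namespace Pool.Agent.H2R

/-- a symmetric matrix with nonnegative principal minors is positive semidefinite -/
theorem psd_of_minors {n : Type} [Fintype n] [DecidableEq n] (M : Matrix n n ℝ)
    (hM : M.IsHermitian)
    (h : ∀ s : Finset n, 0 ≤ (M.submatrix (Subtype.val : s → n) (Subtype.val : s → n)).det) :
    M.PosSemidef := by
  rw [hM.posSemidef_iff_eigenvalues_nonneg]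
  intro i
  by_contra hi
  rw [Pi.zero_apply, not_le] at hi
  set l := hM.eigenvalues i with hl
  have h0 : M.charpoly.eval l = 0 := by
    rw [hM.charpoly_eq, Polynomial.eval_prod]
    refine Finset.prod_eq_zero (Finset.mem_univ i) ?_
    simp [hl]
  rw [Polynomial.eval_eq_sum_range, M.charpoly_natDegree_eq_dim] at h0
  have h1 : ∀ j ∈ Finset.range (Fintype.card n + 1),
      (-1) ^ (Fintype.card n) * (M.charpoly.coeff j * l ^ j) =
      (-l) ^ j * ∑ s ∈ Finset.univ.powersetCard (Fintype.card n - j),
      (M.submatrix (Subtype.val : s → n) (Subtype.val : s → n)).det := by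
    intro j hj
    rw [Finset.mem_range, Nat.lt_succ_iff] at hj
    have h2 := M.charpoly_coeff_eq_sum_minors (Fintype.card n - j) (Nat.sub_le _ _)
    rw [Nat.sub_sub_self hj] at h2
    rw [h2]
    have h3 : ((-1 : ℝ) ^ (Fintype.card n)) * (-1) ^ (Fintype.card n - j) = (-1) ^ j := by
      rw [← pow_add]
      have h4 : Fintype.card n + (Fintype.card n - j) = j + 2 * (Fintype.card n - j) := by omega
      rw [h4, pow_add, pow_mul]
      norm_num
    rw [neg_pow l j, ← h3]
    ring
  have h2 : (-1) ^ (Fintype.card n) * ∑ j ∈ Finset.range (Fintype.card n + 1),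
      M.charpoly.coeff j * l ^ j = 0 := by
    rw [h0, mul_zero]
  rw [Finset.mul_sum, Finset.sum_congr rfl h1, Finset.sum_range_succ, Nat.sub_self,
    Finset.powersetCard_zero, Finset.sum_singleton] at h2
  have h3 : 0 ≤ ∑ j ∈ Finset.range (Fintype.card n),
      (-l) ^ j * ∑ s ∈ Finset.univ.powersetCard (Fintype.card n - j),
      (M.submatrix (Subtype.val : s → n) (Subtype.val : s → n)).det := by
    refine Finset.sum_nonneg fun j _ => mul_nonneg (pow_nonneg (by linarith) _)
      (Finset.sum_nonneg fun s _ => h s)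
  have h4 : 0 < (-l) ^ (Fintype.card n) := pow_pos (by linarith) _
  rw [Matrix.det_isEmpty, mul_one] at h2
  linarith

theorem pos : St_Pos := by
  intro V _ _ _ B N v hfin hsym hnd hspan hmin x hx
  obtain ⟨κ, a, ha, hsp, hli⟩ := exists_linearIndependent' ℝ v
  rw [hspan] at hsp
  have : Finite κ := hli.finite
  have : Fintype κ := Fintype.ofFinite κ
  let _ : LinearOrder κ := LinearOrder.lift' a ha
  have hcard : Fintype.card κ = finrank ℝ V := by
    have h1 := Module.finrank_eq_card_basis (Basis.mk hli (by rw [hsp]))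
    exact h1.symm
  set b := Basis.mk hli (by rw [hsp]) with hb
  have hb' : ∀ i, b i = v (a i) := fun i => by
    rw [hb, Basis.mk_apply]
    rfl
  set M : Matrix κ κ ℝ := Matrix.of fun i j => B (v (a i)) (v (a j)) with hMdef
  have hM : M.IsHermitian := by
    ext i j
    rw [Matrix.conjTranspose_apply, hMdef, Matrix.of_apply, Matrix.of_apply, star_trivial]
    exact hsym _ _
  have hpsd : M.PosSemidef := by
    refine psd_of_minors M hM fun s => ?_
    have hs : s.card ≤ 4 := by
      have := Finset.card_le_univ s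
      omega
    set e := s.orderIsoOfFin rfl with he
    have h1 := hmin s.card (fun i => a (e i)) hs (fun i j hij => by
      have h2 : ((e i : s) : κ) < ((e j : s) : κ) := e.strictMono hij
      exact h2)
    rw [← Matrix.det_submatrix_equiv_self e.toEquiv]
    exact h1
  have hBx : ∀ c : κ → ℝ, ∀ i, B (b i) (∑ j, c j • b j) = M.mulVec c i := by
    intro c i
    rw [map_sum]
    show _ = ∑ j, M i j * c j
    refine Finset.sum_congr rfl fun j _ => ?_
    rw [map_smul, smul_eq_mul, mul_comm, hb', hb']
    rfl
  set c : κ → ℝ := fun i => b.repr x i with hc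
  have hxc : x = ∑ j, c j • b j := (b.sum_repr x).symm
  have hleft : ∀ y, B (∑ j, c j • b j) y = ∑ j, c j * B (b j) y := by
    intro y
    rw [map_sum, LinearMap.sum_apply]
    refine Finset.sum_congr rfl fun i _ => ?_
    rw [map_smul, LinearMap.smul_apply, smul_eq_mul]
  have h1 : B x x = c ⬝ᵥ (M.mulVec c) := by
    conv_lhs => rw [hxc]
    rw [hleft]
    unfold dotProduct
    exact Finset.sum_congr rfl fun i _ => by rw [hBx]
  have h2 : 0 ≤ B x x := by
    rw [h1]
    have := hpsd.dotProduct_mulVec_nonneg c
    rwa [star_trivial] at this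
  refine lt_of_le_of_ne h2 fun h3 => hx ?_
  have h4 : M.mulVec c = 0 := by
    rw [← hpsd.dotProduct_mulVec_zero_iff, star_trivial, ← h1, ← h3]
  refine hnd x fun y => ?_
  rw [hsym, ← b.sum_repr y, map_sum, LinearMap.sum_apply]
  refine Finset.sum_eq_zero fun i _ => ?_
  rw [map_smul, LinearMap.smul_apply]
  have h5 : B (b i) x = 0 := by
    rw [hxc, hBx, h4]
    rfl
  rw [h5, smul_zero]

end Pool.Agent.H2R
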