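import Pool.Agent.H2R.R
import Pool.Agent.H2R.Pos
import Pool.Agent.H2R.Lor
import Pool.Agent.H2R.F
import Pool.Agent.H2R.Main

/-!
# The main theorem
-/

set_option autoImplicit false

namespace Pool.Agent.H2R

theorem main : St_Main := thm_Main (thm_F (thm_R pos lor))

end Pool.Agent.H2R
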