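import Pool.Agent.H2R.Lists

/-!
# Three vectors

If the pairings of all triples in the Hurwitz orbit of three vectors lie in a finite subset of
`[-2, 2]` then the Gram determinant is not negative.
-/

set_option autoImplicit false
set_option linter.unusedSimpArgs false

namespace Pool.Agent.H2R

/-- the inequality at a maximal triple -/
theorem ineq_aux {a b c : ℝ} (ha : 0 ≤ a) (hb : 0 ≤ b) (hc : 0 ≤ c) (ha2 : a ≤ 2) (hb2 : b ≤ 2)
    (hc2 : c ≤ 2) (hab : a ≤ b) (h1 : a * b ≤ 2 * c) (h2 : b * c ≤ 2 * a) :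
    a ^ 2 + b ^ 2 + c ^ 2 - a * b * c ≤ 4 := by
  rcases hb.eq_or_lt with rfl | hb0
  · have : a = 0 := le_antisymm hab ha
    subst this
    nlinarith
  · have k1 : 0 ≤ b * (2 * c - a * b) := mul_nonneg hb (by linarith)
    have k2 : b * (2 * c - a * b) ≤ a * (4 - b ^ 2) := by nlinarith
    have k3 : 0 ≤ 4 - b ^ 2 := by nlinarith
    have k4 : (b * (2 * c - a * b)) ^ 2 ≤ (a * (4 - b ^ 2)) ^ 2 := pow_le_pow_left₀ k1 k2 2
    have k5 : a ^ 2 ≤ b ^ 2 := pow_le_pow_left₀ ha hab 2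
    have k6 : a ^ 2 * (4 - b ^ 2) ≤ b ^ 2 * (4 - a ^ 2) := by nlinarith
    have k7 : a ^ 2 * (4 - b ^ 2) * (4 - b ^ 2) ≤ b ^ 2 * (4 - a ^ 2) * (4 - b ^ 2) :=
      mul_le_mul_of_nonneg_right k6 k3
    have k8 : b ^ 2 * (4 * (a ^ 2 + b ^ 2 + c ^ 2 - a * b * c)) ≤ b ^ 2 * 16 := by nlinarith
    have k9 := le_of_mul_le_mul_left k8 (by positivity)
    linarith

theorem ineq {x y z : ℝ} (hx : |x| ≤ 2) (hy : |y| ≤ 2) (hz : |z| ≤ 2) (h1 : |x * z - y| ≤ |y|)
    (h2 : |x * y - z| ≤ |z|) (h3 : |y * z - x| ≤ |x|) :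
    x ^ 2 + y ^ 2 + z ^ 2 - x * y * z ≤ 4 := by
  have e1 : (x * z) ^ 2 ≤ 2 * (x * y * z) := by
    have h := sq_le_sq.2 h1
    nlinarith
  have e2 : (x * y) ^ 2 ≤ 2 * (x * y * z) := by
    have h := sq_le_sq.2 h2
    nlinarith
  have e3 : (y * z) ^ 2 ≤ 2 * (x * y * z) := by
    have h := sq_le_sq.2 h3
    nlinarith
  have hp : 0 ≤ x * y * z := by nlinarith [sq_nonneg (x * z)]
  have habs : |x| * |y| * |z| = x * y * z := by
    rw [← abs_mul, ← abs_mul, abs_of_nonneg hp]
  have key : ∀ u v w : ℝ, 0 ≤ u → 0 ≤ v → (u * v) ^ 2 ≤ 2 * (u * v * w) → u * v ≤ 2 * w ∨ u * v = 0 := by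
    intro u v w hu hv h
    rcases (mul_nonneg hu hv).eq_or_lt with h0 | h0
    · exact Or.inr h0.symm
    · left
      have : u * v * (u * v) ≤ u * v * (2 * w) := by nlinarith
      exact le_of_mul_le_mul_left this h0
  have ax := abs_nonneg x
  have ay := abs_nonneg y
  have az := abs_nonneg z
  have f1 : |x| * |y| ≤ 2 * |z| := by
    rcases key |x| |y| |z| ax ay (by rw [habs, ← abs_mul, sq_abs]; exact e2) with h | h
    · exact h
    · rw [h]; positivity
  have f2 : |y| * |z| ≤ 2 * |x| := by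
    rcases key |y| |z| |x| ay az (by
      rw [show |y| * |z| * |x| = |x| * |y| * |z| by ring, habs, ← abs_mul, sq_abs]
      exact e3) with h | h
    · exact h
    · rw [h]; positivity
  have f3 : |x| * |z| ≤ 2 * |y| := by
    rcases key |x| |z| |y| ax az (by
      rw [show |x| * |z| * |y| = |x| * |y| * |z| by ring, habs, ← abs_mul, sq_abs]
      exact e1) with h | h
    · exact h
    · rw [h]; positivity
  have goal : |x| ^ 2 + |y| ^ 2 + |z| ^ 2 - |x| * |y| * |z| ≤ 4 := by
    rcases le_total |x| |y| with h | h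
    · exact ineq_aux ax ay az hx hy hz h f1 f2
    · have := ineq_aux ay ax az hy hx hz h (by linarith [mul_comm |x| |y|]) f3
      linarith [mul_comm |x| |y|, mul_comm (|y| * |x|) |z|]
  rw [habs, sq_abs, sq_abs, sq_abs] at goal
  exact goal

variable {V : Type*} [AddCommGroup V] [Module ℝ V] {B : V →ₗ[ℝ] V →ₗ[ℝ] ℝ}

/-- the cubic invariant -/
def D3 (B : V →ₗ[ℝ] V →ₗ[ℝ] ℝ) : List V → ℝ
  | [a, b, c] => B a b ^ 2 + B b c ^ 2 + B a c ^ 2 - B a b * B b c * B a c
  | _ => 0

/-- the sum of the absolute values of the pairings -/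
def S3 (B : V →ₗ[ℝ] V →ₗ[ℝ] ℝ) : List V → ℝ
  | [a, b, c] => |B a b| + |B b c| + |B a c|
  | _ => 0

theorem D3_mv (hs : ∀ x y, B x y = B y x) {l m : List V} (h : Mv B l m) (hl : l.length = 3)
    (hn : ∀ a ∈ l, B a a = 2) : D3 B m = D3 B l := by
  cases h with
  | fwd l m a b =>
    match l, m with
    | [], [] => simp at hl
    | [], [c] =>
      have ha : B a a = 2 := hn a (by simp)
      show _ ^ 2 + _ ^ 2 + _ ^ 2 - _ * _ * _ = _ ^ 2 + _ ^ 2 + _ ^ 2 - _ * _ * _
      simp only [s_def, map_sub, map_smul, LinearMap.sub_apply, LinearMap.smul_apply, ha,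
        smul_eq_mul]
      rw [hs b a]
      ring
    | [], _ :: _ :: _ => simp at hl
    | [p], [] =>
      have ha : B a a = 2 := hn a (by simp)
      show _ ^ 2 + _ ^ 2 + _ ^ 2 - _ * _ * _ = _ ^ 2 + _ ^ 2 + _ ^ 2 - _ * _ * _
      simp only [s_def, map_sub, map_smul, LinearMap.sub_apply, LinearMap.smul_apply, ha,
        smul_eq_mul]
      rw [hs b a]
      ring
    | [p], _ :: _ => simp at hl
    | _ :: _ :: _, _ =>
      simp at hl
      omega
  | bwd l m a b =>
    match l, m with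
    | [], [] => simp at hl
    | [], [c] =>
      have hb : B b b = 2 := hn b (by simp)
      show _ ^ 2 + _ ^ 2 + _ ^ 2 - _ * _ * _ = _ ^ 2 + _ ^ 2 + _ ^ 2 - _ * _ * _
      simp only [s_def, map_sub, map_smul, LinearMap.sub_apply, LinearMap.smul_apply, hb,
        smul_eq_mul]
      rw [hs b a]
      ring
    | [], _ :: _ :: _ => simp at hl
    | [p], [] =>
      have hb : B b b = 2 := hn b (by simp)
      show _ ^ 2 + _ ^ 2 + _ ^ 2 - _ * _ * _ = _ ^ 2 + _ ^ 2 + _ ^ 2 - _ * _ * _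
      simp only [s_def, map_sub, map_smul, LinearMap.sub_apply, LinearMap.smul_apply, hb,
        smul_eq_mul]
      rw [hs b a]
      ring
    | [p], _ :: _ => simp at hl
    | _ :: _ :: _, _ =>
      simp at hl
      omega

theorem D3_reach (hs : ∀ x y, B x y = B y x) {l m : List V} (h : Reach B l m)
    (hl : l.length = 3) (hn : ∀ a ∈ l, B a a = 2) : D3 B m = D3 B l := by
  induction h with
  | refl => rfl
  | tail h1 h2 ih =>
    have h1' : Reach B _ _ := h1
    rw [D3_mv hs h2 (h1'.length_eq ▸ hl) (h1'.norm hs hn), ih]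

/-- Three vectors. -/
theorem three (hs : ∀ x y, B x y = B y x) {t : List V} (hn : ∀ a ∈ t, B a a = 2) {F : Set ℝ}
    (hF : F.Finite) (hF2 : ∀ f ∈ F, |f| ≤ 2)
    (hpair : ∀ t', Reach B t t' → ∀ a b, List.Sublist [a, b] t' → B a b ∈ F) {a b c : V}
    (h : Adm B t [a, b, c]) :
    B a b ^ 2 + B b c ^ 2 + B a c ^ 2 - B a b * B b c * B a c ≤ 4 := by
  have hnl := h.norm hs hn
  have hp : ∀ l, Reach B [a, b, c] l → ∀ x y, List.Sublist [x, y] l → B x y ∈ F :=
    fun l hl x y hxy => (h.reach hl).pair hpair hxy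
  -- the values of the sum
  have hfin : ((fun l => S3 B l) '' {l | Reach B [a, b, c] l}).Finite := by
    have h1 : (Set.image2 (fun (p : ℝ × ℝ) (r : ℝ) => |p.1| + |p.2| + |r|) (F ×ˢ F) F).Finite :=
      (hF.prod hF).image2 _ hF
    refine h1.subset ?_
    rintro _ ⟨l, hl, rfl⟩
    have hl' : Reach B [a, b, c] l := hl
    have hlen := hl'.length_eq
    match l, hlen with
    | [x, y, z], _ =>
      exact ⟨(B x y, B y z), ⟨hp _ hl' x y (by simp), hp _ hl' y z (by simp)⟩, B x z,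
        hp _ hl' x z (by simp), rfl⟩
  have hne : ((fun l => S3 B l) '' {l | Reach B [a, b, c] l}).Nonempty :=
    ⟨_, [a, b, c], Reach.refl _, rfl⟩
  obtain ⟨M, ⟨l, hl, rfl⟩, hmax⟩ := hfin.exists_maximal hne
  have hmax' : ∀ l', Reach B [a, b, c] l' → S3 B l' ≤ S3 B l := by
    intro l' hl'
    rcases le_total (S3 B l') (S3 B l) with h1 | h1
    · exact h1
    · exact hmax ⟨l', hl', rfl⟩ h1
  have hl' : Reach B [a, b, c] l := hl
  have hD := D3_reach hs hl' rfl hnl
  have hnl' := hl'.norm hs hnl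
  have hlen := hl'.length_eq
  match l, hlen with
  | [p, q, r], _ =>
    have np : B p p = 2 := hnl' p (by simp)
    have nq : B q q = 2 := hnl' q (by simp)
    have nr : B r r = 2 := hnl' r (by simp)
    have m1 := hmax' _ (hl'.trans (Mv.fwd (B := B) [] [r] p q).reach)
    have m2 := hmax' _ (hl'.trans (Mv.fwd (B := B) [p] [] q r).reach)
    have m3 := hmax' _ (hl'.trans (Mv.bwd (B := B) [p] [] q r).reach)
    simp only [List.nil_append, List.cons_append, S3, s_def, map_sub, map_smul,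
      LinearMap.sub_apply, LinearMap.smul_apply, smul_eq_mul, np, nq, nr] at m1 m2 m3
    have hD' : B p q ^ 2 + B q r ^ 2 + B p r ^ 2 - B p q * B q r * B p r =
        B a b ^ 2 + B b c ^ 2 + B a c ^ 2 - B a b * B b c * B a c := hD
    rw [← hD']
    refine ineq (hF2 _ (hp _ hl' p q (by simp))) (hF2 _ (hp _ hl' q r (by simp)))
      (hF2 _ (hp _ hl' p r (by simp))) ?_ ?_ ?_
    · have e1 : B p q * 2 - B q p = B p q := by rw [hs q p]; ring
      rw [e1] at m1
      linarith
    · have e1 : B q r * 2 - B r q = B q r := by rw [hs r q]; ring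
      have e2 : B q r * B p q - B p r = B p q * B q r - B p r := by ring
      rw [e1, e2] at m2
      linarith
    · have e1 : B r q * 2 - B r q = B q r := by rw [hs r q]; ring
      rw [e1] at m3
      have e2 : B r q * B p r - B p q = B q r * B p r - B p q := by rw [hs r q]
      rw [e2] at m3
      linarith

end Pool.Agent.H2R
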