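import Pool.Agent.H2R.Cox
import Pool.Agent.H2R.Three

/-!
# Four independent vectors and a fifth one in a Lorentz space

If the pairings of all tuples in the Hurwitz orbit lie in a finite subset of `[-2, 2]` then this is
impossible.
-/

set_option autoImplicit false
set_option linter.unusedSimpArgs false

namespace Pool.Agent.H2R

variable {V : Type*} [AddCommGroup V] [Module ℝ V] {B : V →ₗ[ℝ] V →ₗ[ℝ] ℝ}

/-- the hypotheses -/
structure Ctx (B : V →ₗ[ℝ] V →ₗ[ℝ] ℝ) (e₀ : V) (t : List V) (F : Set ℝ) : Prop where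
  lor : Lor B e₀
  dim : Module.finrank ℝ V = 4
  nrm : ∀ a ∈ t, B a a = 2
  fin : F.Finite
  le2 : ∀ f ∈ F, |f| ≤ 2
  pair : ∀ t', Reach B t t' → ∀ a b, List.Sublist [a, b] t' → B a b ∈ F

theorem W_iso (hs : ∀ x y, B x y = B y x) {a b c d : V} (ha : B a a = 2) (hb : B b b = 2)
    (hc : B c c = 2) (hd : B d d = 2) (x y : V) :
    B (W B a b c d x) (W B a b c d y) = B x y := by
  rw [W_apply, W_apply, B_s_s hs ha, B_s_s hs hb, B_s_s hs hc, B_s_s hs hd]

theorem pow_iso {g : V →ₗ[ℝ] V} (hg : ∀ x y, B (g x) (g y) = B x y) (m : ℕ) (x y : V) :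
    B ((g ^ m) x) ((g ^ m) y) = B x y := by
  induction m with
  | zero => simp
  | succ m ih => rw [pow_succ', Module.End.mul_apply, Module.End.mul_apply, hg, ih]

theorem s_map {g : V →ₗ[ℝ] V} (hg : ∀ x y, B (g x) (g y) = B x y) (a x : V) :
    s B (g a) (g x) = g (s B a x) := by
  rw [s_def, s_def, hg, map_sub, map_smul]

variable {e₀ : V} {t : List V} {F : Set ℝ}

theorem adm_pow (C : Ctx B e₀ t F) {a b c d e : V} (h : Adm B t [a, b, c, d, e]) (m : ℕ) :
    Adm B t [(W B a b c d ^ m) a, (W B a b c d ^ m) b, (W B a b c d ^ m) c,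
      (W B a b c d ^ m) d, e] := by
  have hn := h.norm C.lor.symm C.nrm
  have ha := hn a (by simp)
  have hb := hn b (by simp)
  have hc := hn c (by simp)
  have hd := hn d (by simp)
  have hiso := pow_iso (W_iso C.lor.symm ha hb hc hd)
  induction m with
  | zero => simpa using h
  | succ m ih =>
    have hn' := ih.norm C.lor.symm C.nrm
    have h1 := ih.reach (reach_twist C.lor.symm (hn' _ (by simp)) (hn' _ (by simp))
      (hn' _ (by simp)) (hn' _ (by simp)) [e])
    have hw : ∀ x, w4 B ((W B a b c d ^ m) a) ((W B a b c d ^ m) b) ((W B a b c d ^ m) c)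
        ((W B a b c d ^ m) d) ((W B a b c d ^ m) x) = (W B a b c d ^ (m + 1)) x := by
      intro x
      unfold w4
      rw [s_map (hiso m), s_map (hiso m), s_map (hiso m), s_map (hiso m), pow_succ,
        Module.End.mul_apply]
      rfl
    rw [hw, hw, hw, hw] at h1
    exact h1

theorem iso_surj [FiniteDimensional ℝ V] (hL : Lor B e₀) {g : V →ₗ[ℝ] V}
    (hg : ∀ x y, B (g x) (g y) = B x y) : Function.Surjective g := by
  refine LinearMap.surjective_of_injective ?_
  rw [injective_iff_map_eq_zero]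
  intro x hx
  refine hL.nondeg fun y => ?_
  rw [← hg y x, hx, map_zero]

theorem periodic [FiniteDimensional ℝ V] (C : Ctx B e₀ t F) {a b c d e : V}
    (h : Adm B t [a, b, c, d, e]) (hgood : Good B a b c d) :
    ∃ M, 0 < M ∧ (W B a b c d ^ M) e = e := by
  have hn := h.norm C.lor.symm C.nrm
  have ha := hn a (by simp)
  have hb := hn b (by simp)
  have hc := hn c (by simp)
  have hd := hn d (by simp)
  set g := W B a b c d with hgdef
  have hiso := pow_iso (W_iso C.lor.symm ha hb hc hd)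
  rw [← hgdef] at hiso
  have hp : ∀ m, ∀ x ∈ [a, b, c, d], B ((g ^ m) x) e ∈ F := by
    intro m x hx
    have h1 := adm_pow C h m
    refine h1.pair C.pair ?_
    rw [← hgdef]
    simp only [List.mem_cons, List.not_mem_nil, or_false] at hx
    rcases hx with rfl | rfl | rfl | rfl
    · exact ((List.nil_sublist [(g ^ m) b, (g ^ m) c, (g ^ m) d]).append_right [e]).cons_cons _
    · exact (((List.nil_sublist [(g ^ m) c, (g ^ m) d]).append_right [e]).cons_cons _).cons _
    · exact ((((List.nil_sublist [(g ^ m) d]).append_right [e]).cons_cons _).cons _).cons _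
    · exact (((List.Sublist.refl _).cons _).cons _).cons _
  have := C.fin.to_subtype
  obtain ⟨i, j, hij, heq⟩ := Finite.exists_ne_map_eq_of_infinite
    (fun m : ℕ => ((⟨B ((g ^ m) a) e, hp m a (by simp)⟩, ⟨B ((g ^ m) b) e, hp m b (by simp)⟩,
      ⟨B ((g ^ m) c) e, hp m c (by simp)⟩, ⟨B ((g ^ m) d) e, hp m d (by simp)⟩) :
      F × F × F × F))
  simp only [Prod.mk.injEq, Subtype.mk.injEq] at heq
  have key : ∀ i j : ℕ, i < j →
      B ((g ^ i) a) e = B ((g ^ j) a) e → B ((g ^ i) b) e = B ((g ^ j) b) e →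
      B ((g ^ i) c) e = B ((g ^ j) c) e → B ((g ^ i) d) e = B ((g ^ j) d) e →
      ∃ M, 0 < M ∧ (g ^ M) e = e := by
    intro i j hij q1 q2 q3 q4
    obtain ⟨M, rfl⟩ : ∃ M, j = i + M := ⟨j - i, by omega⟩
    refine ⟨M, by omega, ?_⟩
    obtain ⟨f, hf⟩ := iso_surj C.lor (hiso (i + M)) e
    have hq : ∀ x, B ((g ^ i) x) e = B ((g ^ (i + M)) x) e → B x ((g ^ M) f - f) = 0 := by
      intro x hx
      rw [map_sub, sub_eq_zero]
      have e1 : B ((g ^ i) x) e = B x ((g ^ M) f) := by
        rw [← hf, pow_add, Module.End.mul_apply, hiso]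
      have e2 : B ((g ^ (i + M)) x) e = B x f := by
        rw [← hf, hiso]
      rw [← e1, ← e2, hx]
    have hfix : (g ^ M) f = f :=
      sub_eq_zero.1 (hgood _ (hq _ q1) (hq _ q2) (hq _ q3) (hq _ q4))
    rw [← hf, ← Module.End.mul_apply, ← pow_add, add_comm M, pow_add, Module.End.mul_apply, hfix]
  rcases lt_or_gt_of_ne hij with h1 | h1
  · exact key i j h1 heq.1 heq.2.1 heq.2.2.1 heq.2.2.2
  · exact key j i h1 heq.1.symm heq.2.1.symm heq.2.2.1.symm heq.2.2.2.symm

theorem cox [FiniteDimensional ℝ V] (C : Ctx B e₀ t F) {a b c d e : V}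
    (h : Adm B t [a, b, c, d, e]) (hgood : Good B a b c d) :
    W B a b c d (s B e (W B a b c d (s B e e))) = e ∧
    ∀ x, W B a b c d (s B e (W B a b c d (s B e x))) = x → B x x ≤ 0 → x = 0 := by
  have hn := h.norm C.lor.symm C.nrm
  have ha := hn a (by simp)
  have hb := hn b (by simp)
  have hc := hn c (by simp)
  have hd := hn d (by simp)
  have he := hn e (by simp)
  obtain ⟨M, hM, heM⟩ := periodic C h hgood
  have hiso := W_iso C.lor.symm ha hb hc hd
  have hg : ∀ x, Fut B e₀ x → Fut B e₀ (W B a b c d x) := fun x hx => hx.w C.lor ha hb hc hd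
  have hfix : ∀ x, W B a b c d x = x → x = 0 := fun x hx => carter hgood C.dim ha hb hx
  refine ⟨?_, fun x hx hc' => no_causal_C C.lor _ hg hfix hM he heM hx hc'⟩
  have h1 := star C.lor C.dim _ hg hiso hfix hM he heM
  rw [s_self he, s_def, map_sub, map_smul, h1, C.lor.symm e]
  abel

theorem psd3 {x y z : ℝ} (hx : |x| ≤ 2) (hz : |z| ≤ 2)
    (h : x ^ 2 + y ^ 2 + z ^ 2 - x * y * z ≤ 4) (α β γ : ℝ) :
    0 ≤ 2 * α ^ 2 + 2 * β ^ 2 + 2 * γ ^ 2 + 2 * α * β * x + 2 * β * γ * y + 2 * α * γ * z := by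
  have hP : 0 ≤ 4 - x ^ 2 := by nlinarith [abs_le.1 hx]
  have hR : 0 ≤ 4 - z ^ 2 := by nlinarith [abs_le.1 hz]
  have hS : (2 * y - x * z) ^ 2 ≤ (4 - x ^ 2) * (4 - z ^ 2) := by nlinarith
  have key : 0 ≤ (4 - x ^ 2) * β ^ 2 + (4 - z ^ 2) * γ ^ 2 + 2 * (2 * y - x * z) * β * γ := by
    rcases hP.eq_or_lt with h0 | h0
    · rw [← h0, zero_mul] at hS
      have hS0 : 2 * y - x * z = 0 := by
        have : (2 * y - x * z) ^ 2 = 0 := le_antisymm hS (sq_nonneg _)
        exact pow_eq_zero_iff (by norm_num) |>.1 this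
      rw [← h0, hS0]
      nlinarith [sq_nonneg γ]
    · have h1 : 0 ≤ (4 - x ^ 2) *
          ((4 - x ^ 2) * β ^ 2 + (4 - z ^ 2) * γ ^ 2 + 2 * (2 * y - x * z) * β * γ) := by
        nlinarith [sq_nonneg ((4 - x ^ 2) * β + (2 * y - x * z) * γ), sq_nonneg γ]
      exact nonneg_of_mul_nonneg_right h1 h0
  nlinarith [sq_nonneg (2 * α + β * x + γ * z)]

theorem causal_perp [FiniteDimensional ℝ V] (C : Ctx B e₀ t F) {a b c d v : V}
    (h : Adm B t [a, b, c]) (hgood : Good B a b c d) (va : B a v = 0) (vb : B b v = 0)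
    (vc : B c v = 0) : B v v ≤ 0 := by
  by_contra hv
  push Not at hv
  have hn := h.norm C.lor.symm C.nrm
  have ha := hn a (by simp)
  have hb := hn b (by simp)
  have hc := hn c (by simp)
  have hi := hgood.i4 C.dim
  have hi4 : I4 a b c v := by
    intro α β γ δ h0
    have h1 : B (α • a + β • b + γ • c + δ • v) v = 0 := by rw [h0]; simp
    simp only [map_add, map_smul, LinearMap.add_apply, LinearMap.smul_apply, smul_eq_mul, va, vb,
      vc, mul_zero, zero_add] at h1
    have h2 : δ = 0 := (mul_eq_zero.1 h1).resolve_right hv.ne'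
    rw [h2, zero_smul, add_zero] at h0
    have h3 := hi α β γ 0 (by rw [zero_smul, add_zero, h0])
    exact ⟨h3.1, h3.2.1, h3.2.2.1, h2⟩
  obtain ⟨α, β, γ, δ, h1⟩ := hi4.span C.dim e₀
  have h3 := three C.lor.symm C.nrm C.fin C.le2 C.pair h
  have hx := C.le2 _ (h.pair C.pair (show List.Sublist [a, b] [a, b, c] by simp))
  have hz := C.le2 _ (h.pair C.pair (show List.Sublist [a, c] [a, b, c] by simp))
  have h4 := psd3 (x := B a b) (y := B b c) (z := B a c) hx hz h3 α β γ
  have h5 := C.lor.neg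
  rw [h1] at h5
  simp only [map_add, map_smul, LinearMap.add_apply, LinearMap.smul_apply, smul_eq_mul] at h5
  rw [C.lor.symm v a, C.lor.symm v b, C.lor.symm v c, C.lor.symm b a, C.lor.symm c a,
    C.lor.symm c b, va, vb, vc, ha, hb, hc] at h5
  nlinarith [mul_nonneg (mul_self_nonneg δ) hv.le]

theorem lemA [FiniteDimensional ℝ V] (C : Ctx B e₀ t F) {a b c d e : V}
    (h : Adm B t [a, b, c, d, e]) (hgood : Good B a b c d) {v : V} (va : B a v = 0)
    (vb : B b v = 0) (vc : B c v = 0) : B (s B d e) v = 0 := by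
  by_contra hne
  have hs := C.lor.symm
  have hn := h.norm hs C.nrm
  have hd := hn d (by simp)
  have v0 : v ≠ 0 := by
    rintro rfl
    exact hne (map_zero _)
  have hcaus : B v v ≤ 0 := causal_perp C (h.sub (by simp)) hgood va vb vc
  have hgood' : Good B a b c (s B d e) := by
    intro x xa xb xc xe
    by_contra x0
    have hdx : B d x ≠ 0 := fun h => x0 (hgood x xa xb xc h)
    have hv : v - (B d v / B d x) • x = 0 := by
      refine hgood _ ?_ ?_ ?_ ?_
      · rw [map_sub, map_smul, va, xa, smul_zero, sub_zero]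
      · rw [map_sub, map_smul, vb, xb, smul_zero, sub_zero]
      · rw [map_sub, map_smul, vc, xc, smul_zero, sub_zero]
      · rw [map_sub, map_smul, smul_eq_mul, div_mul_cancel₀ _ hdx, sub_self]
    apply hne
    rw [sub_eq_zero.1 hv, map_smul, xe, smul_zero]
  have h' : Adm B t [a, b, c, s B d e, d] := by
    have h1 := Mv.fwd (B := B) [a, b, c] [] d e
    exact h.reach h1.reach
  obtain ⟨p1, p2⟩ := cox C h hgood
  obtain ⟨q1, -⟩ := cox C h' hgood'
  set g := W B a b c d with hg
  have hW' : ∀ x, W B a b c (s B d e) (s B d x) = g (s B e x) := by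
    intro x
    rw [W_apply, s_conj hs hd, s_invol hd]
    rfl
  rw [hW', hW'] at q1
  -- the submodule of vectors of period two
  let D : V →ₗ[ℝ] V := g.comp ((sL B e).comp (g.comp (sL B e)))
  have hD : ∀ x, D x = g (s B e (g (s B e x))) := fun x => rfl
  let Fs : Submodule ℝ V := LinearMap.eqLocus D LinearMap.id
  have hF : ∀ x, x ∈ Fs ↔ D x = x := fun x => Iff.rfl
  have eF : e ∈ Fs := (hF e).2 p1
  have dF : d ∈ Fs := (hF d).2 q1
  have hsF : ∀ x ∈ Fs, s B e x ∈ Fs := fun x hx => Fs.sub_mem (Fs.smul_mem _ eF) hx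
  have he := hn e (by simp)
  have hgF : ∀ x ∈ Fs, g x ∈ Fs := by
    intro x hx
    have h1 := (hF _).1 (hsF x hx)
    have h2 : g x = g (s B e (s B e x)) := by rw [s_invol he]
    rw [h2, hF]
    have h3 : ∀ y, D (g (s B e y)) = g (s B e (D y)) := fun y => rfl
    rw [h3, h1]
  have hfix : ∀ x, g x = x → x = 0 := fun x hx =>
    carter hgood C.dim (hn a (by simp)) (hn b (by simp)) hx
  have hvg : g v - v = B d v • g d := by
    have e1 : g (s B d v) = -v := by
      rw [hg, W_apply, s_invol hd, s_def c, vc, zero_smul, zero_sub, s_neg, s_neg, s_def b, vb,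
        zero_smul, zero_sub, s_neg, neg_neg, s_def a, va, zero_smul, zero_sub]
    rw [s_def, map_sub, map_smul] at e1
    have e2 : B d v • g d = g v - v := by
      rw [sub_eq_iff_eq_add] at e1
      rw [e1]
      abel
    exact e2.symm
  -- `g - 1` is bijective on the submodule
  let T : Fs →ₗ[ℝ] Fs := (g - LinearMap.id).restrict (fun x hx => Fs.sub_mem (hgF x hx) hx)
  have hT : ∀ x : Fs, ((T x : Fs) : V) = g x - x := fun x => rfl
  have hTinj : Function.Injective T := by
    rw [injective_iff_map_eq_zero]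
    intro x hx
    have h1 : g x - (x : V) = 0 := by rw [← hT, hx]; rfl
    exact Subtype.ext (hfix _ (sub_eq_zero.1 h1))
  have hTsurj : Function.Surjective T := LinearMap.surjective_of_injective hTinj
  obtain ⟨k, hk⟩ := hTsurj ⟨B d v • g d, Fs.smul_mem _ (hgF d dF)⟩
  have hk' : g k - (k : V) = B d v • g d := by rw [← hT, hk]
  have h5 : g (v - k) = v - k := by
    rw [← sub_eq_zero, map_sub]
    have : g v - g k - (v - k) = (g v - v) - (g k - (k : V)) := by abel
    rw [this, hvg, hk', sub_self]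
  have h6 : v = k := sub_eq_zero.1 (hfix _ h5)
  have h7 : v ∈ Fs := by rw [h6]; exact k.2
  exact v0 (p2 v ((hF v).1 h7) hcaus)

theorem lemB [FiniteDimensional ℝ V] (C : Ctx B e₀ t F) {a b c d e : V}
    (h : Adm B t [a, b, c, d, e]) (hgood : Good B a b c d) : B d e = 0 := by
  have hs := C.lor.symm
  have hn := h.norm hs C.nrm
  have ha := hn a (by simp)
  have hb := hn b (by simp)
  have hc := hn c (by simp)
  have hd := hn d (by simp)
  have hiso := W_iso hs ha hb hc hd
  obtain ⟨v, va, vb, vc, vd⟩ := hgood.dual C.dim 0 0 0 1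
  have h1 := lemA C h hgood va vb vc
  have h' := adm_pow C h 1
  rw [pow_one] at h'
  have hgood' : Good B (W B a b c d a) (W B a b c d b) (W B a b c d c) (W B a b c d d) := by
    intro x xa xb xc xd
    obtain ⟨y, rfl⟩ := iso_surj C.lor hiso x
    rw [hiso] at xa xb xc xd
    rw [hgood y xa xb xc xd, map_zero]
  have h2 := lemA C h' hgood' (v := W B a b c d v) (by rw [hiso, va]) (by rw [hiso, vb])
    (by rw [hiso, vc])
  have hd' : B (W B a b c d d) (W B a b c d d) = 2 := by rw [hiso, hd]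
  rw [B_s_left hs hd', s_map hiso] at h2
  have e1 : W B a b c d (s B d v) = -v := by
    rw [W_apply, s_invol hd, s_def c, vc, zero_smul, zero_sub, s_neg, s_neg, s_def b, vb,
      zero_smul, zero_sub, s_neg, neg_neg, s_def a, va, zero_smul, zero_sub]
  rw [e1, map_neg, neg_eq_zero] at h2
  rw [B_s_left hs hd, s_def, vd, one_smul, map_sub, h2, sub_zero] at h1
  rw [hs, h1]

/-- The contradiction. -/
theorem four [FiniteDimensional ℝ V] (C : Ctx B e₀ t F) {a b c d e : V}
    (h : Adm B t [a, b, c, d, e]) (hgood : Good B a b c d) : False := by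
  have hs := C.lor.symm
  have hn := h.norm hs C.nrm
  have ha := hn a (by simp)
  have hb := hn b (by simp)
  have hc := hn c (by simp)
  have hd := hn d (by simp)
  have he := hn e (by simp)
  have sz : ∀ p q x : V, B p x = 0 → B (s B p q) x = 0 → B q x = 0 := by
    intro p q x h1 h2
    rw [s_def, map_sub, map_smul, LinearMap.sub_apply, LinearMap.smul_apply, h1, smul_zero,
      zero_sub, neg_eq_zero] at h2
    exact h2
  have k4 := lemB C h hgood
  have k3 : B c e = 0 := by
    have h1 := h.reach (((reach_thru (B := B) c [d]).append [a, b] [e]))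
    refine lemB C h1 ?_
    intro x x1 x2 x3 x4
    exact hgood x x1 x2 x4 (sz c d x x4 x3)
  have k2 : B b e = 0 := by
    have h1 := h.reach (((reach_thru (B := B) b [c, d]).append [a] [e]))
    refine lemB C h1 ?_
    intro x x1 x2 x3 x4
    exact hgood x x1 x4 (sz b c x x4 x2) (sz b d x x4 x3)
  have k1 : B a e = 0 := by
    have h1 := h.reach (((reach_thru (B := B) a [b, c, d]).append [] [e]))
    refine lemB C h1 ?_
    intro x x1 x2 x3 x4
    exact hgood x x4 (sz a b x x4 x1) (sz a c x x4 x2) (sz a d x x4 x3)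
  have h0 := hgood e k1 k2 k3 k4
  rw [h0] at he
  simp at he

end Pool.Agent.H2R
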