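import Pool.Agent.H2R.Defs

/-!
# Hurwitz moves: sublists and full twists
-/

set_option autoImplicit false
set_option linter.unusedSimpArgs false

namespace Pool.Agent.H2R

variable {K V : Type*} [Field K] [AddCommGroup V] [Module K V] {B : V →ₗ[K] V →ₗ[K] K}

section Basic

variable {a b x y : V}

theorem s_def (a x : V) : s B a x = B a x • a - x := rfl

theorem s_self (ha : B a a = 2) : s B a a = a := by
  rw [s_def, ha, two_smul]
  abel

theorem s_invol (ha : B a a = 2) (x : V) : s B a (s B a x) = x := by
  rw [s_def, s_def, map_sub, map_smul, ha, smul_eq_mul, sub_smul, mul_smul, two_smul, smul_add]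
  abel

theorem s_add (a x y : V) : s B a (x + y) = s B a x + s B a y := by
  simp only [s_def, map_add, add_smul]
  abel

theorem s_smul (a : V) (r : K) (x : V) : s B a (r • x) = r • s B a x := by
  simp only [s_def, map_smul, smul_sub, smul_smul, smul_eq_mul]

theorem B_s_s (hs : ∀ x y, B x y = B y x) (ha : B a a = 2) (x y : V) :
    B (s B a x) (s B a y) = B x y := by
  simp only [s_def, map_sub, map_smul, LinearMap.sub_apply, LinearMap.smul_apply, ha,
    smul_eq_mul]
  rw [hs x a]
  ring

theorem B_s_left (hs : ∀ x y, B x y = B y x) (ha : B a a = 2) (x y : V) :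
    B (s B a x) y = B x (s B a y) := by
  rw [← B_s_s hs ha (s B a x) y, s_invol ha]

/-- `s (s a b) = s a ∘ s b ∘ s a` -/
theorem s_conj (hs : ∀ x y, B x y = B y x) (ha : B a a = 2) (b x : V) :
    s B (s B a b) x = s B a (s B b (s B a x)) := by
  have h1 : B (s B a b) x = B b (s B a x) := by rw [B_s_left hs ha]
  rw [s_def (s B a b), h1, s_def b, show B b (s B a x) • b - s B a x =
    B b (s B a x) • b + (-1 : K) • s B a x by rw [neg_smul, one_smul, sub_eq_add_neg], s_add,
    s_smul, s_smul, s_invol ha, neg_smul, one_smul, sub_eq_add_neg]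

theorem norm_s (hs : ∀ x y, B x y = B y x) (ha : B a a = 2) (b : V) :
    B (s B a b) (s B a b) = B b b := B_s_s hs ha b b

end Basic

theorem Reach.refl (l : List V) : Reach B l l := Relation.ReflTransGen.refl

theorem Reach.trans {l m n : List V} (h : Reach B l m) (h' : Reach B m n) : Reach B l n :=
  Relation.ReflTransGen.trans h h'

theorem Mv.reach {l m : List V} (h : Mv B l m) : Reach B l m := Relation.ReflTransGen.single h

theorem Mv.append {l m : List V} (h : Mv B l m) (p q : List V) :
    Mv B (p ++ l ++ q) (p ++ m ++ q) := by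
  cases h with
  | fwd l m a b =>
    have := Mv.fwd (B := B) (p ++ l) (m ++ q) a b
    simpa using this
  | bwd l m a b =>
    have := Mv.bwd (B := B) (p ++ l) (m ++ q) a b
    simpa using this

theorem Reach.append {l m : List V} (h : Reach B l m) (p q : List V) :
    Reach B (p ++ l ++ q) (p ++ m ++ q) := by
  induction h with
  | refl => exact Reach.refl _
  | tail _ h2 ih => exact ih.trans (h2.append p q).reach

theorem Mv.length_eq {l m : List V} (h : Mv B l m) : l.length = m.length := by
  cases h <;> simp

theorem Reach.length_eq {l m : List V} (h : Reach B l m) : l.length = m.length := by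
  induction h with
  | refl => rfl
  | tail _ h2 ih => exact ih.trans h2.length_eq

theorem Mv.norm (hs : ∀ x y, B x y = B y x) {l m : List V} (h : Mv B l m)
    (hl : ∀ a ∈ l, B a a = 2) : ∀ a ∈ m, B a a = 2 := by
  cases h with
  | fwd l m a b =>
    intro x hx
    simp only [List.mem_append, List.mem_cons] at hx hl
    rcases hx with hx | rfl | rfl | hx
    · exact hl x (Or.inl hx)
    · rw [norm_s hs (hl a (by simp)), hl b (by simp)]
    · exact hl x (by simp)
    · exact hl x (Or.inr (Or.inr (Or.inr hx)))
  | bwd l m a b =>
    intro x hx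
    simp only [List.mem_append, List.mem_cons] at hx hl
    rcases hx with hx | rfl | rfl | hx
    · exact hl x (Or.inl hx)
    · exact hl x (by simp)
    · rw [norm_s hs (hl b (by simp)), hl a (by simp)]
    · exact hl x (Or.inr (Or.inr (Or.inr hx)))

theorem Reach.norm (hs : ∀ x y, B x y = B y x) {l m : List V} (h : Reach B l m)
    (hl : ∀ a ∈ l, B a a = 2) : ∀ a ∈ m, B a a = 2 := by
  induction h with
  | refl => exact hl
  | tail _ h2 ih => exact h2.norm hs ih

/-- An element moves to the right through a list, acting on its members. -/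
theorem reach_thru (a : V) (l : List V) : Reach B (a :: l) (l.map (s B a) ++ [a]) := by
  induction l with
  | nil => exact Reach.refl _
  | cons b l ih =>
    have h1 : Mv B (a :: b :: l) (s B a b :: a :: l) := by
      simpa using Mv.fwd (B := B) [] l a b
    have h2 := ih.append [s B a b] []
    simp only [List.append_nil, List.cons_append, List.nil_append] at h2
    exact h1.reach.trans h2

/-- An element moves to the right through a list which is not changed. -/
theorem reach_past (a : V) (l : List V) : ∃ a', Reach B (a :: l) (l ++ [a']) := by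
  induction l generalizing a with
  | nil => exact ⟨a, Reach.refl _⟩
  | cons b l ih =>
    have h1 : Mv B (a :: b :: l) (b :: s B b a :: l) := by
      simpa using Mv.bwd (B := B) [] l a b
    obtain ⟨a', h2⟩ := ih (s B b a)
    have h3 := h2.append [b] []
    simp only [List.append_nil, List.cons_append, List.nil_append] at h3
    exact ⟨a', h1.reach.trans h3⟩

/-- Each sublist can be moved to the front. -/
theorem reach_sublist {l t : List V} (h : l.Sublist t) : ∃ m, Reach B t (l ++ m) := by
  induction h with
  | slnil => exact ⟨[], Reach.refl _⟩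
  | cons a _ ih =>
    obtain ⟨m, hm⟩ := ih
    have h1 := hm.append [a] []
    simp only [List.append_nil, List.cons_append, List.nil_append] at h1
    obtain ⟨a', h2⟩ := reach_past (B := B) a (_ ++ m)
    refine ⟨m ++ [a'], h1.trans ?_⟩
    rw [← List.append_assoc]
    exact h2
  | cons_cons a _ ih =>
    obtain ⟨m, hm⟩ := ih
    have h1 := hm.append [a] []
    simp only [List.append_nil, List.cons_append, List.nil_append] at h1
    exact ⟨m, h1⟩

/-- The product `s a ∘ s b ∘ s c ∘ s d`. -/
def w4 (B : V →ₗ[K] V →ₗ[K] K) (a b c d x : V) : V := s B a (s B b (s B c (s B d x)))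

/-- The full twist on four strands. -/
theorem reach_twist (hs : ∀ x y, B x y = B y x) {a b c d : V} (ha : B a a = 2) (hb : B b b = 2)
    (hc : B c c = 2) (hd : B d d = 2) (m : List V) :
    Reach B (a :: b :: c :: d :: m)
      (w4 B a b c d a :: w4 B a b c d b :: w4 B a b c d c :: w4 B a b c d d :: m) := by
  have r : ∀ p q u v : V, Reach B (p :: q :: u :: v :: m) (s B p q :: s B p u :: s B p v :: p :: m) := by
    intro p q u v
    have := (reach_thru (B := B) p [q, u, v]).append [] m
    simpa using this
  have h1 := r a b c d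
  have h2 := r (s B a b) (s B a c) (s B a d) a
  have h3 := r (s B (s B a b) (s B a c)) (s B (s B a b) (s B a d)) (s B (s B a b) a) (s B a b)
  have h4 := r (s B (s B (s B a b) (s B a c)) (s B (s B a b) (s B a d)))
    (s B (s B (s B a b) (s B a c)) (s B (s B a b) a))
    (s B (s B (s B a b) (s B a c)) (s B a b)) (s B (s B a b) (s B a c))
  have h := ((h1.trans h2).trans h3).trans h4
  have nab := (norm_s hs ha b).trans hb
  have nac : ∀ x, s B (s B a b) (s B a x) = s B a (s B b x) := fun x => by
    rw [s_conj hs ha, s_invol ha]
  have nabc : B (s B a (s B b c)) (s B a (s B b c)) = 2 := by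
    rw [norm_s hs ha, norm_s hs hb, hc]
  have nabc' : ∀ x, s B (s B a (s B b c)) x = s B a (s B b (s B c (s B b (s B a x)))) := fun x => by
    rw [s_conj hs ha, s_conj hs hb]
  have nabcd' : ∀ x, s B (s B a (s B b (s B c d))) x =
      s B a (s B b (s B c (s B d (s B c (s B b (s B a x)))))) := fun x => by
    rw [s_conj hs ha, s_conj hs hb, s_conj hs hc]
  have nab' : ∀ x, s B (s B a b) x = s B a (s B b (s B a x)) := fun x => s_conj hs ha b x
  simp only [nab', nabc', s_invol ha, s_invol hb, s_self ha, s_self hb] at h
  simp only [nab', nabc', nabcd', s_invol ha, s_invol hb, s_invol hc, s_invol hd, s_self ha, s_self hb, s_self hc,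
    s_self hd] at h
  unfold w4
  simpa only [s_self ha, s_self hb, s_self hc, s_self hd] using h

/-- beginnings of lists reachable from `t` -/
def Adm (B : V →ₗ[K] V →ₗ[K] K) (t l : List V) : Prop := ∃ m, Reach B t (l ++ m)

variable {t l l' : List V}

theorem Adm.reach (h : Adm B t l) (h' : Reach B l l') : Adm B t l' := by
  obtain ⟨m, hm⟩ := h
  have := h'.append [] m
  simp only [List.nil_append] at this
  exact ⟨m, hm.trans this⟩

theorem Adm.sub (h : Adm B t l) (h' : l'.Sublist l) : Adm B t l' := by
  obtain ⟨m, hm⟩ := h
  obtain ⟨m', h1⟩ := reach_sublist (B := B) (h'.trans (List.sublist_append_left l m))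
  exact ⟨m', hm.trans h1⟩

theorem Adm.of_sublist (h : l.Sublist t) : Adm B t l := reach_sublist h

theorem Adm.ext (h : Adm B t l) (hl : l.length < t.length) : ∃ x, Adm B t (l ++ [x]) := by
  obtain ⟨m, hm⟩ := h
  have h1 := hm.length_eq
  rw [List.length_append] at h1
  cases m with
  | nil =>
    simp only [List.length_nil] at h1
    omega
  | cons x m =>
    refine ⟨x, m, ?_⟩
    rwa [List.append_assoc, List.singleton_append]

theorem Adm.norm (hs : ∀ x y, B x y = B y x) (hn : ∀ a ∈ t, B a a = 2) (h : Adm B t l) :
    ∀ a ∈ l, B a a = 2 := by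
  obtain ⟨m, hm⟩ := h
  intro a ha
  exact hm.norm hs hn a (List.mem_append_left m ha)

theorem Adm.pair {F : Set K}
    (hF : ∀ t', Reach B t t' → ∀ a b, List.Sublist [a, b] t' → B a b ∈ F) (h : Adm B t l)
    {a b : V} (hab : List.Sublist [a, b] l) : B a b ∈ F := by
  obtain ⟨m, hm⟩ := h
  exact hF _ hm a b (hab.trans (List.sublist_append_left l m))

end Pool.Agent.H2R
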