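import Pool.Agent.H2R.Defs

/-!
# The quadratic space of `2 × 2` matrices

`BM X Y = tr X tr Y - tr (X Y)` is the polar form of the determinant.
-/

set_option autoImplicit false

namespace Pool.Agent.H2R

open Matrix

/-- the space of matrices -/
abbrev M2 : Type := Matrix (Fin 2) (Fin 2) ℂ

/-- the matrices of determinant one -/
abbrev SL : Type := Matrix.SpecialLinearGroup (Fin 2) ℂ

/-- the matrix of an element of `SL` -/
def cm (A : SL) : M2 := A.1

theorem cm_det (A : SL) : (cm A).det = 1 := A.2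

theorem cm_mul (A B : SL) : cm (A * B) = cm A * cm B := rfl

theorem cm_one : cm 1 = 1 := rfl

theorem cm_inv (A : SL) : cm A⁻¹ = adjugate (cm A) := rfl

theorem cm_injective : Function.Injective cm := Subtype.val_injective

theorem cm_mul_inv (A : SL) : cm A * cm A⁻¹ = 1 := by rw [← cm_mul, mul_inv_cancel, cm_one]

theorem cm_inv_mul (A : SL) : cm A⁻¹ * cm A = 1 := by rw [← cm_mul, inv_mul_cancel, cm_one]

/-- the polar form of the determinant -/
noncomputable def BM : M2 →ₗ[ℂ] M2 →ₗ[ℂ] ℂ :=
  LinearMap.mk₂ ℂ (fun X Y => X.trace * Y.trace - (X * Y).trace)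
    (by intro X X' Y; rw [trace_add, Matrix.add_mul, trace_add]; ring)
    (by intro c X Y; rw [trace_smul, Matrix.smul_mul, trace_smul, smul_eq_mul, smul_eq_mul,
      smul_eq_mul]; ring)
    (by intro X Y Y'; rw [trace_add, Matrix.mul_add, trace_add]; ring)
    (by intro c X Y; rw [trace_smul, Matrix.mul_smul, trace_smul, smul_eq_mul, smul_eq_mul,
      smul_eq_mul]; ring)

theorem BM_apply (X Y : M2) : BM X Y = X.trace * Y.trace - (X * Y).trace := rfl

theorem BM_comm (X Y : M2) : BM X Y = BM Y X := by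
  rw [BM_apply, BM_apply, trace_mul_comm X Y, mul_comm]

theorem BM_self (X : M2) : BM X X = 2 * X.det := by
  rw [BM_apply, Matrix.det_fin_two]
  simp only [trace_fin_two, Matrix.mul_apply, Fin.sum_univ_two]
  ring

theorem BM_adj (X Y : M2) : BM X Y = (X * adjugate Y).trace := by
  rw [BM_apply, Matrix.adjugate_fin_two]
  simp only [trace_fin_two, Matrix.mul_apply, Fin.sum_univ_two, Matrix.of_apply, Matrix.cons_val',
    Matrix.cons_val_zero, Matrix.cons_val_one, Matrix.cons_val_fin_one]
  ring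

theorem mul_adj_mul (X Y : M2) : Y * adjugate X * Y = BM Y X • Y - Y.det • X := by
  rw [BM_apply, Matrix.adjugate_fin_two, Matrix.det_fin_two]
  ext i j
  simp only [trace_fin_two, Matrix.mul_apply, Fin.sum_univ_two, Matrix.of_apply, Matrix.cons_val',
    Matrix.cons_val_fin_one, Matrix.sub_apply, Matrix.smul_apply, smul_eq_mul]
  fin_cases i <;> fin_cases j <;>
    simp only [Fin.zero_eta, Fin.isValue, Fin.mk_one, Matrix.cons_val_zero, Matrix.cons_val_one] <;>
    ring

theorem s_cm (Y : SL) (X : M2) : s BM (cm Y) X = cm Y * adjugate X * cm Y := by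
  rw [mul_adj_mul, cm_det, one_smul]
  rfl

theorem s_cm_cm (Y X : SL) : s BM (cm Y) (cm X) = cm (Y * X⁻¹ * Y) := by
  rw [s_cm, cm_mul, cm_mul, cm_inv]

theorem BM_cm (X Y : SL) : BM (cm X) (cm Y) = (cm (X * Y⁻¹)).trace := by
  rw [BM_adj, cm_mul, cm_inv]

theorem adj_adj (X : M2) : adjugate (adjugate X) = X := by
  rw [Matrix.adjugate_adjugate X (by simp)]
  simp

/-- two reflections in a row -/
theorem s_s (Y Z : SL) (X : M2) :
    s BM (cm Y) (s BM (cm Z) X) = cm (Y * Z⁻¹) * X * cm (Z⁻¹ * Y) := by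
  rw [s_cm, s_cm, adjugate_mul_distrib, adjugate_mul_distrib, adj_adj, cm_mul, cm_mul, cm_inv]
  simp only [Matrix.mul_assoc]

/-- an orthogonal vector goes to its negative -/
theorem s_orth {a X : M2} (h : BM a X = 0) : s BM a X = -X := by
  rw [s, h, zero_smul, zero_sub]

/-- a matrix of determinant one which commutes with everything is `± 1` -/
theorem sq_eq_one_of_comm (A : SL) (h : ∀ X : M2, cm A * X = X * cm A) : A ^ 2 = 1 := by
  have h1 := congrFun (congrFun (h !![0, 1; 0, 0]) 0) 1
  have h2 := congrFun (congrFun (h !![0, 1; 0, 0]) 0) 0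
  have h3 := congrFun (congrFun (h !![0, 0; 1, 0]) 0) 0
  simp only [Matrix.mul_apply, Fin.sum_univ_two, Matrix.of_apply, Matrix.cons_val',
    Matrix.cons_val_zero, Matrix.cons_val_one, Matrix.cons_val_fin_one, mul_zero, mul_one,
    zero_mul, one_mul, add_zero, zero_add] at h1 h2 h3
  have hd := cm_det A
  rw [Matrix.det_fin_two, h3, zero_mul, sub_zero, ← h1] at hd
  apply cm_injective
  rw [pow_two, cm_mul, cm_one]
  ext i j
  fin_cases i <;> fin_cases j <;>
    simp only [Matrix.mul_apply, Fin.sum_univ_two, Fin.zero_eta, Fin.isValue, Fin.mk_one,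
      Matrix.one_apply_eq, ne_eq, zero_ne_one, one_ne_zero, not_false_eq_true,
      Matrix.one_apply_ne, ← h1, ← h2, h3, hd, mul_zero, zero_mul, add_zero, zero_add]

end Pool.Agent.H2R
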