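import Pool.Agent.H2R.Stm
import Pool.Agent.H2R.MA

/-!
# The reachable lists of matrices and the twists
-/

set_option autoImplicit false

namespace Pool.Agent.H2R

open Matrix

section lists

variable {α : Type*}

/-- two neighbours of a list are replaced -/
theorem list_update (f : ℕ → α) (N : ℕ) (l m : List α) (x y x' y' : α)
    (h : l ++ x :: y :: m = (List.range N).map f) :
    l.length + 1 < N ∧ x = f l.length ∧ y = f (l.length + 1) ∧
    l ++ x' :: y' :: m = (List.range N).map
      (fun j => if j = l.length then x' else if j = l.length + 1 then y' else f j) := by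
  have hlen := congrArg List.length h
  simp only [List.length_append, List.length_cons, List.length_map, List.length_range] at hlen
  have h0 := congrArg (fun t : List α => t[l.length]?) h
  have h1 := congrArg (fun t : List α => t[l.length + 1]?) h
  have hN : l.length + 1 < N := by omega
  have hN' : l.length < N := by omega
  simp only [List.getElem?_append_right (le_refl l.length), Nat.sub_self, List.getElem?_cons_zero,
    List.getElem?_map, List.getElem?_range hN', Option.map_some, Option.some.injEq] at h0
  simp only [List.getElem?_append_right (Nat.le_add_right l.length 1), Nat.add_sub_cancel_left,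
    List.getElem?_cons_zero, List.getElem?_cons_succ,
    List.getElem?_map, List.getElem?_range hN, Option.map_some, Option.some.injEq] at h1
  refine ⟨hN, h0, h1, ?_⟩
  apply List.ext_getElem?
  intro j
  have hj := congrArg (fun t : List α => t[j]?) h
  simp only [List.getElem?_map] at hj ⊢
  rcases lt_or_ge j l.length with hlt | hge
  · rw [List.getElem?_append_left hlt] at hj ⊢
    rw [hj, List.getElem?_range (by omega), Option.map_some, Option.map_some, if_neg (by omega),
      if_neg (by omega)]
  · rw [List.getElem?_append_right hge] at hj ⊢
    obtain ⟨k, rfl⟩ := Nat.exists_eq_add_of_le hge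
    rw [Nat.add_sub_cancel_left] at hj ⊢
    rcases k with _ | _ | k
    · rw [List.getElem?_cons_zero, List.getElem?_range (by omega), Option.map_some,
        if_pos (by omega)]
    · rw [List.getElem?_cons_succ, List.getElem?_cons_zero, List.getElem?_range (by omega),
        Option.map_some, if_neg (by omega), if_pos (by omega)]
    · rw [List.getElem?_cons_succ, List.getElem?_cons_succ] at hj ⊢
      rw [hj]
      rcases lt_or_ge (l.length + (k + 1 + 1)) N with hk | hk
      · rw [List.getElem?_range hk, Option.map_some, Option.map_some, if_neg (by omega),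
          if_neg (by omega)]
      · rw [List.getElem?_eq_none (by rw [List.length_range]; exact hk)]
        rfl

end lists

section reach

variable {K V : Type*} [Field K] [AddCommGroup V] [Module K V]

/-- an element can be moved to the right -/
theorem reach_right (B : V →ₗ[K] V →ₗ[K] K) (a : V) : ∀ (w p v : List V),
    ∃ p', Reach B (p ++ a :: (w ++ v)) (p' ++ a :: v)
  | [], p, v => ⟨p, Relation.ReflTransGen.refl⟩
  | x :: w, p, v => by
    obtain ⟨p', h⟩ := reach_right B a w (p ++ [s B a x]) v
    refine ⟨p', Relation.ReflTransGen.head (Mv.fwd p (w ++ v) a x) ?_⟩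
    rw [List.append_assoc] at h
    exact h

/-- the two elements of a sublist can be made neighbours -/
theorem reach_adj {B : V →ₗ[K] V →ₗ[K] K} {t t' : List V} (h : Reach B t t') {a b : V}
    (hab : List.Sublist [a, b] t') : ∃ p v, Reach B t (p ++ a :: b :: v) := by
  obtain ⟨r₁, r₂, rfl, ha, hb⟩ := List.cons_sublist_iff.1 hab
  rw [List.singleton_sublist] at hb
  obtain ⟨p, q, rfl⟩ := List.append_of_mem ha
  obtain ⟨u, v, rfl⟩ := List.append_of_mem hb
  obtain ⟨p', hp⟩ := reach_right B a (q ++ u) p (b :: v)
  refine ⟨p', v, h.trans ?_⟩
  have e : p ++ a :: q ++ (u ++ b :: v) = p ++ a :: (q ++ u ++ b :: v) := by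
    simp only [List.append_assoc, List.cons_append]
  rw [e]
  exact hp

end reach

section inv

variable {F : Type*} [Group F] {n : ℕ}

/-- the quotients of neighbours are the images of a twisted chain -/
def Inv (c₀ : Fin n → F) (r : F →* SL) (t : List M2) : Prop :=
  ∃ (c : Fin n → F) (a : ℕ → SL), Twisted c₀ c ∧ (List.range (n + 1)).map (fun i => cm (a i)) = t ∧
    ∀ i (hi : i < n), a i = r (c ⟨i, hi⟩) * a (i + 1)

theorem Inv.step {c₀ : Fin n → F} {r : F →* SL} {t t' : List M2} (h : Inv c₀ r t)
    (hm : Mv BM t t') : Inv c₀ r t' := by
  obtain ⟨c, a, hc, ht, ha⟩ := h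
  rcases hm with ⟨l, m, x, y⟩ | ⟨l, m, x, y⟩
  · obtain ⟨hn, hx, hy, hl⟩ := list_update (fun i => cm (a i)) (n + 1) l m x y (s BM x y) x ht.symm
    have hi : l.length < n := by omega
    set i := l.length with hidef
    have hs : s BM x y = cm (a i * (a (i + 1))⁻¹ * a i) := by rw [hx, hy, s_cm_cm]
    let c' : Fin n → F := fun j =>
      if (j : ℕ) + 1 = i then c j * (c ⟨i, hi⟩)⁻¹ else if (j : ℕ) = i + 1 then c ⟨i, hi⟩ * c j
        else c j
    have hci : c' ⟨i, hi⟩ = c ⟨i, hi⟩ := by
      simp only [c']
      rw [if_neg (by omega), if_neg (by omega)]
    have htw : twist ⟨i, hi⟩ c' = c := by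
      funext j
      simp only [twist, hci]
      simp only [c']
      split_ifs with h1 h2 h3
      · rw [inv_mul_cancel_right]
      · rw [inv_mul_cancel_left]
      · rfl
    refine ⟨c', fun j => if j = i then a i * (a (i + 1))⁻¹ * a i else if j = i + 1 then a i else a j,
      Twisted.untwist ⟨i, hi⟩ (by rw [htw]; exact hc), ?_, ?_⟩
    · rw [hl]
      refine List.map_congr_left fun j _ => ?_
      simp only
      split_ifs with h1 h2
      · exact hs.symm
      · exact hx.symm
      · rfl
    · intro j hj
      have hai := ha i hi
      simp only
      by_cases h1 : j = i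
      · subst h1
        rw [if_pos rfl, if_neg (by omega), if_pos rfl, hci]
        rw [hai]
        group
      · rw [if_neg h1]
        by_cases h2 : j = i + 1
        · subst h2
          rw [if_pos rfl, if_neg (by omega), if_neg (by omega)]
          have h3 := ha (i + 1) hj
          simp only [c']
          rw [if_neg (by omega), if_pos trivial, map_mul, mul_assoc, ← h3, ← hai]
        · rw [if_neg h2]
          by_cases h3 : j + 1 = i
          · rw [if_pos h3]
            simp only [c']
            rw [if_pos h3, map_mul, map_inv]
            have h4 := ha j hj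
            rw [h3] at h4
            rw [h4, hai]
            group
          · rw [if_neg h3, if_neg (by omega)]
            simp only [c']
            rw [if_neg h3, if_neg (by omega)]
            exact ha j hj
  · obtain ⟨hn, hx, hy, hl⟩ := list_update (fun i => cm (a i)) (n + 1) l m x y y (s BM y x) ht.symm
    have hi : l.length < n := by omega
    set i := l.length with hidef
    have hs : s BM y x = cm (a (i + 1) * (a i)⁻¹ * a (i + 1)) := by rw [hx, hy, s_cm_cm]
    refine ⟨twist ⟨i, hi⟩ c, fun j => if j = i then a (i + 1) else if j = i + 1 then
      a (i + 1) * (a i)⁻¹ * a (i + 1) else a j, Twisted.twist ⟨i, hi⟩ hc, ?_, ?_⟩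
    · rw [hl]
      refine List.map_congr_left fun j _ => ?_
      simp only
      split_ifs with h1 h2
      · exact hy.symm
      · exact hs.symm
      · rfl
    · intro j hj
      have hai := ha i hi
      simp only
      by_cases h1 : j = i
      · subst h1
        rw [if_pos rfl, if_neg (by omega), if_pos rfl]
        simp only [twist]
        rw [if_neg (by omega), if_neg (by omega), hai]
        group
      · rw [if_neg h1]
        by_cases h2 : j = i + 1
        · subst h2
          rw [if_pos rfl, if_neg (by omega), if_neg (by omega)]
          have h3 := ha (i + 1) hj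
          simp only [twist]
          rw [if_neg (by omega), if_pos trivial, map_mul, map_inv, mul_assoc (r (c ⟨i, hi⟩))⁻¹, ← h3,
            hai]
          group
        · rw [if_neg h2]
          by_cases h3 : j + 1 = i
          · rw [if_pos h3]
            simp only [twist]
            rw [if_pos h3, map_mul]
            have h4 := ha j hj
            rw [h3] at h4
            rw [h4, hai]
            group
          · rw [if_neg h3, if_neg (by omega)]
            simp only [twist]
            rw [if_neg h3, if_neg (by omega)]
            exact ha j hj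

theorem Inv.reach {c₀ : Fin n → F} {r : F →* SL} {t t' : List M2} (h : Inv c₀ r t)
    (hr : Reach BM t t') : Inv c₀ r t' := by
  induction hr with
  | refl => exact h
  | tail _ hm ih => exact ih.step hm

/-- The pairings are traces of vanishing cycles. -/
theorem Inv.pair {c₀ : Fin n → F} {r : F →* SL} {t t' : List M2} (h : Inv c₀ r t)
    (hr : Reach BM t t') {a b : M2} (hab : List.Sublist [a, b] t') :
    ∃ x, IsVanishing c₀ x ∧ BM a b = (cm (r x)).trace := by
  obtain ⟨p, v, hpv⟩ := reach_adj hr hab
  obtain ⟨c, f, hc, ht, hf⟩ := h.reach hpv
  obtain ⟨hn, hx, hy, -⟩ := list_update (fun i => cm (f i)) (n + 1) p v a b a b ht.symm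
  have hi : p.length < n := by omega
  refine ⟨c ⟨p.length, hi⟩, ⟨c, hc, _, rfl⟩, ?_⟩
  rw [hx, hy, BM_cm, hf p.length hi, mul_inv_cancel_right]

end inv

end Pool.Agent.H2R
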