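import Pool.Agent.H2R.MB

/-!
# A finite stable set of matrices forces elements of finite order
-/

set_option autoImplicit false

namespace Pool.Agent.H2R

open Matrix

variable {n : ℕ}

/-- the linear map `X ↦ x X y⁻¹` -/
noncomputable def LR (x y : SL) : M2 →ₗ[ℂ] M2 where
  toFun X := cm x * X * cm y⁻¹
  map_add' X Y := by rw [Matrix.mul_add, Matrix.add_mul]
  map_smul' c X := by rw [Matrix.mul_smul, Matrix.smul_mul, RingHom.id_apply]

theorem LR_apply (x y : SL) (X : M2) : LR x y X = cm x * X * cm y⁻¹ := rfl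

theorem LR_one (X : M2) : LR 1 1 X = X := by
  rw [LR_apply, inv_one, cm_one, Matrix.one_mul, Matrix.mul_one]

theorem LR_mul (x y x' y' : SL) (X : M2) : LR (x * x') (y * y') X = LR x y (LR x' y' X) := by
  rw [LR_apply, LR_apply, LR_apply, cm_mul, _root_.mul_inv_rev, cm_mul]
  simp only [Matrix.mul_assoc]

theorem LR_injective (x y : SL) : Function.Injective (LR x y) := by
  intro X Y h
  have h1 := congrArg (LR x⁻¹ y⁻¹) h
  rw [← LR_mul, ← LR_mul, inv_mul_cancel, inv_mul_cancel, LR_one, LR_one] at h1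
  exact h1

/-- two reflections in a row -/
theorem LR_s (x y : SL) (X : M2) :
    LR (x * y⁻¹) (x⁻¹ * y) X = s BM (cm x) (s BM (cm y) X) := by
  rw [s_s, LR_apply, _root_.mul_inv_rev, inv_inv]

/-- A linear map of the form `X ↦ x X y⁻¹` is the identity only if `x ^ 2 = 1`. -/
theorem sq_of_LR {x y : SL} (h : ∀ X, LR x y X = X) : x ^ 2 = 1 := by
  have h1 : ∀ X : M2, cm x * X = X * cm y := by
    intro X
    have := congrArg (fun Z : M2 => Z * cm y) (h X)
    simp only [LR_apply, Matrix.mul_assoc, cm_inv_mul, Matrix.mul_one] at this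
    exact this
  have h2 : cm x = cm y := by
    have := h1 1
    rwa [Matrix.mul_one, Matrix.one_mul] at this
  exact sq_eq_one_of_comm x fun X => by rw [h1 X, h2]

/-- the elements of finite order: some power of a permutation of a finite set is the identity -/
theorem exists_iterate {α : Type*} {P : Set α} (hP : P.Finite) (f : α → α)
    (hf : Function.Injective f) (hfP : ∀ x ∈ P, f x ∈ P) : ∃ k : ℕ, 0 < k ∧ ∀ x ∈ P, f^[k] x = x := by
  have : Finite P := hP
  let g : P → P := fun x => ⟨f x, hfP x x.2⟩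
  have hg : Function.Injective g := fun x y h => by
    apply Subtype.ext
    exact hf (congrArg Subtype.val h)
  let e : Equiv.Perm P := Equiv.ofBijective g ((Finite.injective_iff_bijective).1 hg)
  obtain ⟨k, hk, hek⟩ := isOfFinOrder_iff_pow_eq_one.1 (isOfFinOrder_of_finite e)
  refine ⟨k, hk, fun x hx => ?_⟩
  have h1 : ∀ (j : ℕ) (y : P), (((e ^ j) y : P) : α) = f^[j] y := by
    intro j
    induction j with
    | zero => intro y; rfl
    | succ j ih =>
      intro y
      rw [pow_succ', Equiv.Perm.mul_apply, Function.iterate_succ_apply', ← ih y]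
      rfl
  have h2 := h1 k ⟨x, hx⟩
  rw [hek] at h2
  exact h2.symm

theorem LR_iterate (x y : SL) (k : ℕ) (X : M2) : (LR x y)^[k] X = LR (x ^ k) (y ^ k) X := by
  induction k generalizing X with
  | zero => rw [pow_zero, pow_zero, LR_one]; rfl
  | succ k ih => rw [Function.iterate_succ_apply', ih, pow_succ', pow_succ', LR_mul]

/-- **Finite order.** -/
theorem finite_order (r : FreeGroup (Fin n) →* SL) (a : ℕ → SL)
    (ha : ∀ i (hi : i < n), a i = r (FreeGroup.of ⟨i, hi⟩) * a (i + 1)) {P : Set M2} (hP : P.Finite)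
    (hPa : ∀ i ≤ n, cm (a i) ∈ P) (hPs : ∀ i ≤ n, ∀ X ∈ P, s BM (cm (a i)) X ∈ P)
    (hnd : ∀ X ∈ Submodule.span ℂ {b : M2 | ∃ i ≤ n, b = cm (a i)},
      (∀ Y ∈ Submodule.span ℂ {b : M2 | ∃ i ≤ n, b = cm (a i)}, BM X Y = 0) → X = 0)
    (x : FreeGroup (Fin n)) : IsOfFinOrder (r x) := by
  let r' : FreeGroup (Fin n) →* SL := FreeGroup.lift fun i => (a i)⁻¹ * a (i + 1)
  have hr' : ∀ i : Fin n, r' (FreeGroup.of i) = (a i)⁻¹ * a (i + 1) := fun i =>
    FreeGroup.lift_apply_of
  have hr : ∀ i : Fin n, r (FreeGroup.of i) = a i * (a (i + 1))⁻¹ := fun i => by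
    rw [ha i i.2, mul_inv_cancel_right]
  have hgen : ∀ (i : Fin n) (X : M2), LR (r (FreeGroup.of i)) (r' (FreeGroup.of i)) X =
      s BM (cm (a i)) (s BM (cm (a (i + 1))) X) := fun i X => by
    rw [hr, hr', LR_s]
  have hgen' : ∀ (i : Fin n) (X : M2),
      LR (r (FreeGroup.of i)⁻¹) (r' (FreeGroup.of i)⁻¹) X =
      s BM (cm (a (i + 1))) (s BM (cm (a i)) X) := fun i X => by
    rw [map_inv, map_inv, hr, hr', _root_.mul_inv_rev, _root_.mul_inv_rev, inv_inv, inv_inv, LR_s]
  -- the set `P` is stable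
  have hst : ∀ x, ∀ X ∈ P, LR (r x) (r' x) X ∈ P := by
    intro x
    refine FreeGroup.induction_on (C := fun x => ∀ X ∈ P, LR (r x) (r' x) X ∈ P) x ?_ ?_ ?_ ?_
    · intro X hX
      rw [map_one, map_one, LR_one]
      exact hX
    · intro i X hX
      have := hgen i X
      change LR (r (FreeGroup.of i)) (r' (FreeGroup.of i)) X ∈ P
      rw [this]
      exact hPs _ i.2.le _ (hPs _ i.2 _ hX)
    · intro i _ X hX
      have := hgen' i X
      change LR (r (FreeGroup.of i)⁻¹) (r' (FreeGroup.of i)⁻¹) X ∈ P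
      rw [this]
      exact hPs _ i.2 _ (hPs _ i.2.le _ hX)
    · intro y z hy hz X hX
      rw [map_mul, map_mul, LR_mul]
      exact hy _ (hz _ hX)
  -- the orthogonal complement is fixed
  have hor : ∀ x, ∀ Z : M2, (∀ i ≤ n, BM (cm (a i)) Z = 0) → LR (r x) (r' x) Z = Z := by
    intro x
    refine FreeGroup.induction_on
      (C := fun x => ∀ Z : M2, (∀ i ≤ n, BM (cm (a i)) Z = 0) → LR (r x) (r' x) Z = Z) x ?_ ?_ ?_ ?_
    · intro Z _
      rw [map_one, map_one, LR_one]
    · intro i Z hZ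
      change LR (r (FreeGroup.of i)) (r' (FreeGroup.of i)) Z = Z
      rw [hgen i Z, s_orth (hZ _ i.2), s_orth (by rw [map_neg, hZ _ i.2.le, neg_zero]), neg_neg]
    · intro i _ Z hZ
      change LR (r (FreeGroup.of i)⁻¹) (r' (FreeGroup.of i)⁻¹) Z = Z
      rw [hgen' i Z, s_orth (hZ _ i.2.le), s_orth (by rw [map_neg, hZ _ i.2, neg_zero]), neg_neg]
    · intro y z hy hz Z hZ
      rw [map_mul, map_mul, LR_mul, hz Z hZ, hy Z hZ]
  obtain ⟨k, hk, hkP⟩ := exists_iterate hP (LR (r x) (r' x)) (LR_injective _ _) (hst x)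
  set S := Submodule.span ℂ {b : M2 | ∃ i ≤ n, b = cm (a i)} with hS
  have hB : LinearMap.IsRefl BM := fun X Y h => by rw [BM_comm]; exact h
  have hcompl : IsCompl S (LinearMap.BilinForm.orthogonal BM S) := by
    refine LinearMap.BilinForm.isCompl_orthogonal_of_restrict_nondegenerate hB ?_
    refine LinearMap.IsRefl.nondegenerate_iff_separatingLeft ?_ |>.2 ?_
    · intro X Y h
      exact hB X Y h
    · intro X hX
      apply Subtype.ext
      exact hnd X X.2 fun Y hY => hX ⟨Y, hY⟩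
  have hid : ∀ X, LR (r x ^ k) (r' x ^ k) X = X := by
    intro X
    have hX : X ∈ S ⊔ LinearMap.BilinForm.orthogonal BM S := by
      rw [hcompl.sup_eq_top]
      exact Submodule.mem_top
    obtain ⟨Y, hY, Z, hZ, rfl⟩ := Submodule.mem_sup.1 hX
    rw [map_add]
    congr 1
    · refine Submodule.span_induction (p := fun Y _ => LR (r x ^ k) (r' x ^ k) Y = Y)
        ?_ ?_ ?_ ?_ hY
      · rintro _ ⟨i, hi, rfl⟩
        rw [← LR_iterate]
        exact hkP _ (hPa i hi)
      · exact map_zero _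
      · intro Y Y' _ _ h h'
        rw [map_add, h, h']
      · intro c Y _ h
        rw [map_smul, h]
    · rw [← map_pow, ← map_pow]
      refine hor (x ^ k) Z fun i hi => ?_
      exact hZ _ (Submodule.subset_span ⟨i, hi, rfl⟩)
  have h2 := sq_of_LR hid
  rw [← pow_mul] at h2
  exact isOfFinOrder_iff_pow_eq_one.2 ⟨k * 2, by omega, h2⟩

end Pool.Agent.H2R
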