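import Pool.Agent.H2R.MC

/-!
# A radical matrix gives a common eigenvector
-/

set_option autoImplicit false

namespace Pool.Agent.H2R

open Matrix

/-- `v` is an eigenvector of `A` -/
def EigV (v : Fin 2 → ℂ) (A : M2) : Prop := ∃ l : ℂ, A *ᵥ v = l • v

theorem EigV.mul {v : Fin 2 → ℂ} {A B : M2} (hA : EigV v A) (hB : EigV v B) : EigV v (A * B) := by
  obtain ⟨l, hl⟩ := hA
  obtain ⟨m, hm⟩ := hB
  exact ⟨m * l, by rw [← Matrix.mulVec_mulVec, hm, Matrix.mulVec_smul, hl, smul_smul]⟩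

theorem EigV.smul {v : Fin 2 → ℂ} {A : M2} (c : ℂ) (hA : EigV v A) : EigV v (c • A) := by
  obtain ⟨l, hl⟩ := hA
  exact ⟨c * l, by rw [Matrix.smul_mulVec, hl, smul_smul]⟩

theorem EigV.one (v : Fin 2 → ℂ) : EigV v (1 : M2) := ⟨1, by rw [Matrix.one_mulVec, one_smul]⟩

theorem EigV.inv {v : Fin 2 → ℂ} (hv : v ≠ 0) {A B : M2} (hBA : B * A = 1) (hA : EigV v A) :
    EigV v B := by
  obtain ⟨l, hl⟩ := hA
  have h1 : v = l • (B *ᵥ v) := by
    rw [← Matrix.mulVec_smul, ← hl, Matrix.mulVec_mulVec, hBA, Matrix.one_mulVec]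
  have hl0 : l ≠ 0 := by
    rintro rfl
    rw [zero_smul] at h1
    exact hv h1
  refine ⟨l⁻¹, ?_⟩
  rw [eq_inv_smul_iff₀ hl0]
  exact h1.symm

/-- the kernel of a nonzero singular matrix is a line -/
theorem ker_line {X : M2} (hX : X ≠ 0) {v w : Fin 2 → ℂ} (hv : v ≠ 0) (hXv : X *ᵥ v = 0)
    (hXw : X *ᵥ w = 0) : ∃ l : ℂ, w = l • v := by
  have hd : v 0 * w 1 - v 1 * w 0 = 0 := by
    by_contra hd
    apply hX
    ext i j
    have h1 := congrFun hXv i
    have h2 := congrFun hXw i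
    simp only [Matrix.mulVec, dotProduct, Fin.sum_univ_two, Pi.zero_apply] at h1 h2
    have h3 : (v 0 * w 1 - v 1 * w 0) * X i 0 = 0 := by linear_combination w 1 * h1 - v 1 * h2
    have h4 : (v 0 * w 1 - v 1 * w 0) * X i 1 = 0 := by linear_combination v 0 * h2 - w 0 * h1
    rw [Matrix.zero_apply]
    fin_cases j
    · exact (mul_eq_zero.1 h3).resolve_left hd
    · exact (mul_eq_zero.1 h4).resolve_left hd
  by_cases h0 : v 0 = 0
  · have h1 : v 1 ≠ 0 := by
      intro h1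
      apply hv
      ext i
      fin_cases i
      · exact h0
      · exact h1
    refine ⟨w 1 / v 1, ?_⟩
    ext i
    rw [Pi.smul_apply, smul_eq_mul]
    fin_cases i
    · change w 0 = w 1 / v 1 * v 0
      rw [h0, zero_mul, zero_sub, neg_eq_zero] at hd
      rw [h0, mul_zero]
      exact (mul_eq_zero.1 hd).resolve_left h1
    · change w 1 = w 1 / v 1 * v 1
      rw [div_mul_cancel₀ _ h1]
  · refine ⟨w 0 / v 0, ?_⟩
    ext i
    rw [Pi.smul_apply, smul_eq_mul]
    fin_cases i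
    · change w 0 = w 0 / v 0 * v 0
      rw [div_mul_cancel₀ _ h0]
    · change w 1 = w 0 / v 0 * v 1
      field_simp
      linear_combination hd

theorem sq_zero {X : M2} (ht : X.trace = 0) (hd : X.det = 0) : X * X = 0 := by
  have h := mul_adj_mul 1 X
  rw [adjugate_one, Matrix.mul_one, BM_apply, Matrix.mul_one, ht, hd, zero_mul, zero_sub, neg_zero,
    zero_smul, zero_smul, sub_zero] at h
  exact h

/-- A matrix in the radical gives a common eigenvector. -/
theorem exists_eigenvector {n : ℕ} {a : ℕ → SL} (han : a n = 1) {X : M2} (hX : X ≠ 0)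
    (hXX : BM X X = 0) (hXa : ∀ i ≤ n, BM X (cm (a i)) = 0) :
    ∃ v : Fin 2 → ℂ, v ≠ 0 ∧ ∀ i ≤ n, EigV v (cm (a i)) := by
  have hd : X.det = 0 := by
    rw [BM_self] at hXX
    exact (mul_eq_zero.1 hXX).resolve_left two_ne_zero
  have htr : X.trace = 0 := by
    have := hXa n le_rfl
    rwa [han, cm_one, BM_adj, adjugate_one, Matrix.mul_one] at this
  have hsq := sq_zero htr hd
  obtain ⟨u, hu⟩ : ∃ u, X *ᵥ u ≠ 0 := by
    by_contra h
    push Not at h
    apply hX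
    apply Matrix.ext_of_mulVec_single
    intro i
    rw [h, Matrix.zero_mulVec]
  refine ⟨X *ᵥ u, hu, fun i hi => ?_⟩
  have h1 : X * cm (a i)⁻¹ * (X * cm (a i)⁻¹) = 0 := by
    apply sq_zero
    · rw [cm_inv, ← BM_adj]
      exact hXa i hi
    · rw [Matrix.det_mul, hd, zero_mul]
  have h2 : X * cm (a i)⁻¹ * X = 0 := by
    have h3 := congrArg (fun Z : M2 => Z * cm (a i)) h1
    simp only [Matrix.zero_mul] at h3
    rw [← h3]
    simp only [Matrix.mul_assoc, cm_inv_mul, Matrix.mul_one]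
  have h3 : X *ᵥ (X *ᵥ u) = 0 := by rw [Matrix.mulVec_mulVec, hsq, Matrix.zero_mulVec]
  have h4 : X *ᵥ (cm (a i)⁻¹ *ᵥ (X *ᵥ u)) = 0 := by
    rw [Matrix.mulVec_mulVec, Matrix.mulVec_mulVec, h2, Matrix.zero_mulVec]
  exact EigV.inv hu (cm_mul_inv (a i)) (ker_line hX hu h3 h4)

end Pool.Agent.H2R
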