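import Pool.Agent.H2R.MD
import Pool.Agent.PWT.Main

/-!
# The irreducible case
-/

set_option autoImplicit false

namespace Pool.Agent.H2R

open Matrix

variable {G : Type*} [Group G] {n : ℕ}

/-- a root of unity -/
def RU (z : ℂ) : Prop := ∃ k : ℕ, 0 < k ∧ z ^ k = 1

theorem RU.mul {z w : ℂ} (hz : RU z) (hw : RU w) : RU (z * w) := by
  obtain ⟨k, hk, hz⟩ := hz
  obtain ⟨l, hl, hw⟩ := hw
  refine ⟨k * l, Nat.mul_pos hk hl, ?_⟩
  rw [mul_pow, pow_mul, hz, one_pow, mul_comm k l, pow_mul, hw, one_pow, one_mul]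

theorem RU.inv {z : ℂ} (hz : RU z) : RU z⁻¹ := by
  obtain ⟨k, hk, hz⟩ := hz
  exact ⟨k, hk, by rw [inv_pow, hz, inv_one]⟩

theorem RU.one : RU 1 := ⟨1, one_pos, one_pow 1⟩

theorem RU.ne_zero {z : ℂ} (hz : RU z) : z ≠ 0 := by
  rintro rfl
  obtain ⟨k, hk, hz⟩ := hz
  rw [zero_pow hk.ne'] at hz
  exact zero_ne_one hz

theorem RU.of_sq {z : ℂ} (hz : RU (z ^ 2)) : RU z := by
  obtain ⟨k, hk, hz⟩ := hz
  exact ⟨2 * k, by omega, by rw [pow_mul, hz]⟩

theorem Quasi.det {A : M2} (h : Quasi A) : RU A.det := by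
  obtain ⟨z, w, hz, hw, -, hd⟩ := PWT.exists_eigenvalues A
  rw [hd]
  exact RU.mul (h z hz) (h w hw)

theorem isRoot_smul {A : M2} {z : ℂ} (hz : A.charpoly.IsRoot z) (c : ℂ) :
    (c • A).charpoly.IsRoot (c * z) := by
  rw [Polynomial.IsRoot, Matrix.eval_charpoly] at hz ⊢
  have : scalar (Fin 2) (c * z) - c • A = c • (scalar (Fin 2) z - A) := by
    rw [smul_sub]
    congr 1
    ext i j
    simp [Matrix.scalar_apply, Matrix.diagonal_apply]
  rw [this, Matrix.det_smul, hz, mul_zero]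

theorem isRoot_of_eigV {A : M2} {v : Fin 2 → ℂ} (hv : v ≠ 0) {l : ℂ} (h : A *ᵥ v = l • v) :
    A.charpoly.IsRoot l := by
  rw [Polynomial.IsRoot, Matrix.eval_charpoly]
  refine Matrix.exists_mulVec_eq_zero_iff.1 ⟨v, hv, ?_⟩
  rw [Matrix.sub_mulVec, h, sub_eq_zero]
  ext i
  simp [Matrix.scalar_apply, Matrix.mulVec_diagonal]

/-- determinants are roots of unity -/
theorem det_RU (c : Fin n → G) (ρ : G →* GL (Fin 2) ℂ) (hc : Subgroup.closure (Set.range c) = ⊤)
    (h : ∀ i, Quasi (ρ (c i) : M2)) (x : G) : RU (ρ x : M2).det := by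
  have hx : x ∈ Subgroup.closure (Set.range c) := by rw [hc]; exact Subgroup.mem_top x
  induction hx using Subgroup.closure_induction with
  | mem y hy =>
    obtain ⟨v, rfl⟩ := hy
    exact (h v).det
  | one => rw [map_one, Units.val_one, Matrix.det_one]; exact RU.one
  | mul y z _ _ hy hz => rw [map_mul, Units.val_mul, Matrix.det_mul]; exact hy.mul hz
  | inv y _ hy =>
    have h1 : (ρ y⁻¹ : M2).det * (ρ y : M2).det = 1 := by
      rw [← Matrix.det_mul, ← Units.val_mul, ← map_mul, inv_mul_cancel, map_one, Units.val_one,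
        Matrix.det_one]
    rw [eq_inv_of_mul_eq_one_left h1]
    exact hy.inv

/-- reduction to determinant one -/
theorem exists_SL (c : Fin n → G) (ρ : G →* GL (Fin 2) ℂ) :
    ∃ (r : FreeGroup (Fin n) →* SL) (χ : FreeGroup (Fin n) →* ℂˣ), ∀ w,
      (ρ (FreeGroup.lift c w) : M2) = (χ w : ℂ) • cm (r w) := by
  have h1 : ∀ i : Fin n, ∃ d : ℂˣ, (ρ (c i) : M2).det = (d : ℂ) ^ 2 := by
    intro i
    obtain ⟨d, hd⟩ := IsAlgClosed.exists_pow_nat_eq (ρ (c i) : M2).det (n := 2) two_pos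
    have hne : (ρ (c i) : M2).det ≠ 0 := by
      have := (ρ (c i)).isUnit
      rw [Matrix.isUnit_iff_isUnit_det] at this
      exact this.ne_zero
    have hd0 : d ≠ 0 := by
      rintro rfl
      rw [zero_pow two_ne_zero] at hd
      exact hne hd.symm
    exact ⟨Units.mk0 d hd0, hd.symm⟩
  choose d hd using h1
  have h2 : ∀ i : Fin n, (((d i)⁻¹ : ℂˣ) : ℂ) ^ 2 * (ρ (c i) : M2).det = 1 := by
    intro i
    rw [hd, ← mul_pow, Units.inv_mul, one_pow]
  let A : Fin n → SL := fun i => ⟨(((d i)⁻¹ : ℂˣ) : ℂ) • (ρ (c i) : M2), by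
    rw [Matrix.det_smul, Fintype.card_fin]
    exact h2 i⟩
  refine ⟨FreeGroup.lift A, FreeGroup.lift d, fun w => ?_⟩
  have hof : ∀ i : Fin n, (ρ (c i) : M2) = (d i : ℂ) • cm (A i) := by
    intro i
    change (ρ (c i) : M2) = (d i : ℂ) • ((((d i)⁻¹ : ℂˣ) : ℂ) • (ρ (c i) : M2))
    rw [smul_smul, Units.mul_inv, one_smul]
  refine FreeGroup.induction_on (C := fun w => (ρ (FreeGroup.lift c w) : M2) =
    ((FreeGroup.lift d w : ℂˣ) : ℂ) • cm (FreeGroup.lift A w)) w ?_ ?_ ?_ ?_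
  · rw [map_one, map_one, map_one, map_one, Units.val_one, Units.val_one, cm_one, one_smul]
  · intro i
    have := hof i
    change (ρ (FreeGroup.lift c (FreeGroup.of i)) : M2) =
      ((FreeGroup.lift d (FreeGroup.of i) : ℂˣ) : ℂ) • cm (FreeGroup.lift A (FreeGroup.of i))
    rw [FreeGroup.lift_apply_of, FreeGroup.lift_apply_of, FreeGroup.lift_apply_of]
    exact this
  · intro i _
    have := hof i
    change (ρ (FreeGroup.lift c (FreeGroup.of i)⁻¹) : M2) =
      ((FreeGroup.lift d (FreeGroup.of i)⁻¹ : ℂˣ) : ℂ) • cm (FreeGroup.lift A (FreeGroup.of i)⁻¹)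
    rw [map_inv, map_inv, map_inv, map_inv, FreeGroup.lift_apply_of, FreeGroup.lift_apply_of,
      FreeGroup.lift_apply_of]
    have h3 : (ρ (c i) : M2) * ((((d i)⁻¹ : ℂˣ) : ℂ) • cm (A i)⁻¹) = 1 := by
      rw [this, Matrix.smul_mul, Matrix.mul_smul, smul_smul, cm_mul_inv, Units.mul_inv, one_smul]
    have h4 : ((ρ (c i))⁻¹ : GL (Fin 2) ℂ).1 * (ρ (c i) : M2) = 1 := by
      rw [← Units.val_mul, inv_mul_cancel, Units.val_one]
    calc ((ρ (c i))⁻¹ : GL (Fin 2) ℂ).1
        = ((ρ (c i))⁻¹ : GL (Fin 2) ℂ).1 *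
          ((ρ (c i) : M2) * ((((d i)⁻¹ : ℂˣ) : ℂ) • cm (A i)⁻¹)) := by rw [h3, Matrix.mul_one]
      _ = (((d i)⁻¹ : ℂˣ) : ℂ) • cm (A i)⁻¹ := by
          rw [← Matrix.mul_assoc, h4, Matrix.one_mul]
  · intro x y hx hy
    rw [map_mul, map_mul, map_mul, map_mul, Units.val_mul, hx, hy, Units.val_mul, cm_mul,
      Matrix.smul_mul, Matrix.mul_smul, smul_smul]

theorem twist_map {F : Type*} [Group F] (f : F →* G) (i : Fin n) (c : Fin n → F) :
    (fun j => f (twist i c j)) = twist i (fun j => f (c j)) := by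
  funext j
  simp only [twist]
  split_ifs
  · rw [map_mul]
  · rw [map_mul, map_inv]
  · rfl

theorem Twisted.map {F : Type*} [Group F] (f : F →* G) {c c' : Fin n → F} (h : Twisted c c') :
    Twisted (fun j => f (c j)) (fun j => f (c' j)) := by
  induction h with
  | refl => exact Twisted.refl
  | twist i _ ih =>
    rw [twist_map]
    exact Twisted.twist i ih
  | untwist i _ ih =>
    rw [twist_map] at ih
    exact Twisted.untwist i ih

theorem IsVanishing.map {F : Type*} [Group F] (f : F →* G) {c : Fin n → F} {x : F}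
    (h : IsVanishing c x) : IsVanishing (fun j => f (c j)) (f x) := by
  obtain ⟨c', hc', i, rfl⟩ := h
  exact ⟨_, hc'.map f, i, rfl⟩

theorem exists_seq {H : Type*} [Group H] (x : Fin n → H) :
    ∃ a : ℕ → H, a n = 1 ∧ ∀ i (hi : i < n), a i = x ⟨i, hi⟩ * a (i + 1) := by
  refine ⟨fun i => (((List.finRange n).drop i).map x).prod, ?_, fun i hi => ?_⟩
  · simp only
    rw [List.drop_eq_nil_of_le (by rw [List.length_finRange]), List.map_nil, List.prod_nil]
  · simp only
    rw [List.drop_eq_getElem_cons (by rw [List.length_finRange]; exact hi), List.map_cons,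
      List.prod_cons, List.getElem_finRange]
    rfl

/-- **The irreducible case.** -/
theorem irreducible_case (hF : St_F) (c : Fin n → G) (ρ : G →* GL (Fin 2) ℂ) (hn : 4 ≤ n)
    (hc : Subgroup.closure (Set.range c) = ⊤) (hv : ∀ x, IsVanishing c x → Quasi (ρ x : M2))
    (hirr : ¬ ∃ v : Fin 2 → ℂ, v ≠ 0 ∧ ∀ x, EigV v (ρ x : M2)) (x : G) :
    IsOfFinOrder (ρ x) := by
  have hdet := det_RU c ρ hc fun i => hv _ ⟨c, Twisted.refl, i, rfl⟩
  obtain ⟨r, χ, hr⟩ := exists_SL c ρ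
  have hχ : ∀ w, RU (χ w : ℂ) := by
    intro w
    have h1 := hdet (FreeGroup.lift c w)
    rw [hr w, Matrix.det_smul, cm_det, mul_one, Fintype.card_fin] at h1
    exact h1.of_sq
  let r' : FreeGroup (Fin n) →* GL (Fin 2) ℂ := Matrix.SpecialLinearGroup.toGL.comp r
  have hr' : ∀ w, (r' w : M2) = cm (r w) := fun w => rfl
  obtain ⟨M, hM, hMz⟩ := PWT.exists_order (FreeGroup.of : Fin n → FreeGroup (Fin n))
    (FreeGroup.closure_range_of _) r'
  have hvan : ∀ w, IsVanishing (FreeGroup.of : Fin n → FreeGroup (Fin n)) w →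
      ∃ ζ : ℂ, ζ ^ M = 1 ∧ (cm (r w)).trace = ζ + ζ⁻¹ := by
    intro w hw
    have h1 : IsVanishing c (FreeGroup.lift c w) := by
      have := hw.map (FreeGroup.lift c)
      have h2 : (fun j => FreeGroup.lift c (FreeGroup.of j)) = c := by
        funext j
        exact FreeGroup.lift_apply_of
      rwa [h2] at this
    have h2 := hv _ h1
    obtain ⟨z, z', hz, -, ht, hd⟩ := PWT.exists_eigenvalues (cm (r w))
    have h3 := isRoot_smul hz (χ w : ℂ)
    rw [← hr] at h3
    have h4 : RU z := by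
      have h5 := (hχ w).inv.mul (h2 _ h3)
      rwa [inv_mul_cancel_left₀ (hχ w).ne_zero] at h5
    refine ⟨z, hMz w z ?_ h4, ?_⟩
    · rw [hr']
      exact hz
    · rw [ht]
      congr 1
      rw [cm_det] at hd
      exact eq_inv_of_mul_eq_one_right hd.symm
  obtain ⟨a, han, ha⟩ := exists_seq fun i : Fin n => r (FreeGroup.of i)
  set t : List M2 := (List.range (n + 1)).map (fun i => cm (a i)) with ht
  have hmem : ∀ b : M2, b ∈ t ↔ ∃ i ≤ n, b = cm (a i) := by
    intro b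
    rw [ht, List.mem_map]
    constructor
    · rintro ⟨i, hi, rfl⟩
      exact ⟨i, Nat.lt_succ_iff.1 (List.mem_range.1 hi), rfl⟩
    · rintro ⟨i, hi, rfl⟩
      exact ⟨i, List.mem_range.2 (Nat.lt_succ_iff.2 hi), rfl⟩
  have hset : {b : M2 | b ∈ t} = {b : M2 | ∃ i ≤ n, b = cm (a i)} := Set.ext hmem
  have hinv : Inv (FreeGroup.of : Fin n → FreeGroup (Fin n)) r t :=
    ⟨_, a, Twisted.refl, ht.symm, ha⟩
  have hnd : ∀ X ∈ Submodule.span ℂ {b : M2 | ∃ i ≤ n, b = cm (a i)},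
      (∀ Y ∈ Submodule.span ℂ {b : M2 | ∃ i ≤ n, b = cm (a i)}, BM X Y = 0) → X = 0 := by
    intro X hX hXY
    by_contra hX0
    obtain ⟨v, hv0, hva⟩ := exists_eigenvector han hX0 (hXY X hX)
      fun i hi => hXY _ (Submodule.subset_span ⟨i, hi, rfl⟩)
    refine hirr ⟨v, hv0, fun y => ?_⟩
    have hy : y ∈ Subgroup.closure (Set.range c) := by rw [hc]; exact Subgroup.mem_top y
    induction hy using Subgroup.closure_induction with
    | mem y hy =>
      obtain ⟨i, rfl⟩ := hy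
      have h1 := hr (FreeGroup.of i)
      rw [FreeGroup.lift_apply_of] at h1
      rw [h1]
      refine EigV.smul _ ?_
      have h2 : r (FreeGroup.of i) = a i * (a (i + 1))⁻¹ := by
        rw [ha i i.2, mul_inv_cancel_right]
      rw [h2, cm_mul]
      exact (hva i i.2.le).mul (EigV.inv hv0 (cm_inv_mul _) (hva (i + 1) i.2))
    | one => rw [map_one, Units.val_one]; exact EigV.one v
    | mul y z _ _ hy hz => rw [map_mul, Units.val_mul]; exact hy.mul hz
    | inv y _ hy =>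
      refine EigV.inv hv0 ?_ hy
      rw [← Units.val_mul, ← map_mul, inv_mul_cancel, map_one, Units.val_one]
  obtain ⟨P, hP, hPa, hPs⟩ := hF M2 BM t M (by rw [Module.finrank_matrix]; simp) BM_comm
    (by rw [hset]; exact hnd) (by rw [ht, List.length_map, List.length_range]; omega)
    (by
      intro b hb
      obtain ⟨i, -, rfl⟩ := (hmem b).1 hb
      rw [BM_self, cm_det, mul_one]) hM
    (by
      intro t' ht' b b' hbb
      obtain ⟨w, hw, hbw⟩ := hinv.pair ht' hbb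
      rw [hbw]
      exact hvan w hw)
  have hfin := finite_order r a ha hP (fun i hi => hPa _ ((hmem _).2 ⟨i, hi, rfl⟩))
    (fun i hi => hPs _ ((hmem _).2 ⟨i, hi, rfl⟩)) hnd
  obtain ⟨w, rfl⟩ : ∃ w, FreeGroup.lift c w = x := by
    have : x ∈ (FreeGroup.lift c).range := by
      rw [FreeGroup.range_lift_eq_closure, hc]
      exact Subgroup.mem_top x
    exact this
  obtain ⟨k, hk, hkw⟩ := isOfFinOrder_iff_pow_eq_one.1 (hfin w)
  obtain ⟨l, hl, hlw⟩ := hχ w
  refine isOfFinOrder_iff_pow_eq_one.2 ⟨k * l, Nat.mul_pos hk hl, ?_⟩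
  rw [← map_pow, ← map_pow]
  apply Units.ext
  rw [hr, map_pow, map_pow, pow_mul (r w), hkw, one_pow, cm_one, Units.val_pow_eq_pow_val,
    mul_comm k l, pow_mul, hlw, one_pow, one_smul, Units.val_one]

end Pool.Agent.H2R
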