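import Pool.Agent.H2R.Four

/-!
# Theorem R: positivity
-/

set_option autoImplicit false
set_option linter.unusedSimpArgs false

namespace Pool.Agent.H2R

theorem sub2 {α : Type*} (t : List α) (f : Fin 2 → Fin t.length) (hf : StrictMono f) :
    List.Sublist [t.get (f 0), t.get (f 1)] t := by
  rw [List.sublist_iff_exists_fin_orderEmbedding_get_eq]
  refine ⟨OrderEmbedding.ofStrictMono (fun i : Fin 2 => f i) hf, ?_⟩
  intro i
  match i with
  | ⟨0, _⟩ => rfl
  | ⟨1, _⟩ => rfl

theorem sub3 {α : Type*} (t : List α) (f : Fin 3 → Fin t.length) (hf : StrictMono f) :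
    List.Sublist [t.get (f 0), t.get (f 1), t.get (f 2)] t := by
  rw [List.sublist_iff_exists_fin_orderEmbedding_get_eq]
  refine ⟨OrderEmbedding.ofStrictMono (fun i : Fin 3 => f i) hf, ?_⟩
  intro i
  match i with
  | ⟨0, _⟩ => rfl
  | ⟨1, _⟩ => rfl
  | ⟨2, _⟩ => rfl

theorem sub4 {α : Type*} (t : List α) (f : Fin 4 → Fin t.length) (hf : StrictMono f) :
    List.Sublist [t.get (f 0), t.get (f 1), t.get (f 2), t.get (f 3)] t := by
  rw [List.sublist_iff_exists_fin_orderEmbedding_get_eq]
  refine ⟨OrderEmbedding.ofStrictMono (fun i : Fin 4 => f i) hf, ?_⟩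
  intro i
  match i with
  | ⟨0, _⟩ => rfl
  | ⟨1, _⟩ => rfl
  | ⟨2, _⟩ => rfl
  | ⟨3, _⟩ => rfl

theorem thm_R (hPos : St_Pos) (hLor : St_Lor) : St_R := by
  intro V _ _ _ B t F hd4 hs hnd h5 hspan hn hF hF2 hpair
  have hv : Submodule.span ℝ (Set.range t.get) = ⊤ := by
    rw [← hspan]
    have : Set.range t.get = {a | a ∈ t} := by
      ext a
      simp only [Set.mem_range, Set.mem_ofPred_eq, List.mem_iff_get]
    rw [this]
  refine hPos V B t.length t.get hd4 hs hnd hv ?_
  intro k f hk hf
  have hnf : ∀ i, B (t.get i) (t.get i) = 2 := fun i => hn _ (List.get_mem t i)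
  have hpr : ∀ a b, List.Sublist [a, b] t → |B a b| ≤ 2 := fun a b hab =>
    hF2 _ (hpair t (Reach.refl _) a b hab)
  have h3 : ∀ a b c, List.Sublist [a, b, c] t →
      B a b ^ 2 + B b c ^ 2 + B a c ^ 2 - B a b * B b c * B a c ≤ 4 := fun a b c habc =>
    three hs hn hF hF2 hpair (Adm.of_sublist habc)
  interval_cases k
  · rw [Matrix.det_isEmpty]
    exact zero_le_one
  · rw [Matrix.det_fin_one]
    simp only [Matrix.of_apply, hnf]
    norm_num
  · have h := hpr _ _ (sub2 t f hf)
    rw [Matrix.det_fin_two]
    simp only [Matrix.of_apply, hnf]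
    rw [hs (t.get (f 1)) (t.get (f 0))]
    nlinarith [abs_le.1 h]
  · have h := h3 _ _ _ (sub3 t f hf)
    rw [Matrix.det_fin_three]
    simp only [Matrix.of_apply, hnf]
    rw [hs (t.get (f 1)) (t.get (f 0)), hs (t.get (f 2)) (t.get (f 0)),
      hs (t.get (f 2)) (t.get (f 1))]
    nlinarith [h]
  · by_contra hneg
    push Not at hneg
    have hsub := sub4 t f hf
    set a := t.get (f 0) with hadef
    set b := t.get (f 1) with hbdef
    set c := t.get (f 2) with hcdef
    set d := t.get (f 3) with hddef
    have ha : B a a = 2 := hnf _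
    have hb : B b b = 2 := hnf _
    have hc : B c c = 2 := hnf _
    have hd : B d d = 2 := hnf _
    have hmat : (Matrix.of fun i j => B (t.get (f i)) (t.get (f j))) =
        Matrix.of fun i j => B (![a, b, c, d] i) (![a, b, c, d] j) := by
      ext i j
      have : ∀ i : Fin 4, t.get (f i) = ![a, b, c, d] i := by
        intro i
        fin_cases i <;> rfl
      simp only [Matrix.of_apply, this]
    rw [hmat] at hneg
    have hli : LinearIndependent ℝ ![a, b, c, d] := by
      rw [Fintype.linearIndependent_iff]
      intro g hg
      have h1 : (Matrix.of fun i j => B (![a, b, c, d] i) (![a, b, c, d] j)).mulVec g = 0 := by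
        funext i
        simp only [Matrix.mulVec, dotProduct, Matrix.of_apply, Pi.zero_apply]
        have h2 : B (![a, b, c, d] i) (∑ j, g j • ![a, b, c, d] j) = 0 := by rw [hg, map_zero]
        rw [map_sum] at h2
        rw [← h2]
        refine Finset.sum_congr rfl fun j _ => ?_
        rw [map_smul, smul_eq_mul, mul_comm]
      have h2 := Matrix.eq_zero_of_mulVec_eq_zero hneg.ne h1
      intro i
      rw [h2]
      rfl
    have hdim : Module.finrank ℝ V = 4 := by
      refine le_antisymm hd4 ?_
      have := hli.fintype_card_le_finrank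
      simpa using this
    have sab := (show List.Sublist [a, b] [a, b, c, d] by simp).trans hsub
    have sac := (show List.Sublist [a, c] [a, b, c, d] by simp).trans hsub
    have sad := (show List.Sublist [a, d] [a, b, c, d] by simp).trans hsub
    have sbc := (show List.Sublist [b, c] [a, b, c, d] by simp).trans hsub
    have sbd := (show List.Sublist [b, d] [a, b, c, d] by simp).trans hsub
    have scd := (show List.Sublist [c, d] [a, b, c, d] by simp).trans hsub
    have sabc := (show List.Sublist [a, b, c] [a, b, c, d] by simp).trans hsub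
    have sabd := (show List.Sublist [a, b, d] [a, b, c, d] by simp).trans hsub
    have sacd := (show List.Sublist [a, c, d] [a, b, c, d] by simp).trans hsub
    have sbcd := (show List.Sublist [b, c, d] [a, b, c, d] by simp).trans hsub
    obtain ⟨e₀, he1, he2⟩ := hLor V B a b c d hdim hs hli ha hb hc hd
      (by
        have q1 := hpr _ _ sab
        have q2 := hpr _ _ sac
        have q3 := hpr _ _ sad
        have q4 := hpr _ _ sbc
        have q5 := hpr _ _ sbd
        have q6 := hpr _ _ scd
        rintro x (rfl | rfl | rfl | rfl) y (rfl | rfl | rfl | rfl)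
        all_goals
          try simp only [hs b a, hs c a, hs d a, hs c b, hs d b, hs d c, ha, hb, hc, hd]
          first
          | assumption
          | norm_num)
      (by
        have q1 := h3 _ _ _ sabc
        have q2 := h3 _ _ _ sabd
        have q3 := h3 _ _ _ sacd
        have q4 := h3 _ _ _ sbcd
        rintro x (rfl | rfl | rfl | rfl) y (rfl | rfl | rfl | rfl) z (rfl | rfl | rfl | rfl)
        all_goals
          try simp only [hs b a, hs c a, hs d a, hs c b, hs d b, hs d c, ha, hb, hc, hd]
          linarith)
      hneg
    have C : Ctx B e₀ t F :=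
      { lor := { symm := hs, neg := he1, pos := he2 }
        dim := hdim
        nrm := hn
        fin := hF
        le2 := hF2
        pair := hpair }
    have hgood : Good B a b c d := by
      intro x xa xb xc xd
      refine hnd x fun y => ?_
      have htop : Submodule.span ℝ (Set.range ![a, b, c, d]) = ⊤ :=
        hli.span_eq_top_of_card_eq_finrank (by simp [hdim])
      have hy : y ∈ Submodule.span ℝ (Set.range ![a, b, c, d]) := by rw [htop]; trivial
      induction hy using Submodule.span_induction with
      | mem z hz =>
        obtain ⟨i, rfl⟩ := hz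
        rw [hs]
        fin_cases i
        · exact xa
        · exact xb
        · exact xc
        · exact xd
      | zero => rw [map_zero]
      | add p q _ _ hp hq => rw [map_add, hp, hq, add_zero]
      | smul r p _ hp => rw [map_smul, hp, smul_zero]
    have hA : Adm B t [a, b, c, d] := Adm.of_sublist hsub
    obtain ⟨e, he⟩ := hA.ext (show 4 < t.length from h5)
    exact four C he hgood

end Pool.Agent.H2R
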