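import Pool.Agent.H2R.Final

/-!
# The main theorem, final form: unipotent on a subgroup of finite index
-/

set_option autoImplicit false
set_option linter.unusedSimpArgs false

namespace Pool.Agent.H2R

open Matrix

variable {G : Type*} [Group G] {n : ℕ}

/-- Cayley–Hamilton for a matrix of trace two and determinant one. -/
theorem sub_one_sq {A : M2} (ht : A.trace = 2) (hd : A.det = 1) : (A - 1) ^ 2 = 0 := by
  rw [Matrix.trace_fin_two] at ht
  rw [Matrix.det_fin_two] at hd
  rw [pow_two]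
  ext i j
  fin_cases i <;> fin_cases j <;>
    simp only [Fin.zero_eta, Fin.isValue, Fin.mk_one, Matrix.mul_apply, Fin.sum_univ_two,
      Matrix.sub_apply, Matrix.one_apply_eq, ne_eq, one_ne_zero, not_false_eq_true, zero_ne_one,
      Matrix.one_apply_ne, sub_zero, Matrix.zero_apply]
  · have : A 1 1 = 2 - A 0 0 := by linear_combination ht
    rw [this] at hd
    linear_combination -hd
  · linear_combination (A 0 1) * ht
  · linear_combination (A 1 0) * ht
  · have : A 0 0 = 2 - A 1 1 := by linear_combination ht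
    rw [this] at hd
    linear_combination -hd

/-- A homomorphism to the units whose values satisfy `z ^ N = 1` has a kernel of finite index. -/
theorem finiteIndex_ker_of_pow {f : G →* ℂˣ} {N : ℕ} (hN : 0 < N) (h : ∀ x, (f x : ℂ) ^ N = 1) :
    f.ker.FiniteIndex := by
  have h1 : (Set.range f).Finite := by
    have h2 : {z : ℂ | z ^ N = 1}.Finite := PWT.finite_roots hN
    refine Set.Finite.of_finite_image (f := fun u : ℂˣ => (u : ℂ)) (h2.subset ?_)
      (Units.val_injective.injOn)
    rintro _ ⟨_, ⟨x, rfl⟩, rfl⟩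
    exact h x
  have : Finite f.range := h1.to_subtype
  exact Subgroup.finiteIndex_ker f

/-- the character on a common eigenvector -/
theorem exists_char (ρ : G →* GL (Fin 2) ℂ) {v : Fin 2 → ℂ} (hv : v ≠ 0)
    (h : ∀ x, ∃ l, RU l ∧ (ρ x : M2) *ᵥ v = l • v) :
    ∃ α : G →* ℂˣ, ∀ x, (ρ x : M2) *ᵥ v = (α x : ℂ) • v ∧ RU (α x : ℂ) := by
  choose l hl hlv using h
  have huniq : ∀ a b : ℂ, a • v = b • v → a = b := fun a b hab => smul_left_injective ℂ hv hab
  have hmul : ∀ x y, l (x * y) = l x * l y := by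
    intro x y
    apply huniq
    rw [← hlv, map_mul, Units.val_mul, ← Matrix.mulVec_mulVec, hlv, Matrix.mulVec_smul, hlv,
      smul_smul, mul_comm]
  have hone : l 1 = 1 := by
    apply huniq
    rw [← hlv, map_one, Units.val_one, Matrix.one_mulVec, one_smul]
  refine ⟨{ toFun := fun x => Units.mk0 (l x) (hl x).ne_zero
            map_one' := Units.ext (by simpa using hone)
            map_mul' := fun x y => Units.ext (by simpa using hmul x y) }, fun x => ⟨hlv x, hl x⟩⟩

/-- If all eigenvalues are roots of unity and the image is finite or there is a common eigenvector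
then the representation is unipotent on a normal subgroup of finite index. -/
theorem virt (c : Fin n → G) (ρ : G →* GL (Fin 2) ℂ) (hc : Subgroup.closure (Set.range c) = ⊤)
    (hq : ∀ x, Quasi (ρ x : M2)) (hfin : CRed ρ → Finite ρ.range) :
    ∃ H : Subgroup G, H.Normal ∧ H.FiniteIndex ∧ ∀ x ∈ H, ((ρ x : M2) - 1) ^ 2 = 0 := by
  by_cases hcr : CRed ρ
  · have := hfin hcr
    refine ⟨ρ.ker, inferInstance, Subgroup.finiteIndex_ker ρ, fun x hx => ?_⟩
    rw [MonoidHom.mem_ker.1 hx, Units.val_one, sub_self, zero_pow two_ne_zero]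
  · unfold CRed at hcr
    push Not at hcr
    obtain ⟨W, hW, hno⟩ := hcr
    have hbot : W ≠ ⊥ := by
      rintro rfl
      exact hno ⊤ (fun _ _ _ => Submodule.mem_top) isCompl_bot_top
    have htop : W ≠ ⊤ := by
      rintro rfl
      refine hno ⊥ (fun x v hv => ?_) isCompl_top_bot
      rw [(Submodule.mem_bot ℂ).1 hv, Matrix.mulVec_zero]
      exact Submodule.zero_mem _
    have hW1 : Module.finrank ℂ W = 1 := by
      have h1 := Submodule.finrank_lt htop
      rw [Module.finrank_fin_fun] at h1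
      have h2 : Module.finrank ℂ W ≠ 0 := fun h => hbot (Submodule.finrank_eq_zero.1 h)
      omega
    obtain ⟨w, hw0, hw⟩ := finrank_eq_one_iff'.1 hW1
    have hv : (w : Fin 2 → ℂ) ≠ 0 := fun h0 => hw0 (Subtype.ext h0)
    have heig : ∀ x, ∃ l, RU l ∧ (ρ x : M2) *ᵥ (w : Fin 2 → ℂ) = l • (w : Fin 2 → ℂ) := by
      intro x
      obtain ⟨m, hm⟩ := hw ⟨(ρ x : M2) *ᵥ w, hW x w w.2⟩
      have hm' : (ρ x : M2) *ᵥ (w : Fin 2 → ℂ) = m • (w : Fin 2 → ℂ) :=
        (congrArg Subtype.val hm).symm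
      exact ⟨m, hq x m (isRoot_of_eigV hv hm'), hm'⟩
    obtain ⟨α, hα⟩ := exists_char ρ hv heig
    obtain ⟨N, hN, h⟩ := PWT.exists_order c hc ρ
    have hα1 : ∀ x, (α x : ℂ) ^ N = 1 := fun x =>
      h x _ (isRoot_of_eigV hv (hα x).1) (hα x).2
    let δ : G →* ℂˣ := (Matrix.GeneralLinearGroup.det (n := Fin 2) (R := ℂ)).comp ρ
    have hδ : ∀ x, (δ x : ℂ) = (ρ x : M2).det := fun x => rfl
    have hδ1 : ∀ x, (δ x : ℂ) ^ N = 1 := by
      intro x
      obtain ⟨z, w, hz, hw, -, hd⟩ := PWT.exists_eigenvalues (ρ x : M2)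
      rw [hδ, hd, mul_pow, h x z hz (hq x z hz), h x w hw (hq x w hw), one_mul]
    have i1 : α.ker.FiniteIndex := finiteIndex_ker_of_pow hN hα1
    have i2 : δ.ker.FiniteIndex := finiteIndex_ker_of_pow hN hδ1
    refine ⟨α.ker ⊓ δ.ker, inferInstance, inferInstance, ?_⟩
    rintro x ⟨hx1, hx2⟩
    have e1 : (α x : ℂ) = 1 := by rw [MonoidHom.mem_ker.1 hx1]; rfl
    have e2 : (ρ x : M2).det = 1 := by rw [← hδ, MonoidHom.mem_ker.1 hx2]; rfl
    refine sub_one_sq ?_ e2
    have h1 := root_eq (isRoot_of_eigV hv (hα x).1)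
    rw [e1, e2] at h1
    linear_combination -h1

end Pool.Agent.H2R
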